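import Pool.Agent.V5helper15.RM.Primes
import Pool.Agent.V5helper26.PM.Phase

/-!
# Exponential sums of real polynomials over intervals and over the primes
-/

set_option autoImplicit false

namespace Pool.Agent.V5helper15.MB

open Finset Filter Topology Polynomial
open Pool.Agent.H469R2.NK (e norm_e e_add e_zero conj_e)
open Pool.Agent.H373R2.NB (IW_all)
open Pool.Agent.V5helper26.PM (Ph_real SL minorV)
open Pool.Agent.V5helper15.RM

/-- uniform weights on a finite set of integers -/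
noncomputable def uz (S : Finset ℤ) : S → ℝ := fun _ => 1 / (S.card : ℝ)

theorem uz_prob {S : Finset ℤ} (hS : S.Nonempty) : Prob (uz S) where
  nonneg := fun _ => by unfold uz; positivity
  one := by
    have : (S.card : ℝ) ≠ 0 := by exact_mod_cast hS.card_ne_zero
    unfold uz
    rw [sum_const, card_univ, Fintype.card_coe, nsmul_eq_mul]
    field_simp

theorem Ec_uz (S : Finset ℤ) (g : ℤ → ℂ) : Ec (uz S) (fun ω => g ω) = 1 / (S.card : ℂ) * ∑ s ∈ S, g s := by
  unfold Ec uz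
  rw [mul_sum, ← Finset.sum_coe_sort S (fun s => 1 / (S.card : ℂ) * g s)]
  refine sum_congr rfl fun ω _ => ?_
  push_cast
  rfl

theorem E_uz (S : Finset ℤ) (g : ℤ → ℝ) : E (uz S) (fun ω => g ω) = (∑ s ∈ S, g s) / S.card := by
  unfold E uz
  rw [sum_div, ← Finset.sum_coe_sort S (fun s => g s / (S.card : ℝ))]
  refine sum_congr rfl fun ω _ => ?_
  ring

/-- The exponential sums of the real polynomials of degree at most `D` over `A` are small, unless the coefficient of degree `D`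
is near to a rational number with a small denominator. -/
def SpreadD (A : Finset ℤ) (D : ℕ) (Q η δ : ℝ) : Prop :=
  ∀ F : ℝ[X], F.natDegree ≤ D → (∀ q : ℕ, 1 ≤ q → (q : ℝ) ≤ Q → ∀ P : ℤ, η < |q * F.coeff D - P|) →
    ‖Ec (uz A) (fun m : A => e (F.eval (((m : ℤ) : ℤ) : ℝ)))‖ ≤ δ

theorem SpreadD.mono {A : Finset ℤ} {D : ℕ} {Q η δ δ' : ℝ} (h : SpreadD A D Q η δ) (hδ : δ ≤ δ') : SpreadD A D Q η δ' :=
  fun F hF hF' => (h F hF hF').trans hδ

theorem taylor_coeff_top (F : ℝ[X]) (D : ℕ) (hF : F.natDegree ≤ D) (r : ℝ) : (taylor r F).coeff D = F.coeff D := by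
  rcases hF.lt_or_eq with h | h
  · rw [coeff_eq_zero_of_natDegree_lt h, coeff_eq_zero_of_natDegree_lt (by rw [natDegree_taylor]; exact h)]
  · rw [← h, coeff_taylor_natDegree, leadingCoeff]

/-- **Intervals** -/
theorem poly_spreadD (D : ℕ) (hD : 1 ≤ D) (ε₀ : ℝ) (hε₀ : 0 < ε₀) (κ : ℝ) (hκ : 0 < κ) :
    ∃ c : ℝ, 0 < c ∧ ∃ N0 : ℕ, ∀ N : ℕ, N0 ≤ N → ∀ (J : ℤ) (M : ℕ), Real.exp (ε₀ * N) ≤ M →
      SpreadD (Ico J (J + M)) D (Real.exp (κ * N)) (Real.exp (-(ε₀ / 2 * N))) (Real.exp (-(c * N))) := by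
  classical
  obtain ⟨C, m, hC, hIW⟩ := IW_all D hD
  set c : ℝ := min κ ε₀ / (4 * (m + 1)) with hc
  have hmin : 0 < min κ ε₀ := lt_min hκ hε₀
  have hc0 : 0 < c := by positivity
  have hm0 : (0 : ℝ) ≤ m := Nat.cast_nonneg m
  have hcm : (m + 1) * c = min κ ε₀ / 4 := by rw [hc]; field_simp
  have hcκ : m * c ≤ κ / 4 := by
    have := min_le_left κ ε₀
    nlinarith
  have hcε : m * c ≤ ε₀ / 4 := by
    have := min_le_right κ ε₀
    nlinarith
  set A : ℝ := C * D.factorial with hA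
  have hev : ∀ᶠ N : ℕ in atTop, A ≤ Real.exp (κ / 2 * N) ∧ (C : ℝ) < Real.exp (ε₀ / 4 * N) := by
    have t1 : ∀ r : ℝ, 0 < r → Tendsto (fun N : ℕ => Real.exp (r * N)) atTop atTop := fun r hr =>
      Real.tendsto_exp_atTop.comp (tendsto_natCast_atTop_atTop.const_mul_atTop hr)
    filter_upwards [(t1 (κ / 2) (by positivity)).eventually_ge_atTop A, (t1 (ε₀ / 4) (by positivity)).eventually_gt_atTop (C : ℝ)] with N h1 h2
    exact ⟨h1, h2⟩
  obtain ⟨N0, hN0⟩ := eventually_atTop.1 hev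
  refine ⟨c, hc0, N0, fun N hN J M hM => ?_⟩
  obtain ⟨hN1, hN2⟩ := hN0 N hN
  have hNN : (0 : ℝ) ≤ N := Nat.cast_nonneg N
  have hM0 : (0 : ℝ) < M := lt_of_lt_of_le (Real.exp_pos _) hM
  have hM1 : 1 ≤ M := by exact_mod_cast hM0
  intro F hF hθ
  by_contra hcon
  push Not at hcon
  set S : ℂ := ∑ n ∈ range M, Pool.Agent.Helper602.MK.ee ((taylor (J : ℝ) F).eval (n : ℝ)) with hS
  have hSE : Ec (uz (Ico J (J + M))) (fun ω => e (F.eval (((ω : ℤ) : ℤ) : ℝ))) = 1 / (M : ℂ) * S := by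
    rw [Ec_uz (Ico J (J + M)) (fun n => e (F.eval (n : ℝ))), Int.card_Ico]
    have h1 : (J + M - J).toNat = M := by omega
    rw [h1, hS]
    congr 1
    symm
    refine sum_nbij (fun n : ℕ => J + (n : ℤ)) ?_ ?_ ?_ ?_
    · intro n hn
      rw [mem_range] at hn
      rw [mem_Ico]
      omega
    · intro a _ b _ hab
      simpa using hab
    · intro z hz
      rw [mem_coe, mem_Ico] at hz
      exact ⟨(z - J).toNat, by rw [mem_coe, mem_range]; omega, by simp only; omega⟩
    · intro n _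
      rw [ee_eq_e, taylor_eval]
      push_cast
      rw [add_comm (n : ℝ)]
  rw [hSE, norm_mul, norm_div, norm_one, Complex.norm_natCast, one_div_mul_eq_div, lt_div_iff₀ hM0] at hcon
  have h1 : (M : ℝ) ≤ Real.exp (c * N) * ‖S‖ := by
    have h2 : Real.exp (c * N) * (Real.exp (-(c * N)) * M) ≤ Real.exp (c * N) * ‖S‖ := by gcongr
    have h3 : Real.exp (c * N) * (Real.exp (-(c * N)) * M) = M := by
      rw [← mul_assoc, ← Real.exp_add, add_neg_cancel, Real.exp_zero, one_mul]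
    rwa [h3] at h2
  obtain ⟨q, hq1, hq2, a, ha⟩ := hIW M (Real.exp (c * N)) ((D.factorial : ℝ) * (taylor (J : ℝ) F).coeff D)
    (fun n => (taylor (J : ℝ) F).eval (n : ℝ)) hM1 (Real.one_le_exp (by positivity))
    (Ph_real D (taylor (J : ℝ) F) (by rw [natDegree_taylor]; exact hF)) h1
  rw [taylor_coeff_top F D hF] at ha
  rw [← Real.exp_nat_mul] at hq2 ha
  have hq3 : ((q * D.factorial : ℕ) : ℝ) ≤ Real.exp (κ * N) := by
    push_cast
    calc (q : ℝ) * D.factorial ≤ (C * Real.exp (m * (c * N))) * D.factorial := by gcongr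
      _ = A * Real.exp (m * (c * N)) := by rw [hA]; ring
      _ ≤ Real.exp (κ / 2 * N) * Real.exp (κ / 4 * N) :=
          mul_le_mul hN1 (Real.exp_le_exp.2 (by nlinarith)) (Real.exp_pos _).le (Real.exp_pos _).le
      _ ≤ Real.exp (κ * N) := by
          rw [← Real.exp_add]
          apply Real.exp_le_exp.2
          nlinarith
  have hq4 : 1 ≤ q * D.factorial := Nat.mul_pos (by omega) (Nat.factorial_pos D)
  have h5 := hθ _ hq4 hq3 a
  have h6 : ((q * D.factorial : ℕ) : ℝ) * F.coeff D - a = q * ((D.factorial : ℝ) * F.coeff D) - a := by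
    push_cast
    ring
  rw [h6] at h5
  have h8 : (C : ℝ) * Real.exp (m * (c * N)) / (M : ℝ) ^ D ≤ Real.exp (-(ε₀ / 2 * N)) := by
    have h9 : Real.exp (ε₀ * N) ≤ (M : ℝ) ^ D := by
      refine hM.trans ?_
      have : (1 : ℝ) ≤ M := by exact_mod_cast hM1
      calc (M : ℝ) = (M : ℝ) ^ 1 := (pow_one _).symm
        _ ≤ (M : ℝ) ^ D := pow_le_pow_right₀ this hD
    rw [div_le_iff₀ (by positivity)]
    calc (C : ℝ) * Real.exp (m * (c * N)) ≤ Real.exp (ε₀ / 4 * N) * Real.exp (ε₀ / 4 * N) :=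
          mul_le_mul hN2.le (Real.exp_le_exp.2 (by nlinarith)) (Real.exp_pos _).le (Real.exp_pos _).le
      _ = Real.exp (-(ε₀ / 2 * N)) * Real.exp (ε₀ * N) := by rw [← Real.exp_add, ← Real.exp_add]; congr 1; ring
      _ ≤ Real.exp (-(ε₀ / 2 * N)) * (M : ℝ) ^ D := by gcongr
  exact absurd (ha.trans h8) (not_le.2 h5)

/-- the primes up to `M` -/
def primesZ (M : ℕ) : Finset ℤ := ((Icc 1 M).filter Nat.Prime).map Nat.castEmbedding

theorem card_primesZ (M : ℕ) : (primesZ M).card = Nat.primeCounting M := by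
  unfold primesZ
  rw [card_map, card_primes]

theorem sum_primesZ (M : ℕ) (g : ℤ → ℂ) : ∑ s ∈ primesZ M, g s = ∑ p ∈ (Icc 1 M).filter Nat.Prime, g (p : ℤ) := by
  unfold primesZ
  rw [sum_map]
  rfl

/-- **Primes** -/
theorem prime_spreadD (D : ℕ) (hD : 1 ≤ D) (ε₀ : ℝ) (hε₀ : 0 < ε₀) (κ : ℝ) (hκ : 0 < κ) :
    ∃ c : ℝ, 0 < c ∧ ∃ N0 : ℕ, ∀ N : ℕ, N0 ≤ N → ∀ M : ℕ, Real.exp (ε₀ * N) ≤ M → Real.log M ≤ Real.exp (c * N) →
      (primesZ M).Nonempty ∧ SpreadD (primesZ M) D (Real.exp (κ * N)) (Real.exp (-(ε₀ / 2 * N))) (Real.exp (-(c * N))) := by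
  classical
  obtain ⟨Cc, W₀, hV⟩ := minorV D hD
  obtain ⟨X0, hX0⟩ := eventually_atTop.1 pi_lower
  set c : ℝ := min κ ε₀ / (20 * (Cc + 1)) with hc
  have hmin : 0 < min κ ε₀ := lt_min hκ hε₀
  have hc0 : 0 < c := by positivity
  have hC0 : (0 : ℝ) ≤ Cc := Nat.cast_nonneg Cc
  have hcm : 5 * c * (Cc + 1) = min κ ε₀ / 4 := by rw [hc]; field_simp; norm_num
  have hmκ := min_le_left κ ε₀
  have hmε := min_le_right κ ε₀
  have hcC : 0 ≤ c * Cc := by positivity
  have hev : ∀ᶠ N : ℕ in atTop, (W₀ : ℝ) ≤ Real.exp (5 * c * N) ∧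
      2 ≤ Real.exp (ε₀ / 5 * N) ∧ 24 ≤ Real.exp (3 * c * N) ∧ (X0 : ℝ) ≤ Real.exp (ε₀ * N) := by
    have t1 : ∀ r : ℝ, 0 < r → Tendsto (fun N : ℕ => Real.exp (r * N)) atTop atTop := fun r hr =>
      Real.tendsto_exp_atTop.comp (tendsto_natCast_atTop_atTop.const_mul_atTop hr)
    filter_upwards [(t1 (5 * c) (by positivity)).eventually_ge_atTop (W₀ : ℝ),
      (t1 (ε₀ / 5) (by positivity)).eventually_ge_atTop 2, (t1 (3 * c) (by positivity)).eventually_ge_atTop 24,
      (t1 ε₀ hε₀).eventually_ge_atTop (X0 : ℝ)] with N h1 h3 h4 h5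
    exact ⟨h1, h3, h4, h5⟩
  obtain ⟨N0, hN0⟩ := eventually_atTop.1 hev
  refine ⟨c, hc0, N0, fun N hN M hM hlogM => ?_⟩
  obtain ⟨hN1, hN3, hN4, hN5⟩ := hN0 N hN
  have hNN : (0 : ℝ) ≤ N := Nat.cast_nonneg N
  have hM0 : (0 : ℝ) < M := lt_of_lt_of_le (Real.exp_pos _) hM
  have hM1 : 1 ≤ M := by exact_mod_cast hM0
  have hpi := hX0 M (by exact_mod_cast hN5.trans hM)
  have hpi2 : (M : ℝ) / 2 ≤ (Nat.primeCounting M : ℝ) * Real.exp (c * N) :=
    hpi.trans (mul_le_mul_of_nonneg_left hlogM (Nat.cast_nonneg _))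
  have hpi0 : (0 : ℝ) < Nat.primeCounting M := by
    by_contra h
    have h1 : (Nat.primeCounting M : ℝ) = 0 := le_antisymm (not_lt.1 h) (Nat.cast_nonneg _)
    rw [h1, zero_mul] at hpi2
    linarith
  have hne : (primesZ M).Nonempty := by
    rw [← card_pos, card_primesZ]
    exact_mod_cast hpi0
  refine ⟨hne, ?_⟩
  intro f hfd hθ
  set L : ℝ := Real.exp (5 * c * N) with hL
  have hL0 : 0 < L := Real.exp_pos _
  have hLC : L ^ Cc = Real.exp (Cc * (5 * c * N)) := by rw [hL, ← Real.exp_nat_mul]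
  have hB : ∀ t ≤ M, ‖TP f t‖ ≤ 6 * (M * Real.exp (-(5 * c * N))) := by
    intro t htM
    rcases le_or_gt (t : ℝ) (M * Real.exp (-(5 * c * N))) with h | h
    · exact (TP_triv f t).trans (by linarith)
    · have ht0 : (0 : ℝ) < t := lt_trans (by positivity) h
      have ht1 : 1 ≤ t := by exact_mod_cast ht0
      have htMR : (t : ℝ) ≤ M := by exact_mod_cast htM
      have h1 : Real.log t ≤ Real.exp (c * N) := (Real.log_le_log ht0 htMR).trans hlogM
      have h2 : Real.log t ≤ L := h1.trans (Real.exp_le_exp.2 (by nlinarith))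
      have h3 : Real.exp ((ε₀ - 5 * c) * N) ≤ t := by
        refine le_trans ?_ h.le
        calc Real.exp ((ε₀ - 5 * c) * N) = Real.exp (ε₀ * N) * Real.exp (-(5 * c * N)) := by rw [← Real.exp_add]; congr 1; ring
          _ ≤ _ := by gcongr
      have h4 : L ^ Cc ≤ t := by
        rw [hLC]
        refine le_trans (Real.exp_le_exp.2 ?_) h3
        nlinarith
      have h5 : ‖SL f t‖ < t / L := by
        by_contra hcon
        push Not at hcon
        obtain ⟨q, hq1, hq2, a, ha⟩ := hV f hfd t L hN1 h2 h4 hcon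
        have hq3 : (q : ℝ) ≤ Real.exp (κ * N) := by
          refine hq2.trans ?_
          rw [hLC]
          apply Real.exp_le_exp.2
          nlinarith
        have h5 := hθ q hq1 hq3 a
        have h8 : L ^ Cc / (t : ℝ) ^ D ≤ Real.exp (-(ε₀ / 2 * N)) := by
          have h9 : Real.exp ((ε₀ - 5 * c) * N) ≤ (t : ℝ) ^ D := by
            refine h3.trans ?_
            have : (1 : ℝ) ≤ t := by exact_mod_cast ht1
            calc (t : ℝ) = (t : ℝ) ^ 1 := (pow_one _).symm
              _ ≤ (t : ℝ) ^ D := pow_le_pow_right₀ this hD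
          rw [div_le_iff₀ (by positivity)]
          calc L ^ Cc = Real.exp (Cc * (5 * c * N)) := hLC
            _ ≤ Real.exp (-(ε₀ / 2 * N)) * Real.exp ((ε₀ - 5 * c) * N) := by
              rw [← Real.exp_add]
              apply Real.exp_le_exp.2
              nlinarith
            _ ≤ _ := by gcongr
        exact absurd (ha.trans h8) (not_le.2 h5)
      have h6 := TP_near f t ht1
      have h7 : ‖TP f t‖ ≤ ‖SL f t‖ + 2 * √(t : ℝ) * Real.log t := by
        have : TP f t = SL f t - (SL f t - TP f t) := by ring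
        calc ‖TP f t‖ = ‖SL f t - (SL f t - TP f t)‖ := by rw [← this]
          _ ≤ ‖SL f t‖ + ‖SL f t - TP f t‖ := norm_sub_le _ _
          _ ≤ _ := by gcongr
      have h8 : (t : ℝ) / L ≤ M * Real.exp (-(5 * c * N)) := by
        rw [Real.exp_neg, ← hL, ← div_eq_mul_inv]
        gcongr
      have h9 : 2 * √(t : ℝ) * Real.log t ≤ M * Real.exp (-(5 * c * N)) := by
        have g1 : √(t : ℝ) ≤ √(M : ℝ) := Real.sqrt_le_sqrt htMR
        have g2 : Real.exp (ε₀ / 2 * N) ≤ √(M : ℝ) := by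
          rw [Real.le_sqrt' (Real.exp_pos _)]
          refine le_trans (le_of_eq ?_) hM
          rw [sq, ← Real.exp_add]
          congr 1
          ring
        have g3 : 2 * Real.exp (c * N) ≤ √(M : ℝ) * Real.exp (-(5 * c * N)) := by
          calc 2 * Real.exp (c * N) ≤ Real.exp (ε₀ / 5 * N) * Real.exp (c * N) := by gcongr
            _ ≤ Real.exp (ε₀ / 2 * N) * Real.exp (-(5 * c * N)) := by
              rw [← Real.exp_add, ← Real.exp_add]
              apply Real.exp_le_exp.2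
              nlinarith
            _ ≤ _ := by gcongr
        have g4 : √(M : ℝ) * √(M : ℝ) = M := Real.mul_self_sqrt hM0.le
        calc 2 * √(t : ℝ) * Real.log t ≤ 2 * √(M : ℝ) * Real.exp (c * N) := by
              gcongr
          _ = √(M : ℝ) * (2 * Real.exp (c * N)) := by ring
          _ ≤ √(M : ℝ) * (√(M : ℝ) * Real.exp (-(5 * c * N))) := by gcongr
          _ = M * Real.exp (-(5 * c * N)) := by rw [← mul_assoc, g4]
      have h10 : 0 ≤ M * Real.exp (-(5 * c * N)) := by positivity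
      linarith
  have h1 := TP_abel f M _ hB
  have h2 : Ec (uz (primesZ M)) (fun ω => e (f.eval (((ω : ℤ) : ℤ) : ℝ))) =
      1 / (Nat.primeCounting M : ℂ) * ∑ p ∈ (Icc 1 M).filter Nat.Prime, Pool.Agent.H807R2.Dav.ee (f.eval (p : ℝ)) := by
    rw [Ec_uz (primesZ M) (fun n => e (f.eval (n : ℝ))), card_primesZ, sum_primesZ]
    congr 1
    refine sum_congr rfl fun n _ => ?_
    rw [dee_eq_e]
    push_cast
    rfl
  rw [h2, norm_mul, norm_div, norm_one, Complex.norm_natCast, one_div_mul_eq_div, div_le_iff₀ hpi0]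
  refine h1.trans ?_
  calc 2 * (6 * (M * Real.exp (-(5 * c * N)))) = (M / 2) * (24 * Real.exp (-(5 * c * N))) := by ring
    _ ≤ ((Nat.primeCounting M : ℝ) * Real.exp (c * N)) * (Real.exp (3 * c * N) * Real.exp (-(5 * c * N))) := by gcongr
    _ = Real.exp (-(c * N)) * Nat.primeCounting M := by
      have key : Real.exp (c * N) * (Real.exp (3 * c * N) * Real.exp (-(5 * c * N))) = Real.exp (-(c * N)) := by
        rw [← Real.exp_add, ← Real.exp_add]
        congr 1
        ring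
      rw [mul_assoc, key, mul_comm]

end Pool.Agent.V5helper15.MB
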