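import Pool.Agent.V5helper15.MB.AppV
import Pool.Agent.V5helper15.MB.PolV

/-!
# Digits of random values of polynomials in several algebraic numbers, in several bases
-/

set_option autoImplicit false

namespace Pool.Agent.V5helper15.MB

open Finset Filter Topology Polynomial
open Pool.Agent.H469R2.NK (e norm_e e_add e_zero conj_e)
open Pool.Agent.R485.Mult (e_sum)
open Pool.Agent.V5helper15.RM

variable {ι : Type} [Fintype ι] [DecidableEq ι] {L : Type} [Fintype L] [DecidableEq L] {S : Type} [Fintype S] [DecidableEq S]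

/-- the integral combinations of the rows of `h`, except for the trivial one, have a nonconstant entry -/
def Free (h : L → S → ℤ[X]) : Prop := ∀ n : L → ℤ, n ≠ 0 → ∃ s, 1 ≤ (∑ l, C (n l) * h l s).natDegree

/-- the numbers `y_l + ∑_s h_{l,s}(m) x_s` -/
noncomputable def zz (y : L → ℝ) (h : L → S → ℤ[X]) (x : S → ℝ) (m : ℤ) (l : L) : ℝ := y l + ∑ s, (((h l s).eval m : ℤ) : ℝ) * x s

/-- the degrees -/
noncomputable def dmax (h : L → S → ℤ[X]) : ℕ := ∑ l, ∑ s, (h l s).natDegree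

theorem comb_degree (h : L → S → ℤ[X]) (n : L → ℤ) (s : S) : (∑ l, C (n l) * h l s).natDegree ≤ dmax h := by
  refine natDegree_sum_le_of_forall_le _ _ fun l _ => ?_
  refine (natDegree_C_mul_le _ _).trans ?_
  unfold dmax
  exact (single_le_sum (f := fun s => (h l s).natDegree) (fun _ _ => Nat.zero_le _) (mem_univ s)).trans
    (single_le_sum (f := fun l => ∑ s, (h l s).natDegree) (fun _ _ => Nat.zero_le _) (mem_univ l))

/-- the random vector of the orbits has small Fourier coefficients -/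
theorem eqV_of_spreadD (B : ι → ℕ) (hB : ∀ i, 2 ≤ B i) (hind : ∀ i i', i ≠ i' → ∀ k l : ℕ, B i ^ k = B i' ^ l → k = 0)
    (x : S → ℝ) (hx : ∀ s, IsAlgebraic ℚ (x s)) (hlin : ∀ (n : S → ℤ) (m : ℤ), ∑ s, (n s : ℝ) * x s = m → n = 0)
    (h : L → S → ℤ[X]) (hh : Free h) (k : ℕ) (ε : ℝ) (hε : 0 < ε) :
    ∃ κ : ℝ, 0 < κ ∧ ∃ N0 : ℕ, ∀ N : ℕ, N0 ≤ N → ∀ (A : Finset ℤ) (y : L → ℝ) (δ : ℝ), A.Nonempty →
      (∀ D : ℕ, 1 ≤ D → D ≤ dmax h → SpreadD A D (Real.exp (κ * N)) (Real.exp (-(ε * N))) δ) →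
      ∀ (i0 : L → ι) (u : L × ι → Fin k → ℕ), (∀ g m, u g m ≤ N) → (∀ l i, i ≠ i0 l → ∀ m, ε * N ≤ u (l, i) m) →
      EqV (Rel (fun g : L × ι => B g.2) u) ⌊Real.exp (κ * N)⌋₊ δ (uz A)
        (fun (m : A) (j : (L × ι) × Fin k) => (B j.1.2 : ℝ) ^ u j.1 j.2 * zz y h x m j.1.1) := by
  classical
  obtain ⟨κ1, hκ1, N1, hvan⟩ := vanish B hB hind (ι × Fin k) ε hε
  obtain ⟨κ2, hκ2, N2, hdio⟩ := dioph_multi B hB x hx hlin (S × ((L × ι) × Fin k)) ε hε
  -- the coefficients
  obtain ⟨K, hK⟩ : ∃ K : ℝ, K = 1 + ∑ l, ∑ s, ∑ D ∈ range (dmax h + 1), |(((h l s).coeff D : ℤ) : ℝ)| := ⟨_, rfl⟩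
  have hKc : ∀ l s D, D ≤ dmax h → |(((h l s).coeff D : ℤ) : ℝ)| ≤ K := by
    intro l s D hD
    have h1 : |(((h l s).coeff D : ℤ) : ℝ)| ≤ ∑ D ∈ range (dmax h + 1), |(((h l s).coeff D : ℤ) : ℝ)| :=
      single_le_sum (f := fun D => |(((h l s).coeff D : ℤ) : ℝ)|) (fun _ _ => abs_nonneg _) (mem_range.2 (by omega))
    have h2 : ∑ D ∈ range (dmax h + 1), |(((h l s).coeff D : ℤ) : ℝ)| ≤ ∑ s, ∑ D ∈ range (dmax h + 1), |(((h l s).coeff D : ℤ) : ℝ)| :=
      single_le_sum (f := fun s => ∑ D ∈ range (dmax h + 1), |(((h l s).coeff D : ℤ) : ℝ)|) (fun _ _ => by positivity) (mem_univ s)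
    have h3 : ∑ s, ∑ D ∈ range (dmax h + 1), |(((h l s).coeff D : ℤ) : ℝ)| ≤ ∑ l, ∑ s, ∑ D ∈ range (dmax h + 1), |(((h l s).coeff D : ℤ) : ℝ)| :=
      single_le_sum (f := fun l => ∑ s, ∑ D ∈ range (dmax h + 1), |(((h l s).coeff D : ℤ) : ℝ)|) (fun _ _ => by positivity) (mem_univ l)
    rw [hK]
    linarith
  have hK1 : 1 ≤ K := by
    rw [hK]
    have : 0 ≤ ∑ l, ∑ s, ∑ D ∈ range (dmax h + 1), |(((h l s).coeff D : ℤ) : ℝ)| := by positivity
    linarith
  have hevK : ∀ᶠ N : ℕ in atTop, K ≤ Real.exp (κ2 / 3 * N) :=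
    (Real.tendsto_exp_atTop.comp (tendsto_natCast_atTop_atTop.const_mul_atTop (by positivity : 0 < κ2 / 3))).eventually_ge_atTop K
  obtain ⟨N3, hN3⟩ := eventually_atTop.1 hevK
  refine ⟨min κ1 (κ2 / 3), lt_min hκ1 (by positivity), max N1 (max N2 N3), fun N hN A y δ hA hS i0 u hu hu0 => ?_⟩
  have hN1 := (le_max_left _ _).trans hN
  have hN2 := (le_max_left _ _).trans ((le_max_right _ _).trans hN)
  have hKN := hN3 N ((le_max_right _ _).trans ((le_max_right _ _).trans hN))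
  have hp : Prob (uz A) := uz_prob hA
  set κ := min κ1 (κ2 / 3) with hκ
  have hκκ1 : κ ≤ κ1 := min_le_left _ _
  have hκκ2 : κ ≤ κ2 / 3 := min_le_right _ _
  intro f hf
  have hfR : ∀ j, |(f j : ℝ)| ≤ Real.exp (κ * N) := by
    intro j
    have h5 : ((|f j| : ℤ) : ℝ) ≤ ((⌊Real.exp (κ * N)⌋₊ : ℤ) : ℝ) := by exact_mod_cast hf j
    rw [Int.cast_abs] at h5
    refine h5.trans ?_
    have := Nat.floor_le (Real.exp_pos (κ * N)).le
    exact_mod_cast this
  constructor
  · intro hR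
    have h1 : ∀ m : A, ∑ j : (L × ι) × Fin k, (f j : ℝ) * ((B j.1.2 : ℝ) ^ u j.1 j.2 * zz y h x m j.1.1) = 0 := by
      intro m
      have h2 := sum_freq (fun g : L × ι => B g.2) u f (fun g => zz y h x m g.1)
      rw [h2]
      refine sum_eq_zero fun g _ => ?_
      rw [hR g]
      simp
    simp only [h1, e_zero]
    exact Ec_one hp
  · intro hR
    -- the frequencies of the numbers
    obtain ⟨Λ, hΛ⟩ : ∃ Λ : L → ℤ, Λ = fun l => ∑ s : ι × Fin k, f ((l, s.1), s.2) * (B s.1 : ℤ) ^ u (l, s.1) s.2 := ⟨_, rfl⟩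
    have hΛ0 : Λ ≠ 0 := by
      intro hcon
      apply hR
      rintro ⟨l, i⟩
      have h1 : ∑ s : ι × Fin k, f ((l, s.1), s.2) * (B s.1 : ℤ) ^ u (l, s.1) s.2 = 0 := by
        have := congrFun hcon l
        rw [hΛ] at this
        exact this
      have h3 := hvan N hN1 (i0 l) (fun s => s.1) (fun s => u (l, s.1) s.2) (fun s => f ((l, s.1), s.2))
        (fun s hs => hu0 l s.1 hs s.2) (fun s => (hfR _).trans (Real.exp_le_exp.2
          (mul_le_mul_of_nonneg_right hκκ1 (Nat.cast_nonneg N)))) h1 i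
      have h4 : ∑ s : ι × Fin k with s.1 = i, f ((l, s.1), s.2) * (B s.1 : ℤ) ^ u (l, s.1) s.2 =
          ∑ m, f ((l, i), m) * (B i : ℤ) ^ u (l, i) m := by
        symm
        refine sum_nbij (fun m => (i, m)) ?_ ?_ ?_ ?_
        · intro m _; simp
        · intro m _ m' _ hmm
          simpa using hmm
        · rintro ⟨i', m⟩ ht
          simp only [coe_filter, mem_univ, true_and, Set.mem_ofPred_eq] at ht
          subst ht
          exact ⟨m, by simp, rfl⟩
        · intro m _; rfl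
      rw [h4] at h3
      exact h3
    -- the degree
    obtain ⟨s0, hs0⟩ := hh Λ hΛ0
    obtain ⟨s1, -, hs1⟩ := exists_max_image univ (fun s => (∑ l, C (Λ l) * h l s).natDegree) ⟨s0, mem_univ _⟩
    set D : ℕ := (∑ l, C (Λ l) * h l s1).natDegree with hD
    have hD1 : 1 ≤ D := hs0.trans (hs1 s0 (mem_univ _))
    have hDd : D ≤ dmax h := comb_degree h Λ s1
    -- the coefficients of degree `D`
    obtain ⟨n, hn⟩ : ∃ n : S → ℤ, n = fun s => (∑ l, C (Λ l) * h l s).coeff D := ⟨_, rfl⟩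
    have hn1 : n s1 ≠ 0 := by
      rw [hn]
      show (∑ l, C (Λ l) * h l s1).coeff D ≠ 0
      rw [hD, coeff_natDegree, leadingCoeff_ne_zero]
      intro h0
      rw [hD, h0] at hD1
      simp at hD1
    have hnΛ : ∀ s, n s = ∑ l, Λ l * (h l s).coeff D := by
      intro s
      rw [hn]
      simp only [finsetSum_coeff, coeff_C_mul]
    -- the polynomial
    obtain ⟨F, hF⟩ : ∃ F : ℝ[X], F = C (∑ l, (Λ l : ℝ) * y l) + ∑ s, C (x s) * (∑ l, C (Λ l) * h l s).map (Int.castRingHom ℝ) := ⟨_, rfl⟩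
    have hFdeg : F.natDegree ≤ D := by
      rw [hF]
      refine (natDegree_add_le _ _).trans (max_le ?_ ?_)
      · rw [natDegree_C]; omega
      · refine natDegree_sum_le_of_forall_le _ _ fun s _ => ?_
        refine (natDegree_C_mul_le _ _).trans (natDegree_map_le.trans ?_)
        exact hs1 s (mem_univ _)
    have hFcoeff : F.coeff D = ∑ s, (n s : ℝ) * x s := by
      rw [hF, coeff_add, coeff_C_of_ne_zero (by omega), zero_add, finsetSum_coeff]
      refine sum_congr rfl fun s _ => ?_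
      rw [coeff_C_mul, coeff_map, hn]
      simp only [eq_intCast]
      ring
    have hFeval : ∀ m : ℤ, F.eval (m : ℝ) = ∑ l, (Λ l : ℝ) * zz y h x m l := by
      intro m
      rw [hF, eval_add, eval_C, eval_finsetSum]
      have e1 : ∀ s, (C (x s) * (∑ l, C (Λ l) * h l s).map (Int.castRingHom ℝ)).eval (m : ℝ) =
          ∑ l, (Λ l : ℝ) * ((((h l s).eval m : ℤ) : ℝ) * x s) := by
        intro s
        rw [eval_mul, eval_C, eval_intCast_map, eval_finsetSum, eq_intCast]
        simp only [eval_mul, eval_C]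
        push_cast
        rw [mul_sum]
        exact sum_congr rfl fun l _ => by ring
      simp only [e1]
      rw [sum_comm, ← sum_add_distrib]
      refine sum_congr rfl fun l _ => ?_
      unfold zz
      rw [mul_add, mul_sum]
    have h1 := hS D hD1 hDd F hFdeg (by
      intro q hq1 hq2 P
      have h2 := hdio N hN2 (fun t => t.1) (fun t => t.2.1.2) (fun t => u t.2.1 t.2.2)
        (fun t => (q : ℤ) * (h t.2.1.1 t.1).coeff D * f t.2)
        (fun t => hu _ _) (fun t => by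
          push_cast
          rw [abs_mul, abs_mul, abs_of_nonneg (Nat.cast_nonneg q)]
          calc (q : ℝ) * |(((h t.2.1.1 t.1).coeff D : ℤ) : ℝ)| * |(f t.2 : ℝ)|
              ≤ Real.exp (κ * N) * K * Real.exp (κ * N) := by
                have := hfR t.2
                have := hKc t.2.1.1 t.1 D hDd
                gcongr
            _ ≤ Real.exp (κ * N) * Real.exp (κ2 / 3 * N) * Real.exp (κ * N) := by gcongr
            _ = Real.exp ((κ + κ2 / 3 + κ) * N) := by rw [← Real.exp_add, ← Real.exp_add]; congr 1; ring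
            _ ≤ Real.exp (κ2 * N) := Real.exp_le_exp.2 (mul_le_mul_of_nonneg_right (by linarith) (Nat.cast_nonneg N))) (by
          refine ⟨s1, ?_⟩
          have h3 : ∑ t : S × ((L × ι) × Fin k) with t.1 = s1, (q : ℤ) * (h t.2.1.1 t.1).coeff D * f t.2 * (B t.2.1.2 : ℤ) ^ u t.2.1 t.2.2 =
              q * n s1 := by
            have h4 : ∑ t : S × ((L × ι) × Fin k) with t.1 = s1, (q : ℤ) * (h t.2.1.1 t.1).coeff D * f t.2 * (B t.2.1.2 : ℤ) ^ u t.2.1 t.2.2 =
                ∑ t : (L × ι) × Fin k, (q : ℤ) * (h t.1.1 s1).coeff D * f t * (B t.1.2 : ℤ) ^ u t.1 t.2 := by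
              symm
              refine sum_nbij (fun m => (s1, m)) ?_ ?_ ?_ ?_
              · intro m _; simp
              · intro m _ m' _ hmm
                simpa using hmm
              · rintro ⟨i', m⟩ ht
                simp only [coe_filter, mem_univ, true_and, Set.mem_ofPred_eq] at ht
                subst ht
                exact ⟨m, by simp, rfl⟩
              · intro m _; rfl
            rw [h4, Fintype.sum_prod_type, Fintype.sum_prod_type, hnΛ, mul_sum]
            refine sum_congr rfl fun l _ => ?_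
            rw [hΛ]
            simp only [Fintype.sum_prod_type]
            rw [sum_mul, mul_sum]
            refine sum_congr rfl fun i _ => ?_
            rw [sum_mul, mul_sum]
            exact sum_congr rfl fun m _ => by ring
          rw [h3]
          exact mul_ne_zero (by omega) hn1) P
      have h3 : ∑ t : S × ((L × ι) × Fin k), (((q : ℤ) * (h t.2.1.1 t.1).coeff D * f t.2 : ℤ) : ℝ) * (B t.2.1.2 : ℝ) ^ u t.2.1 t.2.2 * x t.1 =
          q * F.coeff D := by
        rw [hFcoeff, Fintype.sum_prod_type, mul_sum]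
        refine sum_congr rfl fun s _ => ?_
        rw [hnΛ s, Fintype.sum_prod_type, Fintype.sum_prod_type]
        push_cast
        rw [sum_mul, mul_sum]
        refine sum_congr rfl fun l _ => ?_
        rw [hΛ]
        push_cast
        simp only [Fintype.sum_prod_type]
        rw [sum_mul, sum_mul, mul_sum]
        refine sum_congr rfl fun i _ => ?_
        rw [sum_mul, sum_mul, mul_sum]
        exact sum_congr rfl fun m _ => by ring
      rw [h3] at h2
      exact h2)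
    refine le_trans (le_of_eq ?_) h1
    congr 2
    funext m
    congr 1
    rw [hFeval]
    have h2 := sum_freq (fun g : L × ι => B g.2) u f (fun g => zz y h x m g.1)
    rw [h2, Fintype.sum_prod_type]
    refine sum_congr rfl fun l _ => ?_
    rw [hΛ]
    push_cast
    simp only [Fintype.sum_prod_type]
    rw [sum_mul]

/-- **Windows**: unions of few intervals of places, several numbers, several bases. -/
theorem windows_appP (B : ι → ℕ) (hB : ∀ i, 2 ≤ B i) (hind : ∀ i i', i ≠ i' → ∀ k l : ℕ, B i ^ k = B i' ^ l → k = 0)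
    (x : S → ℝ) (hx : ∀ s, IsAlgebraic ℚ (x s)) (hlin : ∀ (n : S → ℤ) (m : ℤ), ∑ s, (n s : ℝ) * x s = m → n = 0)
    (h : L → S → ℤ[X]) (hh : Free h) (k : ℕ) (ε : ℝ) (hε : 0 < ε) :
    ∃ κ : ℝ, 0 < κ ∧ ∀ c : ℝ, 0 < c → ∃ τ : ℝ, 0 < τ ∧ ∃ N0 : ℕ, ∀ N : ℕ, N0 ≤ N →
      ∀ (A : Finset ℤ) (y : L → ℝ), A.Nonempty →
      (∀ D : ℕ, 1 ≤ D → D ≤ dmax h → SpreadD A D (Real.exp (κ * N)) (Real.exp (-(ε * N))) (Real.exp (-(c * N)))) →
      ∀ (i0 : L → ι) (u v : L × ι → Fin k → ℕ), (∀ g m, u g m ≤ N) → (∀ g m, v g m ≤ N) →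
      (∀ l i, i ≠ i0 l → ∀ m, ε * N ≤ u (l, i) m) →
      (∀ g, ((TU (u g) (v g)).card : ℝ) ≤ τ * N) → ∀ d : L × ι → ℕ → ℕ, (∀ g i, d g i < B g.2) →
      |E (uz A) (fun m => if ∀ g : L × ι, ∀ i ∈ TU (u g) (v g), dg (B g.2) (zz y h x m g.1) i = d g i then 1 else 0) -
        ∏ g : L × ι, 1 / (B g.2 : ℝ) ^ (TU (u g) (v g)).card| ≤
        Real.exp (-(τ * N)) * ∏ g : L × ι, 1 / (B g.2 : ℝ) ^ (TU (u g) (v g)).card := by
  classical
  obtain ⟨κ, hκ, N1, hmain⟩ := eqV_of_spreadD B hB hind x hx hlin h hh k ε hε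
  refine ⟨κ, hκ, fun c hc => ?_⟩
  obtain ⟨τ, hτ, N2, hest⟩ := est (Fintype.card ((L × ι) × Fin k)) hκ hc
  obtain ⟨Z, hZ⟩ : ∃ Z : ℝ, Z = ∑ g : L × ι, Real.log (B g.2) := ⟨_, rfl⟩
  have hZ0 : 0 ≤ Z := by rw [hZ]; exact sum_nonneg fun g _ => Real.log_natCast_nonneg _
  refine ⟨τ / (1 + Z), by positivity, max N1 N2, fun N hN A y hA hS i0 u v hu hv hu0 hcard d hd => ?_⟩
  obtain ⟨hH, t, ht0, ht1, htH, hbd⟩ := hest N ((le_max_right _ _).trans hN)
  have hE := hmain N ((le_max_left _ _).trans hN) A y _ hA hS i0 u hu hu0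
  obtain ⟨N', hNN', hN'⟩ := exists_bigV (fun g : L × ι => B g.2) (fun g => hB g.2)
    (fun g => k * ⌊Real.exp (κ * N)⌋₊ * B g.2 ^ N) N
  have h1 := windowsV (N := N') (M := N) (zz := fun (m : A) (g : L × ι) => zz y h x m g.1)
    (b := fun g : L × ι => B g.2) (fun g => by have := hB g.2; show 0 < B g.2; omega) u v hE (uz_prob hA) (Real.exp_pos _).le hH ht0 ht1 htH
    hu hv d hd hN' hNN'
  refine (h1.trans hbd).trans ?_
  have hpos : ∀ g : L × ι, (0 : ℝ) < B g.2 := fun g => by have := hB g.2; exact_mod_cast (by omega : 0 < B g.2)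
  have h2 : ∏ g : L × ι, 1 / (B g.2 : ℝ) ^ (TU (u g) (v g)).card = Real.exp (-∑ g : L × ι, (TU (u g) (v g)).card * Real.log (B g.2)) := by
    rw [← sum_neg_distrib, Real.exp_sum]
    refine prod_congr rfl fun g _ => ?_
    rw [Real.exp_neg, Real.exp_nat_mul, Real.exp_log (hpos g), one_div]
  rw [h2, ← Real.exp_add]
  apply Real.exp_le_exp.2
  have h3 : ∑ g : L × ι, (TU (u g) (v g)).card * Real.log (B g.2) ≤ τ / (1 + Z) * N * Z := by
    rw [hZ, mul_sum]
    refine sum_le_sum fun g _ => ?_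
    refine mul_le_mul_of_nonneg_right ?_ (Real.log_natCast_nonneg _)
    rw [← hZ]
    exact hcard g
  have h4 : τ / (1 + Z) * N * Z + τ / (1 + Z) * N = τ * N := by field_simp; ring
  linarith

end Pool.Agent.V5helper15.MB
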