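import Pool.Agent.V5helper15.MB.CompV
import Pool.Agent.V5helper15.RM.App

/-!
# Families of independent random strings, windows of digits
-/

set_option autoImplicit false

namespace Pool.Agent.V5helper15.MB

open Finset Filter Topology
open Pool.Agent.H469R2.NK (e norm_e e_add e_zero conj_e)
open Pool.Agent.R485.Mult (e_sum)
open Pool.Agent.V5helper15.RM

variable {G : Type} [Fintype G] [DecidableEq G] {b : G → ℕ} {N : ℕ}

/-- uniform weights on the families of strings -/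
noncomputable def unF (b : G → ℕ) (N : ℕ) : ((g : G) → Fin N → Fin (b g)) → ℝ := fun z => ∏ g, un (b g) N (z g)

theorem unF_prod (f : (g : G) → (Fin N → Fin (b g)) → ℂ) :
    Ec (unF b N) (fun z => ∏ g, f g (z g)) = ∏ g, Ec (un (b g) N) (f g) := by
  unfold Ec unF
  rw [prod_univ_sum, Fintype.piFinset_univ]
  refine sum_congr rfl fun z _ => ?_
  push_cast
  rw [← prod_mul_distrib]

theorem unF_prodR (f : (g : G) → (Fin N → Fin (b g)) → ℝ) :
    E (unF b N) (fun z => ∏ g, f g (z g)) = ∏ g, E (un (b g) N) (f g) := by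
  unfold E unF
  rw [prod_univ_sum, Fintype.piFinset_univ]
  refine sum_congr rfl fun z _ => ?_
  rw [← prod_mul_distrib]

theorem unF_prob (hb : ∀ g, 0 < b g) (N : ℕ) : Prob (unF b N) where
  nonneg := fun z => prod_nonneg fun g _ => (un_prob (hb g) N).nonneg _
  one := by
    have h := unF_prodR (b := b) (N := N) (fun g _ => 1)
    have h1 : ∀ g, E (un (b g) N) (fun _ => 1) = 1 := fun g => (un_prob (hb g) N).const 1
    simp only [h1, prod_const_one] at h
    unfold E at h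
    simpa using h

theorem unF_fourier (hb : ∀ g, 0 < b g) (Λ : G → ℤ) (hΛ : ∀ g, |Λ g| < (b g : ℤ) ^ N) :
    ((∀ g, Λ g = 0) → Ec (unF b N) (fun z => e (∑ g, (Λ g : ℝ) * pt (z g))) = 1) ∧
      (¬ (∀ g, Λ g = 0) → Ec (unF b N) (fun z => e (∑ g, (Λ g : ℝ) * pt (z g))) = 0) := by
  constructor
  · intro h
    simp only [h, Int.cast_zero, zero_mul, sum_const_zero, e_zero]
    exact Ec_one (unF_prob hb N)
  · intro h
    rw [not_forall] at h
    obtain ⟨g, hg⟩ := h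
    have h1 := unF_prod (b := b) (N := N) (fun g x => e ((Λ g : ℝ) * pt x))
    simp only [← e_sum] at h1
    rw [h1]
    exact prod_eq_zero (mem_univ g) (pt_fourier (hb g) _ hg (hΛ g))

/-- the relations between the frequencies -/
def Rel {k : ℕ} (b : G → ℕ) (u : G → Fin k → ℕ) (h : G × Fin k → ℤ) : Prop :=
  ∀ g, ∑ m, h (g, m) * (b g : ℤ) ^ u g m = 0

omit [DecidableEq G] in
theorem rel_single [DecidableEq G] {k : ℕ} (hb : ∀ g, 0 < b g) (u : G → Fin k → ℕ) (j : G × Fin k) (h : ℤ) (hh : h ≠ 0) :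
    ¬ Rel b u (Pi.single j h) := by
  intro hR
  have h1 := hR j.1
  rw [sum_eq_single j.2 (fun m _ hm => by
    rw [Pi.single_eq_of_ne (fun h' => hm (by rw [← h'])), zero_mul]) (by simp)] at h1
  rw [Pi.single_eq_same, mul_eq_zero] at h1
  rcases h1 with h1 | h1
  · exact hh h1
  · exact pow_ne_zero _ (by exact_mod_cast (hb j.1).ne') h1

theorem sum_freq {k : ℕ} (b : G → ℕ) (u : G → Fin k → ℕ) (h : G × Fin k → ℤ) (z : G → ℝ) :
    ∑ j : G × Fin k, (h j : ℝ) * ((b j.1 : ℝ) ^ u j.1 j.2 * z j.1) =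
      ∑ g, ((∑ m, h (g, m) * (b g : ℤ) ^ u g m : ℤ) : ℝ) * z g := by
  rw [Fintype.sum_prod_type]
  refine sum_congr rfl fun g _ => ?_
  push_cast
  rw [sum_mul]
  exact sum_congr rfl fun m _ => by ring

theorem ref_eqV {k H M : ℕ} (hb : ∀ g, 0 < b g) (u : G → Fin k → ℕ) (hu : ∀ g m, u g m ≤ M)
    (hN : ∀ g, k * H * b g ^ M < b g ^ N) {δ : ℝ} (hδ : 0 ≤ δ) :
    EqV (Rel b u) H δ (unF b N) (fun z (j : G × Fin k) => (b j.1 : ℝ) ^ u j.1 j.2 * pt (z j.1)) := by
  intro h hh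
  have h1 : ∀ g, |∑ m, h (g, m) * (b g : ℤ) ^ u g m| < (b g : ℤ) ^ N := by
    intro g
    have hb1 : (1 : ℤ) ≤ b g := by exact_mod_cast hb g
    have h2 : |∑ m, h (g, m) * (b g : ℤ) ^ u g m| ≤ (k * H * b g ^ M : ℕ) := by
      refine (abs_sum_le_sum_abs _ _).trans ?_
      have h3 : ∀ m ∈ (univ : Finset (Fin k)), |h (g, m) * (b g : ℤ) ^ u g m| ≤ (H * b g ^ M : ℕ) := by
        intro m _
        rw [abs_mul, abs_of_nonneg (by positivity : (0 : ℤ) ≤ (b g : ℤ) ^ u g m)]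
        push_cast
        exact mul_le_mul (hh _) (pow_le_pow_right₀ hb1 (hu g m)) (by positivity) (by positivity)
      refine (sum_le_sum h3).trans (le_of_eq ?_)
      rw [sum_const, card_univ, Fintype.card_fin, nsmul_eq_mul]
      push_cast
      ring
    exact lt_of_le_of_lt h2 (by exact_mod_cast hN g)
  have h2 := unF_fourier (N := N) hb (fun g => ∑ m, h (g, m) * (b g : ℤ) ^ u g m) h1
  have h3 : ∀ z : (g : G) → Fin N → Fin (b g), ∑ j : G × Fin k, (h j : ℝ) * ((b j.1 : ℝ) ^ u j.1 j.2 * pt (z j.1)) =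
      ∑ g, ((∑ m, h (g, m) * (b g : ℤ) ^ u g m : ℤ) : ℝ) * pt (z g) := fun z => sum_freq b u h (fun g => pt (z g))
  simp only [h3]
  refine ⟨fun hR => h2.1 hR, fun hR => ?_⟩
  rw [h2.2 hR, norm_zero]
  exact hδ

/-- **Windows of digits**, several streams of digits. -/
theorem windowsV {Ω : Type*} [Fintype Ω] {p : Ω → ℝ} {zz : Ω → G → ℝ} {k H M : ℕ} {δ : ℝ} (hb : ∀ g, 0 < b g) (u v : G → Fin k → ℕ)
    (hE : EqV (Rel b u) H δ p (fun ω (j : G × Fin k) => (b j.1 : ℝ) ^ u j.1 j.2 * zz ω j.1)) (hp : Prob p) (hδ : 0 ≤ δ)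
    (hH : 1 ≤ H) {t : ℝ} (ht0 : 0 < t) (ht1 : t ≤ 1) (htH : 2 ≤ t * H) (hu : ∀ g m, u g m ≤ M) (hv : ∀ g m, v g m ≤ M)
    (d : G → ℕ → ℕ) (hd : ∀ g i, d g i < b g) (hN : ∀ g, k * H * b g ^ M < b g ^ N) (hMN : M ≤ N) :
    |E p (fun ω => if ∀ g, ∀ i ∈ TU (u g) (v g), dg (b g) (zz ω g) i = d g i then 1 else 0) -
      ∏ g, 1 / (b g : ℝ) ^ (TU (u g) (v g)).card| ≤
      2 * δ * (4 / t) ^ Fintype.card (G × Fin k) + 5 ^ Fintype.card (G × Fin k) * Fintype.card (G × Fin k) *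
        (4 / (t * H) + 2 * (2 * t + (6 / t * δ + 4 / (t * H)))) := by
  classical
  have hb0 : ∀ g, (0 : ℝ) < b g := fun g => by exact_mod_cast hb g
  have hE' := ref_eqV (N := N) (H := H) hb u hu hN hδ
  have h1 := hE.main hE' (fun j h hh => rel_single hb u j h hh) hp (unF_prob hb N) hδ hH ht0 ht1 htH
    (fun j => al (b j.1) (fun i => d j.1 (u j.1 j.2 + i)) (v j.1 j.2 - u j.1 j.2))
    (fun j => al (b j.1) (fun i => d j.1 (u j.1 j.2 + i)) (v j.1 j.2 - u j.1 j.2) + 1 / (b j.1 : ℝ) ^ (v j.1 j.2 - u j.1 j.2))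
    (fun j => al_nonneg _ _ _) (fun j => by
      have := hb0 j.1
      have : 0 < 1 / (b j.1 : ℝ) ^ (v j.1 j.2 - u j.1 j.2) := by positivity
      linarith) (fun j => al_le (b j.1) (hb j.1) _ (fun i => hd _ _) _)
  have h2 : ∀ w : G → ℝ, ∏ j : G × Fin k, ind (al (b j.1) (fun i => d j.1 (u j.1 j.2 + i)) (v j.1 j.2 - u j.1 j.2))
      (al (b j.1) (fun i => d j.1 (u j.1 j.2 + i)) (v j.1 j.2 - u j.1 j.2) + 1 / (b j.1 : ℝ) ^ (v j.1 j.2 - u j.1 j.2))
      ((b j.1 : ℝ) ^ u j.1 j.2 * w j.1) =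
      if ∀ g, ∀ i ∈ TU (u g) (v g), dg (b g) (w g) i = d g i then 1 else 0 := by
    intro w
    have h3 : (∀ j : G × Fin k, ∀ i < v j.1 j.2 - u j.1 j.2, dg (b j.1) (w j.1) (u j.1 j.2 + i) = ((d j.1 (u j.1 j.2 + i) : ℕ) : ℤ)) ↔
        ∀ g, ∀ i ∈ TU (u g) (v g), dg (b g) (w g) i = d g i := by
      constructor
      · intro h g i hi
        rw [mem_TU] at hi
        obtain ⟨m, hm⟩ := hi
        have := h (g, m) (i - u g m) (by simp only; omega)
        simp only at this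
        rwa [Nat.add_sub_cancel' hm.1] at this
      · intro h j i hi
        apply h
        rw [mem_TU]
        exact ⟨j.2, by omega, by omega⟩
    by_cases h : ∀ g, ∀ i ∈ TU (u g) (v g), dg (b g) (w g) i = d g i
    · rw [if_pos h]
      refine prod_eq_one fun j _ => ?_
      unfold ind
      rw [if_pos ((win (b j.1) (hb j.1) (w j.1) (u j.1 j.2) _ (fun i => hd _ _) _).1 (h3.2 h j))]
    · rw [if_neg h]
      rw [← h3, not_forall] at h
      obtain ⟨j, hj⟩ := h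
      refine prod_eq_zero (mem_univ j) ?_
      unfold ind
      rw [if_neg (fun h' => hj ((win (b j.1) (hb j.1) (w j.1) (u j.1 j.2) _ (fun i => hd _ _) _).2 h'))]
  have h3 := fun ω => h2 (zz ω)
  have h4 := fun z : (g : G) → Fin N → Fin (b g) => h2 (fun g => pt (z g))
  simp only [h3, h4] at h1
  have hTN : ∀ g, TU (u g) (v g) ⊆ range N := by
    intro g i hi
    rw [mem_TU] at hi
    obtain ⟨j, hj⟩ := hi
    rw [mem_range]
    have := hv g j
    omega
  have h5 : E (unF b N) (fun z => if ∀ g, ∀ i ∈ TU (u g) (v g), dg (b g) (pt (z g)) i = d g i then (1 : ℝ) else 0) =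
      ∏ g, 1 / (b g : ℝ) ^ (TU (u g) (v g)).card := by
    have h6 : ∀ z : (g : G) → Fin N → Fin (b g), (if ∀ g, ∀ i ∈ TU (u g) (v g), dg (b g) (pt (z g)) i = d g i then (1 : ℝ) else 0) =
        ∏ g, (fun (g : G) (x : Fin N → Fin (b g)) => if ∀ i : Fin N, (i : ℕ) ∈ TU (u g) (v g) → (x i : ℕ) = d g i then (1 : ℝ) else 0) g (z g) := by
      intro z
      have h7 : ∀ g, (∀ i ∈ TU (u g) (v g), dg (b g) (pt (z g)) i = d g i) ↔
          ∀ i : Fin N, (i : ℕ) ∈ TU (u g) (v g) → (z g i : ℕ) = d g i := by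
        intro g
        constructor
        · intro h i hi
          have := h i hi
          rw [dg_pt (hb g)] at this
          exact_mod_cast this
        · intro h i hi
          have hi' := hTN g hi
          rw [mem_range] at hi'
          have := h ⟨i, hi'⟩ hi
          rw [dg_pt (hb g) (z g) ⟨i, hi'⟩, this]
      by_cases h : ∀ g, ∀ i ∈ TU (u g) (v g), dg (b g) (pt (z g)) i = d g i
      · rw [if_pos h]
        refine (prod_eq_one fun g _ => ?_).symm
        dsimp only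
        rw [if_pos ((h7 g).1 (h g))]
      · rw [if_neg h]
        rw [not_forall] at h
        obtain ⟨g, hg⟩ := h
        refine (prod_eq_zero (mem_univ g) ?_).symm
        dsimp only
        rw [if_neg (fun h' => hg ((h7 g).2 h'))]
    rw [show (fun z : (g : G) → Fin N → Fin (b g) => (if ∀ g, ∀ i ∈ TU (u g) (v g), dg (b g) (pt (z g)) i = d g i then (1 : ℝ) else 0)) = _
      from funext h6, unF_prodR (b := b) (N := N)
        (fun (g : G) (x : Fin N → Fin (b g)) => if ∀ i : Fin N, (i : ℕ) ∈ TU (u g) (v g) → (x i : ℕ) = d g i then (1 : ℝ) else 0)]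
    refine prod_congr rfl fun g _ => ?_
    exact un_places (hb g) _ (hTN g) _ (hd g)
  rw [h5] at h1
  exact h1

/-- the estimate of the error -/
theorem est (k : ℕ) {κ c : ℝ} (hκ : 0 < κ) (hc : 0 < c) : ∃ τ : ℝ, 0 < τ ∧ ∃ N0 : ℕ, ∀ N : ℕ, N0 ≤ N →
    1 ≤ ⌊Real.exp (κ * N)⌋₊ ∧ ∃ t : ℝ, 0 < t ∧ t ≤ 1 ∧ 2 ≤ t * ⌊Real.exp (κ * N)⌋₊ ∧
      2 * Real.exp (-(c * N)) * (4 / t) ^ k + 5 ^ k * k * (4 / (t * ⌊Real.exp (κ * N)⌋₊) +
        2 * (2 * t + (6 / t * Real.exp (-(c * N)) + 4 / (t * ⌊Real.exp (κ * N)⌋₊)))) ≤ Real.exp (-(τ * N)) := by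
  set τ : ℝ := min κ c / (2 * (k + 1)) with hτ
  have hmin : 0 < min κ c := lt_min hκ hc
  have hτ0 : 0 < τ := by positivity
  have hk1 : (1 : ℝ) ≤ k + 1 := by
    have : (0 : ℝ) ≤ k := Nat.cast_nonneg k
    linarith
  have hτ1 : (k + 1) * τ = min κ c / 2 := by rw [hτ]; field_simp
  have hτk : k * τ ≤ c / 2 := by
    have := min_le_right κ c
    nlinarith
  have hτκ : τ ≤ κ / 2 := by
    have := min_le_left κ c
    nlinarith
  have hτc : τ ≤ c / 2 := by
    have := min_le_right κ c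
    nlinarith
  set C : ℝ := 2 * 4 ^ k + 5 ^ k * k * 44 with hC
  have hC0 : 0 ≤ C := by positivity
  have hev : ∀ᶠ N : ℕ in atTop, C ≤ Real.exp (τ / 2 * N) ∧ 4 ≤ Real.exp (κ / 2 * N) := by
    have t1 : ∀ r : ℝ, 0 < r → Tendsto (fun N : ℕ => Real.exp (r * N)) atTop atTop := fun r hr =>
      Real.tendsto_exp_atTop.comp (tendsto_natCast_atTop_atTop.const_mul_atTop hr)
    filter_upwards [(t1 (τ / 2) (by positivity)).eventually_ge_atTop C, (t1 (κ / 2) (by positivity)).eventually_ge_atTop 4] with N h1 h2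
    exact ⟨h1, h2⟩
  obtain ⟨N2, hN2⟩ := eventually_atTop.1 hev
  refine ⟨τ / 2, by positivity, N2, fun N hN => ?_⟩
  obtain ⟨hb1, hb2⟩ := hN2 N hN
  set H : ℕ := ⌊Real.exp (κ * N)⌋₊ with hH
  set t : ℝ := Real.exp (-(τ * N)) with ht
  have ht0 : 0 < t := Real.exp_pos _
  have hNN : (0 : ℝ) ≤ N := Nat.cast_nonneg N
  have ht1 : t ≤ 1 := Real.exp_le_one_iff.2 (by nlinarith)
  have hH1 : Real.exp (κ * N) / 2 ≤ H := by
    have h1 : Real.exp (κ * N) < H + 1 := Nat.lt_floor_add_one _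
    have h2 : 4 ≤ Real.exp (κ * N) := hb2.trans (Real.exp_le_exp.2 (by nlinarith))
    linarith
  have hHpos : 0 < Real.exp (κ * N) := Real.exp_pos _
  have hH2 : 1 ≤ H := by
    have h2 : 4 ≤ Real.exp (κ * N) := hb2.trans (Real.exp_le_exp.2 (by nlinarith))
    have : (1 : ℝ) ≤ H := by linarith
    exact_mod_cast this
  have htH' : Real.exp (κ / 2 * N) / 2 ≤ t * H := by
    have h1 : t * (Real.exp (κ * N) / 2) ≤ t * H := mul_le_mul_of_nonneg_left hH1 ht0.le
    refine le_trans ?_ h1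
    have h2 : t * (Real.exp (κ * N) / 2) = Real.exp (κ * N - τ * N) / 2 := by
      rw [ht, mul_div_assoc', ← Real.exp_add]; congr 2; ring
    rw [h2]
    have : Real.exp (κ / 2 * N) ≤ Real.exp (κ * N - τ * N) := Real.exp_le_exp.2 (by nlinarith)
    linarith
  have htH : 2 ≤ t * H := by linarith
  have hδ0 : 0 ≤ Real.exp (-(c * N)) := (Real.exp_pos _).le
  refine ⟨hH2, t, ht0, ht1, htH, ?_⟩
  have ha : 2 * Real.exp (-(c * N)) * (4 / t) ^ k ≤ 2 * 4 ^ k * t := by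
    have h6 : (4 / t) ^ k = 4 ^ k * Real.exp (k * (τ * N)) := by
      rw [div_pow, ht, ← Real.exp_nat_mul, div_eq_mul_inv, ← Real.exp_neg]
      congr 2
      ring
    rw [h6]
    have h7 : Real.exp (-(c * N)) * Real.exp (k * (τ * N)) ≤ t := by
      rw [ht, ← Real.exp_add]
      apply Real.exp_le_exp.2
      nlinarith
    calc 2 * Real.exp (-(c * N)) * (4 ^ k * Real.exp (k * (τ * N))) = 2 * 4 ^ k * (Real.exp (-(c * N)) * Real.exp (k * (τ * N))) := by ring
      _ ≤ 2 * 4 ^ k * t := by gcongr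
  have hbb : 4 / (t * H) ≤ 8 * t := by
    rw [div_le_iff₀ (by positivity)]
    have h6 : Real.exp (κ / 2 * N) * t ≥ 1 := by
      rw [ht, ← Real.exp_add]
      exact Real.one_le_exp (by nlinarith)
    nlinarith
  have hcc : 6 / t * Real.exp (-(c * N)) ≤ 6 * t := by
    rw [div_mul_eq_mul_div, div_le_iff₀ ht0]
    have h6 : Real.exp (-(c * N)) ≤ t * t := by
      rw [ht, ← Real.exp_add]
      apply Real.exp_le_exp.2
      nlinarith
    nlinarith
  have hdd : 5 ^ k * (k : ℝ) * (4 / (t * H) + 2 * (2 * t + (6 / t * Real.exp (-(c * N)) + 4 / (t * H)))) ≤ 5 ^ k * k * (44 * t) := by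
    refine mul_le_mul_of_nonneg_left ?_ (by positivity)
    linarith
  have hee : 2 * Real.exp (-(c * N)) * (4 / t) ^ k + 5 ^ k * (k : ℝ) * (4 / (t * H) + 2 * (2 * t + (6 / t * Real.exp (-(c * N)) + 4 / (t * H)))) ≤
      C * t := by
    rw [hC]
    nlinarith
  refine hee.trans ?_
  have h8 : Real.exp (τ / 2 * N) * t = Real.exp (-(τ / 2 * N)) := by
    rw [ht, ← Real.exp_add]; congr 1; ring
  rw [← h8]
  gcongr

end Pool.Agent.V5helper15.MB
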