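import Pool.Agent.V5helper15.MB.Uni
import Pool.Agent.V5helper15.MB.RefV

/-!
# Digits of random multiples of several algebraic numbers in several bases
-/

set_option autoImplicit false

namespace Pool.Agent.V5helper15.MB

open Finset Filter Topology
open Pool.Agent.H469R2.NK (e norm_e e_add e_zero conj_e)
open Pool.Agent.R485.Mult (e_sum)
open Pool.Agent.V5helper15.RM

variable {ι : Type} [Fintype ι] [DecidableEq ι] {L : Type} [Fintype L] [DecidableEq L]

/-- the random vector of the orbits has small Fourier coefficients -/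
theorem eqV_of_spread (B : ι → ℕ) (hB : ∀ i, 2 ≤ B i) (hind : ∀ i i', i ≠ i' → ∀ k l : ℕ, B i ^ k = B i' ^ l → k = 0)
    (x : L → ℝ) (hx : ∀ l, IsAlgebraic ℚ (x l)) (hlin : ∀ (n : L → ℤ) (m : ℤ), ∑ l, (n l : ℝ) * x l = m → n = 0)
    (k : ℕ) (ε : ℝ) (hε : 0 < ε) :
    ∃ κ : ℝ, 0 < κ ∧ ∃ N0 : ℕ, ∀ N : ℕ, N0 ≤ N → ∀ {Ω : Type} [Fintype Ω] (p : Ω → ℝ) (a : Ω → ℤ) (y : L → ℝ) (δ : ℝ), Prob p →
      Spread p a (Real.exp (κ * N)) (Real.exp (-(ε * N))) δ →
      ∀ (i0 : L → ι) (u : L × ι → Fin k → ℕ), (∀ g m, u g m ≤ N) → (∀ l i, i ≠ i0 l → ∀ m, ε * N ≤ u (l, i) m) →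
      EqV (Rel (fun g : L × ι => B g.2) u) ⌊Real.exp (κ * N)⌋₊ δ p
        (fun ω (j : (L × ι) × Fin k) => (B j.1.2 : ℝ) ^ u j.1 j.2 * (y j.1.1 + a ω * x j.1.1)) := by
  classical
  obtain ⟨κ1, hκ1, N1, hvan⟩ := vanish B hB hind (ι × Fin k) ε hε
  obtain ⟨κ2, hκ2, N2, hdio⟩ := dioph_multi B hB x hx hlin ((L × ι) × Fin k) ε hε
  refine ⟨min κ1 (κ2 / 2), lt_min hκ1 (by positivity), max N1 N2, fun N hN Ω _ p a y δ hp hS i0 u hu hu0 => ?_⟩
  have hN1 := (le_max_left _ _).trans hN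
  have hN2 := (le_max_right _ _).trans hN
  set κ := min κ1 (κ2 / 2) with hκ
  have hκκ1 : κ ≤ κ1 := min_le_left _ _
  have hκκ2 : κ ≤ κ2 / 2 := min_le_right _ _
  intro h hh
  have hhR : ∀ j, |(h j : ℝ)| ≤ Real.exp (κ * N) := by
    intro j
    have h5 : ((|h j| : ℤ) : ℝ) ≤ ((⌊Real.exp (κ * N)⌋₊ : ℤ) : ℝ) := by exact_mod_cast hh j
    rw [Int.cast_abs] at h5
    refine h5.trans ?_
    have := Nat.floor_le (Real.exp_pos (κ * N)).le
    exact_mod_cast this
  constructor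
  · intro hR
    have h1 : ∀ ω, ∑ j : (L × ι) × Fin k, (h j : ℝ) * ((B j.1.2 : ℝ) ^ u j.1 j.2 * (y j.1.1 + a ω * x j.1.1)) = 0 := by
      intro ω
      have h2 := sum_freq (fun g : L × ι => B g.2) u h (fun g => y g.1 + a ω * x g.1)
      rw [h2]
      refine sum_eq_zero fun g _ => ?_
      rw [hR g]
      simp
    simp only [h1, e_zero]
    exact Ec_one hp
  · intro hR
    -- one of the numbers has a nonzero frequency
    have hex : ∃ l, ∑ t : (L × ι) × Fin k with t.1.1 = l, h t * (B t.1.2 : ℤ) ^ u t.1 t.2 ≠ 0 := by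
      by_contra hcon
      push Not at hcon
      apply hR
      rintro ⟨l, i⟩
      have h1 := hcon l
      have h2 : ∑ t : (L × ι) × Fin k with t.1.1 = l, h t * (B t.1.2 : ℤ) ^ u t.1 t.2 =
          ∑ s : ι × Fin k, h ((l, s.1), s.2) * (B s.1 : ℤ) ^ u (l, s.1) s.2 := by
        symm
        refine sum_nbij (fun s => ((l, s.1), s.2)) ?_ ?_ ?_ ?_
        · intro s _; simp
        · intro s _ s' _ hss
          simp only [Prod.mk.injEq, true_and] at hss
          exact Prod.ext hss.1 hss.2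
        · rintro ⟨⟨l', i'⟩, m⟩ ht
          simp only [coe_filter, mem_univ, true_and, Set.mem_setOf_eq] at ht
          subst ht
          exact ⟨(i', m), by simp, rfl⟩
        · intro s _; rfl
      rw [h2] at h1
      have h3 := hvan N hN1 (i0 l) (fun s => s.1) (fun s => u (l, s.1) s.2) (fun s => h ((l, s.1), s.2))
        (fun s hs => hu0 l s.1 hs s.2) (fun s => (hhR _).trans (Real.exp_le_exp.2
          (mul_le_mul_of_nonneg_right hκκ1 (Nat.cast_nonneg N)))) h1 i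
      have h4 : ∑ s : ι × Fin k with s.1 = i, h ((l, s.1), s.2) * (B s.1 : ℤ) ^ u (l, s.1) s.2 =
          ∑ m, h ((l, i), m) * (B i : ℤ) ^ u (l, i) m := by
        symm
        refine sum_nbij (fun m => (i, m)) ?_ ?_ ?_ ?_
        · intro m _; simp
        · intro m _ m' _ hmm
          simpa using hmm
        · rintro ⟨i', m⟩ ht
          simp only [coe_filter, mem_univ, true_and, Set.mem_setOf_eq] at ht
          subst ht
          exact ⟨m, by simp, rfl⟩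
        · intro m _; rfl
      rw [h4] at h3
      exact h3
    set θ : ℝ := ∑ t : (L × ι) × Fin k, (h t : ℝ) * (B t.1.2 : ℝ) ^ u t.1 t.2 * x t.1.1 with hθ
    set θy : ℝ := ∑ t : (L × ι) × Fin k, (h t : ℝ) * (B t.1.2 : ℝ) ^ u t.1 t.2 * y t.1.1 with hθy
    have h1 := hS θ (by
      intro q hq1 hq2 P
      have h2 := hdio N hN2 (fun t => t.1.1) (fun t => t.1.2) (fun t => u t.1 t.2) (fun t => (q : ℤ) * h t)
        (fun t => hu _ _) (fun t => by
          push_cast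
          rw [abs_mul, abs_of_nonneg (Nat.cast_nonneg q)]
          calc (q : ℝ) * |(h t : ℝ)| ≤ Real.exp (κ * N) * Real.exp (κ * N) := by
                have := hhR t
                gcongr
            _ = Real.exp ((κ + κ) * N) := by rw [← Real.exp_add]; congr 1; ring
            _ ≤ Real.exp (κ2 * N) := Real.exp_le_exp.2 (mul_le_mul_of_nonneg_right (by linarith) (Nat.cast_nonneg N))) (by
          obtain ⟨l, hl⟩ := hex
          refine ⟨l, ?_⟩
          have h3 : ∑ t : (L × ι) × Fin k with t.1.1 = l, (q : ℤ) * h t * (B t.1.2 : ℤ) ^ u t.1 t.2 =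
              q * ∑ t : (L × ι) × Fin k with t.1.1 = l, h t * (B t.1.2 : ℤ) ^ u t.1 t.2 := by
            rw [mul_sum]; exact sum_congr rfl fun t _ => by ring
          rw [h3]
          exact mul_ne_zero (by omega) hl) P
      have h3 : ∑ t : (L × ι) × Fin k, (((q : ℤ) * h t : ℤ) : ℝ) * (B t.1.2 : ℝ) ^ u t.1 t.2 * x t.1.1 = q * θ := by
        rw [hθ, mul_sum]
        refine sum_congr rfl fun t _ => ?_
        push_cast
        ring
      rw [h3] at h2
      exact h2)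
    have h4 : Ec p (fun ω => e (∑ j : (L × ι) × Fin k, (h j : ℝ) * ((B j.1.2 : ℝ) ^ u j.1 j.2 * (y j.1.1 + a ω * x j.1.1)))) =
        e θy * Ec p (fun ω => e (a ω * θ)) := by
      rw [← Ec_mul]
      congr 1
      funext ω
      rw [← e_add]
      congr 1
      rw [hθ, hθy, mul_sum, ← sum_add_distrib]
      exact sum_congr rfl fun t _ => by ring
    rw [h4, norm_mul, norm_e, one_mul]
    exact h1

theorem exists_bigV {G : Type} [Fintype G] (b : G → ℕ) (hb : ∀ g, 2 ≤ b g) (A : G → ℕ) (M : ℕ) : ∃ N, M ≤ N ∧ ∀ g, A g < b g ^ N := by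
  refine ⟨M + ∑ g, A g, by omega, fun g => ?_⟩
  have h1 : A g ≤ ∑ g, A g := single_le_sum (f := A) (fun _ _ => Nat.zero_le _) (mem_univ g)
  have h2 : M + ∑ g, A g < b g ^ (M + ∑ g, A g) := Nat.lt_pow_self (by have := hb g; omega)
  omega

/-- **Windows**: unions of few intervals of places, several numbers, several bases. -/
theorem windows_appV (B : ι → ℕ) (hB : ∀ i, 2 ≤ B i) (hind : ∀ i i', i ≠ i' → ∀ k l : ℕ, B i ^ k = B i' ^ l → k = 0)
    (x : L → ℝ) (hx : ∀ l, IsAlgebraic ℚ (x l)) (hlin : ∀ (n : L → ℤ) (m : ℤ), ∑ l, (n l : ℝ) * x l = m → n = 0)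
    (k : ℕ) (ε : ℝ) (hε : 0 < ε) :
    ∃ κ : ℝ, 0 < κ ∧ ∀ c : ℝ, 0 < c → ∃ τ : ℝ, 0 < τ ∧ ∃ N0 : ℕ, ∀ N : ℕ, N0 ≤ N →
      ∀ {Ω : Type} [Fintype Ω] (p : Ω → ℝ) (a : Ω → ℤ) (y : L → ℝ), Prob p →
      Spread p a (Real.exp (κ * N)) (Real.exp (-(ε * N))) (Real.exp (-(c * N))) →
      ∀ (i0 : L → ι) (u v : L × ι → Fin k → ℕ), (∀ g m, u g m ≤ N) → (∀ g m, v g m ≤ N) →
      (∀ l i, i ≠ i0 l → ∀ m, ε * N ≤ u (l, i) m) →
      (∀ g, ((TU (u g) (v g)).card : ℝ) ≤ τ * N) → ∀ d : L × ι → ℕ → ℕ, (∀ g i, d g i < B g.2) →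
      |E p (fun ω => if ∀ g : L × ι, ∀ i ∈ TU (u g) (v g), dg (B g.2) (y g.1 + a ω * x g.1) i = d g i then 1 else 0) -
        ∏ g : L × ι, 1 / (B g.2 : ℝ) ^ (TU (u g) (v g)).card| ≤
        Real.exp (-(τ * N)) * ∏ g : L × ι, 1 / (B g.2 : ℝ) ^ (TU (u g) (v g)).card := by
  classical
  obtain ⟨κ, hκ, N1, h⟩ := eqV_of_spread B hB hind x hx hlin k ε hε
  refine ⟨κ, hκ, fun c hc => ?_⟩
  obtain ⟨τ, hτ, N2, hest⟩ := est (Fintype.card ((L × ι) × Fin k)) hκ hc
  obtain ⟨Z, hZ⟩ : ∃ Z : ℝ, Z = ∑ g : L × ι, Real.log (B g.2) := ⟨_, rfl⟩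
  have hZ0 : 0 ≤ Z := by rw [hZ]; exact sum_nonneg fun g _ => Real.log_natCast_nonneg _
  refine ⟨τ / (1 + Z), by positivity, max N1 N2, fun N hN Ω _ p a y hp hS i0 u v hu hv hu0 hcard d hd => ?_⟩
  obtain ⟨hH, t, ht0, ht1, htH, hbd⟩ := hest N ((le_max_right _ _).trans hN)
  have hE := h N ((le_max_left _ _).trans hN) p a y _ hp hS i0 u hu hu0
  obtain ⟨N', hNN', hN'⟩ := exists_bigV (fun g : L × ι => B g.2) (fun g => hB g.2)
    (fun g => k * ⌊Real.exp (κ * N)⌋₊ * B g.2 ^ N) N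
  have h1 := windowsV (N := N') (M := N) (zz := fun ω (g : L × ι) => y g.1 + a ω * x g.1)
    (b := fun g : L × ι => B g.2) (fun g => by have := hB g.2; show 0 < B g.2; omega) u v hE hp (Real.exp_pos _).le hH ht0 ht1 htH
    hu hv d hd hN' hNN'
  refine (h1.trans hbd).trans ?_
  have hpos : ∀ g : L × ι, (0 : ℝ) < B g.2 := fun g => by have := hB g.2; exact_mod_cast (by omega : 0 < B g.2)
  have h2 : ∏ g : L × ι, 1 / (B g.2 : ℝ) ^ (TU (u g) (v g)).card = Real.exp (-∑ g : L × ι, (TU (u g) (v g)).card * Real.log (B g.2)) := by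
    rw [← sum_neg_distrib, Real.exp_sum]
    refine prod_congr rfl fun g _ => ?_
    rw [Real.exp_neg, Real.exp_nat_mul, Real.exp_log (hpos g), one_div]
  rw [h2, ← Real.exp_add]
  apply Real.exp_le_exp.2
  have h3 : ∑ g : L × ι, (TU (u g) (v g)).card * Real.log (B g.2) ≤ τ / (1 + Z) * N * Z := by
    rw [hZ, mul_sum]
    refine sum_le_sum fun g _ => ?_
    refine mul_le_mul_of_nonneg_right ?_ (Real.log_natCast_nonneg _)
    rw [← hZ]
    exact hcard g
  have h4 : τ / (1 + Z) * N * Z + τ / (1 + Z) * N = τ * N := by field_simp; ring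
  linarith

end Pool.Agent.V5helper15.MB
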