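import Pool.Agent.V5helper15.RM.Comp

/-!
# Comparison of the distributions of two random vectors modulo one
-/

set_option autoImplicit false

namespace Pool.Agent.V5helper15.MB

open Finset Filter Topology
open Pool.Agent.H469R2.NK (e norm_e e_add e_zero conj_e)
open Pool.Agent.R485.Mult (e_sum)
open Pool.Agent.V5helper15.RM

/-- The Fourier coefficients of the random vector `w` of height at most `H` are one at the frequencies in `R` and small at
the other ones. -/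
def EqV {Ω J : Type*} [Fintype Ω] [Fintype J] (R : (J → ℤ) → Prop) (H : ℕ) (δ : ℝ) (p : Ω → ℝ) (w : Ω → J → ℝ) : Prop :=
  ∀ h : J → ℤ, (∀ j, |h j| ≤ H) →
    (R h → Ec p (fun ω => e (∑ j, (h j : ℝ) * w ω j)) = 1) ∧
      (¬ R h → ‖Ec p (fun ω => e (∑ j, (h j : ℝ) * w ω j))‖ ≤ δ)

variable {Ω Ω' J : Type*} [Fintype Ω] [Fintype Ω'] [Fintype J] [DecidableEq J] {p : Ω → ℝ} {w : Ω → J → ℝ} {p' : Ω' → ℝ}
  {w' : Ω' → J → ℝ} {R : (J → ℤ) → Prop} {H : ℕ} {δ : ℝ}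

omit [Fintype Ω'] in
theorem expandV (p : Ω → ℝ) (w : Ω → J → ℝ) (H : ℕ) (c : J → ℤ → ℂ) :
    Ec p (fun ω => ∏ j, ∑ h ∈ Icc (-(H : ℤ)) H, c j h * e (h * w ω j)) =
      ∑ h ∈ Fintype.piFinset (fun _ : J => Icc (-(H : ℤ)) H), (∏ j, c j (h j)) *
        Ec p (fun ω => e (∑ j, (h j : ℝ) * w ω j)) := by
  classical
  have h1 : ∀ ω, ∏ j, ∑ h ∈ Icc (-(H : ℤ)) H, c j h * e (h * w ω j) =
      ∑ h ∈ Fintype.piFinset (fun _ : J => Icc (-(H : ℤ)) H), (∏ j, c j (h j)) *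
        e (∑ j, (h j : ℝ) * w ω j) := by
    intro ω
    rw [prod_univ_sum]
    refine sum_congr rfl fun h _ => ?_
    rw [prod_mul_distrib, ← e_sum]
  simp only [h1]
  rw [Ec_sum]
  refine sum_congr rfl fun h _ => ?_
  rw [Ec_mul]

/-- products of trigonometric polynomials -/
theorem EqV.poly (hE : EqV R H δ p w) (hE' : EqV R H δ p' w') (hδ : 0 ≤ δ) (c : J → ℤ → ℂ) :
    ‖Ec p (fun ω => ∏ j, ∑ h ∈ Icc (-(H : ℤ)) H, c j h * e (h * w ω j)) -
      Ec p' (fun ω => ∏ j, ∑ h ∈ Icc (-(H : ℤ)) H, c j h * e (h * w' ω j))‖ ≤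
      2 * δ * ∏ j, ∑ h ∈ Icc (-(H : ℤ)) H, ‖c j h‖ := by
  classical
  rw [expandV, expandV, ← sum_sub_distrib, prod_univ_sum, mul_sum]
  refine (norm_sum_le _ _).trans (sum_le_sum fun h hh => ?_)
  rw [← mul_sub, norm_mul, norm_prod]
  have hh' : ∀ j, |h j| ≤ H := by
    intro j
    have := (Fintype.mem_piFinset.1 hh) j
    rw [mem_Icc] at this
    exact abs_le.2 this
  have h2 : ‖Ec p (fun ω => e (∑ j, (h j : ℝ) * w ω j)) - Ec p' (fun ω => e (∑ j, (h j : ℝ) * w' ω j))‖ ≤ 2 * δ := by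
    by_cases h0 : R h
    · rw [(hE h hh').1 h0, (hE' h hh').1 h0, sub_self, norm_zero]
      linarith
    · refine (norm_sub_le _ _).trans ?_
      have := (hE h hh').2 h0
      have := (hE' h hh').2 h0
      linarith
  have h3 : 0 ≤ ∏ j, ‖c j (h j)‖ := prod_nonneg fun j _ => norm_nonneg _
  calc (∏ j, ‖c j (h j)‖) * _ ≤ (∏ j, ‖c j (h j)‖) * (2 * δ) := mul_le_mul_of_nonneg_left h2 h3
    _ = 2 * δ * ∏ j, ‖c j (h j)‖ := by ring

omit [Fintype Ω'] in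
/-- one function: the mean value -/
theorem EqV.mean (hE : EqV R H δ p w) (hR : ∀ (j : J) (h : ℤ), h ≠ 0 → ¬ R (Pi.single j h)) (hp : Prob p) (hδ : 0 ≤ δ)
    (j : J) {L ρ μ : ℝ} {φ : ℝ → ℝ} (hφ : TA H L ρ μ φ) :
    |E p (fun ω => φ (w ω j)) - μ| ≤ L * δ + ρ := by
  classical
  obtain ⟨c, h0, h1, h2⟩ := hφ
  have e1 : ‖Ec p (fun ω => ∑ h ∈ Icc (-(H : ℤ)) H, c h * e (h * w ω j)) - μ‖ ≤ L * δ := by
    rw [Ec_sum]
    have e2 : ∀ h : ℤ, Ec p (fun ω => c h * e (h * w ω j)) = c h * Ec p (fun ω => e (h * w ω j)) := fun h => Ec_mul _ _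
    simp only [e2]
    have hmem : (0 : ℤ) ∈ Icc (-(H : ℤ)) H := by simp
    rw [← add_sum_erase _ _ hmem]
    have e3 : c 0 * Ec p (fun ω => e (((0 : ℤ) : ℝ) * w ω j)) = μ := by
      simp only [Int.cast_zero, zero_mul, e_zero]
      rw [Ec_one hp, mul_one, h0]
    rw [e3, add_sub_cancel_left]
    refine (norm_sum_le _ _).trans ?_
    have e4 : ∀ h ∈ (Icc (-(H : ℤ)) H).erase 0, ‖c h * Ec p (fun ω => e (h * w ω j))‖ ≤ ‖c h‖ * δ := by
      intro h hh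
      rw [mem_erase, mem_Icc] at hh
      rw [norm_mul]
      refine mul_le_mul_of_nonneg_left ?_ (norm_nonneg _)
      have := (hE (Pi.single j h) (fun i => by
        rcases eq_or_ne i j with hi | hi
        · rw [hi, Pi.single_eq_same]; exact abs_le.2 hh.2
        · rw [Pi.single_eq_of_ne hi, abs_zero]; positivity)).2 (hR j h hh.1)
      have e5 : ∀ ω, ∑ i : J, (((Pi.single j h : J → ℤ) i : ℤ) : ℝ) * w ω i = (h : ℝ) * w ω j := by
        intro ω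
        rw [sum_eq_single j (fun i _ hi => by rw [Pi.single_eq_of_ne hi]; simp) (by simp), Pi.single_eq_same]
      simp only [e5] at this
      exact this
    refine (sum_le_sum e4).trans ?_
    rw [← sum_mul]
    refine mul_le_mul_of_nonneg_right ?_ hδ
    exact (sum_le_sum_of_subset_of_nonneg (erase_subset _ _) fun _ _ _ => norm_nonneg _).trans h1
  have e6 : ‖Ec p (fun ω => ((φ (w ω j) : ℝ) : ℂ)) -
      Ec p (fun ω => ∑ h ∈ Icc (-(H : ℤ)) H, c h * e (h * w ω j))‖ ≤ ρ := by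
    rw [← Ec_sub]
    refine (hp.norm _).trans ?_
    refine (hp.mono fun ω => h2 _).trans ?_
    rw [hp.const]
  rw [Ec_ofReal] at e6
  have e7 : ‖((E p (fun ω => φ (w ω j)) : ℝ) : ℂ) - ((μ : ℝ) : ℂ)‖ ≤ ρ + L * δ :=
    (norm_sub_le_norm_sub_add_norm_sub _ _ _).trans (add_le_add e6 e1)
  rw [← Complex.ofReal_sub, Complex.norm_real, Real.norm_eq_abs] at e7
  linarith

omit [DecidableEq J] in
theorem prod_side {Ω : Type*} [Fintype Ω] {q : Ω → ℝ} (hq : Prob q) (w : Ω → J → ℝ) {H : ℕ} {B ρ : ℝ} (hB : 1 ≤ B) (hρ : 0 ≤ ρ)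
    {φ : J → ℝ → ℝ} {c : J → ℤ → ℂ} (hc2 : ∀ j t, ‖(φ j t : ℂ) - ∑ h ∈ Icc (-(H : ℤ)) H, c j h * e (h * t)‖ ≤ ρ)
    (hφB : ∀ j t, |φ j t| ≤ B) :
    ‖((E q (fun ω => ∏ j, φ j (w ω j)) : ℝ) : ℂ) - Ec q (fun ω => ∏ j, ∑ h ∈ Icc (-(H : ℤ)) H, c j h * e (h * w ω j))‖ ≤
      (B + ρ) ^ Fintype.card J * (Fintype.card J * ρ) := by
  classical
  have key : ∀ t : J → ℝ, ‖((∏ j, φ j (t j) : ℝ) : ℂ) - ∏ j, ∑ h ∈ Icc (-(H : ℤ)) H, c j h * e (h * t j)‖ ≤
      (B + ρ) ^ Fintype.card J * (Fintype.card J * ρ) := by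
    intro t
    rw [Complex.ofReal_prod]
    refine (prod_diffM univ (fun j => ((φ j (t j) : ℝ) : ℂ)) (fun j => ∑ h ∈ Icc (-(H : ℤ)) H, c j h * e (h * t j)) (B + ρ)
      (by linarith) (fun j _ => ?_) (fun j _ => ?_)).trans ?_
    · rw [Complex.norm_real, Real.norm_eq_abs]
      linarith [hφB j (t j)]
    · have h1 := hc2 j (t j)
      have h2 : ‖((φ j (t j) : ℝ) : ℂ)‖ ≤ B := by rw [Complex.norm_real, Real.norm_eq_abs]; exact hφB j (t j)
      have h3 := norm_sub_norm_le (∑ h ∈ Icc (-(H : ℤ)) H, c j h * e (h * t j)) ((φ j (t j) : ℝ) : ℂ)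
      rw [norm_sub_rev] at h3
      linarith
    · rw [card_univ]
      refine mul_le_mul_of_nonneg_left ?_ (by positivity)
      refine (sum_le_sum fun j _ => hc2 j (t j)).trans (le_of_eq ?_)
      simp
  rw [← Ec_ofReal, ← Ec_sub]
  refine (hq.norm _).trans ((hq.mono fun ω => key (fun j => w ω j)).trans ?_)
  rw [hq.const]

/-- products of functions which are approximated by trigonometric polynomials -/
theorem EqV.prod (hE : EqV R H δ p w) (hE' : EqV R H δ p' w') (hp : Prob p) (hp' : Prob p') (hδ : 0 ≤ δ)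
    {L ρ B : ℝ} (hB : 1 ≤ B) (hρ : 0 ≤ ρ) {μ : J → ℝ} {φ : J → ℝ → ℝ}
    (hφ : ∀ j, TA H L ρ (μ j) (φ j)) (hφB : ∀ j t, |φ j t| ≤ B) :
    |E p (fun ω => ∏ j, φ j (w ω j)) - E p' (fun ω => ∏ j, φ j (w' ω j))| ≤
      2 * δ * L ^ Fintype.card J + 2 * ((B + ρ) ^ Fintype.card J * (Fintype.card J * ρ)) := by
  classical
  choose c hc0 hc1 hc2 using hφ
  have hL : ∏ j : J, ∑ h ∈ Icc (-(H : ℤ)) H, ‖c j h‖ ≤ L ^ Fintype.card J := by
    refine (prod_le_prod (fun j _ => by positivity) fun j _ => hc1 j).trans (le_of_eq ?_)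
    rw [prod_const, card_univ]
  have s1 := prod_side hp w hB hρ hc2 hφB
  have s2 := prod_side hp' w' hB hρ hc2 hφB
  rw [norm_sub_rev] at s2
  have s3 := (hE.poly hE' hδ c).trans (mul_le_mul_of_nonneg_left hL (by positivity))
  rw [← Real.norm_eq_abs, ← Complex.norm_real, Complex.ofReal_sub]
  refine (norm_sub_le_norm_sub_add_norm_sub _ (Ec p (fun ω => ∏ j, ∑ h ∈ Icc (-(H : ℤ)) H, c j h * e (h * w ω j))) _).trans ?_
  have s4 := (norm_sub_le_norm_sub_add_norm_sub (Ec p (fun ω => ∏ j, ∑ h ∈ Icc (-(H : ℤ)) H, c j h * e (h * w ω j)))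
    (Ec p' (fun ω => ∏ j, ∑ h ∈ Icc (-(H : ℤ)) H, c j h * e (h * w' ω j)))
    ((E p' (fun ω => ∏ j, φ j (w' ω j)) : ℝ) : ℂ)).trans (add_le_add s3 s2)
  linarith

omit [Fintype Ω'] in
theorem EqV.side (hE : EqV R H δ p w) (hR : ∀ (j : J) (h : ℤ), h ≠ 0 → ¬ R (Pi.single j h)) (hp : Prob p) (hδ : 0 ≤ δ)
    (hH : 1 ≤ H) {d : ℝ} (hd0 : 0 < d) (hd1 : d ≤ 1)
    (α β : J → ℝ) (ha : ∀ j, 0 ≤ α j) (hab : ∀ j, α j < β j) (hβ : ∀ j, β j ≤ 1) :
    |E p (fun ω => ∏ j, ind (α j) (β j) (w ω j)) - E p (fun ω => ∏ j, Up d (α j) (β j) (w ω j))| ≤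
      5 ^ Fintype.card J * Fintype.card J * (2 * d + (6 / d * δ + 4 / (d * H))) := by
  classical
  have hHR : (0 : ℝ) < H := by exact_mod_cast hH
  have pt : ∀ t : J → ℝ, |∏ j, ind (α j) (β j) (t j) - ∏ j, Up d (α j) (β j) (t j)| ≤
      4 ^ Fintype.card J * ∑ j, (Up d (α j) (β j) (t j) - Lo d (α j) (β j) (t j)) := by
    intro t
    have h3 := prod_diffM univ (fun j => ((ind (α j) (β j) (t j) : ℝ) : ℂ)) (fun j => ((Up d (α j) (β j) (t j) : ℝ) : ℂ)) 4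
      (by norm_num) (fun j _ => by
        rw [Complex.norm_real, Real.norm_eq_abs, abs_of_nonneg (ind_nonneg _ _ _)]
        linarith [ind_le (α j) (β j) (t j)]) (fun j _ => by
        rw [Complex.norm_real, Real.norm_eq_abs]
        exact Up_abs hd0 hd1 (ha j) (hab j) (hβ j) _)
    rw [← Complex.ofReal_prod, ← Complex.ofReal_prod, ← Complex.ofReal_sub, Complex.norm_real, Real.norm_eq_abs,
      card_univ] at h3
    refine h3.trans ?_
    refine mul_le_mul_of_nonneg_left (sum_le_sum fun j _ => ?_) (by positivity)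
    rw [← Complex.ofReal_sub, Complex.norm_real, Real.norm_eq_abs, abs_sub_comm,
      abs_of_nonneg (sub_nonneg.2 (ind_le_Up hd0 hd1 (ha j) (hab j) (hβ j) _))]
    have := Lo_le_ind hd0 hd1 (ha j) (hab j) (hβ j) (t j)
    linarith
  rw [← E_sub]
  refine (hp.abs _).trans ((hp.mono fun ω => pt (fun j => w ω j)).trans ?_)
  rw [E_mul, E_sum]
  have h4 : ∀ j ∈ (univ : Finset J), E p (fun ω => Up d (α j) (β j) (w ω j) - Lo d (α j) (β j) (w ω j)) ≤
      2 * d + (6 / d * δ + 4 / (d * H)) := by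
    intro j _
    have := hE.mean hR hp hδ j (ta_Dif hH hd0 hd1 (α := α j) (β := β j))
    linarith [(abs_le.1 this).2]
  have h5 : (4 : ℝ) ^ Fintype.card J ≤ 5 ^ Fintype.card J := pow_le_pow_left₀ (by norm_num) (by norm_num) _
  have h6 : 0 ≤ 2 * d + (6 / d * δ + 4 / (d * H)) := by positivity
  calc 4 ^ Fintype.card J * ∑ j, E p (fun ω => Up d (α j) (β j) (w ω j) - Lo d (α j) (β j) (w ω j))
      ≤ 4 ^ Fintype.card J * ∑ _j : J, (2 * d + (6 / d * δ + 4 / (d * H))) := by gcongr with j hj; exact h4 j hj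
    _ = 4 ^ Fintype.card J * (Fintype.card J * (2 * d + (6 / d * δ + 4 / (d * H)))) := by rw [sum_const, card_univ, nsmul_eq_mul]
    _ ≤ 5 ^ Fintype.card J * (Fintype.card J * (2 * d + (6 / d * δ + 4 / (d * H)))) := by gcongr
    _ = _ := by ring

/-- **Comparison of the joint distributions modulo one.** -/
theorem EqV.main (hE : EqV R H δ p w) (hE' : EqV R H δ p' w') (hR : ∀ (j : J) (h : ℤ), h ≠ 0 → ¬ R (Pi.single j h))
    (hp : Prob p) (hp' : Prob p')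
    (hδ : 0 ≤ δ) (hH : 1 ≤ H) {d : ℝ} (hd0 : 0 < d) (hd1 : d ≤ 1) (hdH : 2 ≤ d * H)
    (α β : J → ℝ) (ha : ∀ j, 0 ≤ α j) (hab : ∀ j, α j < β j) (hβ : ∀ j, β j ≤ 1) :
    |E p (fun ω => ∏ j, ind (α j) (β j) (w ω j)) - E p' (fun ω => ∏ j, ind (α j) (β j) (w' ω j))| ≤
      2 * δ * (4 / d) ^ Fintype.card J +
        5 ^ Fintype.card J * Fintype.card J * (4 / (d * H) + 2 * (2 * d + (6 / d * δ + 4 / (d * H)))) := by
  classical
  have hHR : (0 : ℝ) < H := by exact_mod_cast hH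
  have hρ1 : 2 / (d * H) ≤ 1 := by rw [div_le_one (by positivity)]; exact hdH
  have h1 := hE.prod hE' hp hp' hδ (L := 4 / d) (ρ := 2 / (d * H)) (B := 4) (by norm_num) (by positivity)
    (μ := fun j => β j - α j + d) (φ := fun j => Up d (α j) (β j)) (fun j => ta_Up hH hd0 hd1 (ha j) (hab j) (hβ j))
    (fun j t => Up_abs hd0 hd1 (ha j) (hab j) (hβ j) t)
  have h2 : 2 * ((4 + 2 / (d * H)) ^ Fintype.card J * (Fintype.card J * (2 / (d * H)))) ≤
      5 ^ Fintype.card J * Fintype.card J * (4 / (d * H)) := by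
    have h3 : (4 + 2 / (d * H)) ^ Fintype.card J ≤ 5 ^ Fintype.card J := pow_le_pow_left₀ (by positivity) (by linarith) _
    calc 2 * ((4 + 2 / (d * H)) ^ Fintype.card J * (Fintype.card J * (2 / (d * H))))
        ≤ 2 * (5 ^ Fintype.card J * (Fintype.card J * (2 / (d * H)))) := by gcongr
      _ = _ := by ring
  have s1 := hE.side hR hp hδ hH hd0 hd1 α β ha hab hβ
  have s2 := hE'.side hR hp' hδ hH hd0 hd1 α β ha hab hβ
  have h7 := h1.trans (add_le_add le_rfl h2)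
  rw [abs_le] at s1 s2 h7 ⊢
  have e8 : 5 ^ Fintype.card J * (Fintype.card J : ℝ) * (4 / (d * H) + 2 * (2 * d + (6 / d * δ + 4 / (d * H)))) =
      5 ^ Fintype.card J * Fintype.card J * (4 / (d * H)) +
        2 * (5 ^ Fintype.card J * Fintype.card J * (2 * d + (6 / d * δ + 4 / (d * H)))) := by ring
  rw [e8]
  constructor <;> linarith [s1.1, s1.2, s2.1, s2.2, h7.1, h7.2]

end Pool.Agent.V5helper15.MB
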