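import Pool.Agent.V5helper15.MB.RefV
import Pool.Agent.V5helper15.RM.Wrd

/-!
# Large deviations for families of random strings
-/

set_option autoImplicit false

namespace Pool.Agent.V5helper15.MB

open Finset
open Pool.Agent.V5helper15.RM

variable {G : Type} [Fintype G] [DecidableEq G] {b : G → ℕ}

/-- the family of the sequences of the letters, extended by zero -/
def exF {n : ℕ} (s : (g : G) → Fin n → Fin (b g)) : G → ℕ → ℕ := fun g => ex (s g)

/-- the shift -/
def sh (m : ℕ) (w : G → ℕ → ℕ) : G → ℕ → ℕ := fun g i => w g (m + i)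

/-- `F` depends only on the first `m` letters of the sequences -/
def Dep (m : ℕ) (F : (G → ℕ → ℕ) → ℝ) : Prop := ∀ w w' : G → ℕ → ℕ, (∀ g, ∀ i < m, w g i = w' g i) → F w = F w'

omit [Fintype G] [DecidableEq G] in
theorem sh_sh (m n : ℕ) (w : G → ℕ → ℕ) : sh m (sh n w) = sh (n + m) w := by
  funext g i
  unfold sh
  rw [add_assoc]

/-- splitting the strings -/
def splitE (b : G → ℕ) (m n : ℕ) : ((g : G) → Fin (m + n) → Fin (b g)) ≃
    (((g : G) → Fin m → Fin (b g)) × ((g : G) → Fin n → Fin (b g))) where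
  toFun s := (fun g i => s g (Fin.castAdd n i), fun g i => s g (Fin.natAdd m i))
  invFun p := fun g => Fin.append (p.1 g) (p.2 g)
  left_inv s := by
    funext g
    exact Fin.append_castAdd_natAdd
  right_inv p := by
    refine Prod.ext ?_ ?_
    · funext g i
      simp
    · funext g i
      simp

theorem unF_split (m n : ℕ) (F H : (G → ℕ → ℕ) → ℝ) (hF : Dep m F) :
    E (unF b (m + n)) (fun s => F (exF s) * H (sh m (exF s))) =
      E (unF b m) (fun s => F (exF s)) * E (unF b n) (fun s => H (exF s)) := by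
  unfold E
  rw [sum_mul_sum, ← Fintype.sum_prod_type', ← Equiv.sum_comp (splitE b m n)]
  refine sum_congr rfl fun s _ => ?_
  have h1 : F (exF (splitE b m n s).1) = F (exF s) := by
    apply hF
    intro g i hi
    unfold exF
    rw [ex_of_lt _ hi, ex_of_lt _ (by omega : i < m + n)]
    rfl
  have h2 : exF (splitE b m n s).2 = sh m (exF s) := by
    funext g i
    show ex ((splitE b m n s).2 g) i = ex (s g) (m + i)
    by_cases hi : i < n
    · rw [ex_of_lt _ hi, ex_of_lt _ (by omega : m + i < m + n)]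
      rfl
    · unfold ex
      rw [dif_neg hi, dif_neg (by omega)]
  dsimp only
  rw [h1, h2]
  have h3 : unF b (m + n) s = unF b m (splitE b m n s).1 * unF b n (splitE b m n s).2 := by
    unfold unF un
    rw [← prod_mul_distrib]
    refine prod_congr rfl fun g _ => ?_
    rw [pow_add, one_div_mul_one_div]
  rw [h3]
  ring

theorem unF_ext (hb : ∀ g, 0 < b g) {m n : ℕ} (hmn : m ≤ n) (F : (G → ℕ → ℕ) → ℝ) (hF : Dep m F) :
    E (unF b n) (fun s => F (exF s)) = E (unF b m) (fun s => F (exF s)) := by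
  obtain ⟨k, rfl⟩ := Nat.exists_eq_add_of_le hmn
  have h := unF_split (b := b) m k F (fun _ => 1) hF
  simp only [mul_one] at h
  rw [h, (unF_prob hb k).const, mul_one]

theorem unF_blocks (hb : ∀ g, 0 < b g) (K r : ℕ) (φ : (G → ℕ → ℕ) → ℝ) (hφ : Dep K φ) (J : ℕ) :
    E (unF b (r + J * K)) (fun s => ∏ j ∈ range J, φ (sh (r + j * K) (exF s))) = (E (unF b K) (fun s => φ (exF s))) ^ J := by
  induction J with
  | zero =>
    simp only [range_zero, prod_empty, pow_zero]
    exact (unF_prob hb _).const 1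
  | succ J ih =>
    have h1 : r + (J + 1) * K = (r + J * K) + K := by ring
    rw [h1]
    simp only [prod_range_succ]
    have h2 := unF_split (b := b) (r + J * K) K (fun w => ∏ j ∈ range J, φ (sh (r + j * K) w)) φ (by
      intro w w' hw
      refine prod_congr rfl fun j hj => hφ _ _ fun g i hi => ?_
      unfold sh
      apply hw
      rw [mem_range] at hj
      have : (j + 1) * K ≤ J * K := Nat.mul_le_mul_right K hj
      rw [add_mul, one_mul] at this
      omega)
    rw [h2, ih, pow_succ]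

/-- exponential moments of a bounded function with mean value zero -/
theorem exp_moment (hb : ∀ g, 0 < b g) (K : ℕ) (f : (G → ℕ → ℕ) → ℝ) (hmean : E (unF b K) (fun s => f (exF s)) = 0)
    (hbd : ∀ w, |f w| ≤ 1) {θ : ℝ} (hθ : |θ| ≤ 1) : E (unF b K) (fun s => Real.exp (θ * f (exF s))) ≤ Real.exp (θ ^ 2) := by
  have h1 : ∀ s : (g : G) → Fin K → Fin (b g), Real.exp (θ * f (exF s)) ≤ 1 + θ * f (exF s) + θ ^ 2 := by
    intro s
    have h2 : |θ * f (exF s)| ≤ 1 := by
      rw [abs_mul]
      exact mul_le_one₀ hθ (abs_nonneg _) (hbd _)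
    have h3 := Real.abs_exp_sub_one_sub_id_le h2
    have h4 := (abs_le.1 h3).2
    have h5 : (θ * f (exF s)) ^ 2 ≤ θ ^ 2 := by
      rw [mul_pow]
      have h6 : f (exF s) ^ 2 ≤ 1 := by
        rw [← sq_abs]
        exact pow_le_one₀ (abs_nonneg _) (hbd _)
      have := sq_nonneg θ
      nlinarith
    linarith
  refine ((unF_prob hb K).mono h1).trans ?_
  have h2 : E (unF b K) (fun s => 1 + θ * f (exF s) + θ ^ 2) = 1 + θ ^ 2 := by
    rw [E_add, E_add, E_mul, hmean, (unF_prob hb K).const, (unF_prob hb K).const]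
    ring
  rw [h2]
  have := Real.add_one_le_exp (θ ^ 2)
  linarith

theorem ld_one (hb : ∀ g, 0 < b g) (K : ℕ) (f : (G → ℕ → ℕ) → ℝ) (hf : Dep K f) (hmean : E (unF b K) (fun s => f (exF s)) = 0)
    (hbd : ∀ w, |f w| ≤ 1) {θ : ℝ} (hθ0 : 0 < θ) (hθ1 : θ ≤ 1) (a : ℝ) (r J n : ℕ) (hn : r + J * K ≤ n) :
    E (unF b n) (fun s => if a < |∑ j ∈ range J, f (sh (r + j * K) (exF s))| then 1 else 0) ≤ 2 * Real.exp (θ ^ 2 * J - θ * a) := by
  have hpr := unF_prob hb n
  -- one sign
  have key : ∀ σ : ℝ, |σ| = 1 → E (unF b n) (fun s => Real.exp (σ * θ * ∑ j ∈ range J, f (sh (r + j * K) (exF s)))) ≤ Real.exp (θ ^ 2 * J) := by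
    intro σ hσ
    have e1 : ∀ s : (g : G) → Fin n → Fin (b g), Real.exp (σ * θ * ∑ j ∈ range J, f (sh (r + j * K) (exF s))) =
        (fun w : G → ℕ → ℕ => ∏ j ∈ range J, Real.exp (σ * θ * f (sh (r + j * K) w))) (exF s) := by
      intro s
      dsimp only
      rw [← Real.exp_sum, mul_sum]
    simp only [e1]
    have hdep : Dep K (fun w : G → ℕ → ℕ => Real.exp (σ * θ * f w)) := by
      intro w w' hw
      show Real.exp (σ * θ * f w) = Real.exp (σ * θ * f w')
      rw [hf w w' hw]
    have e2 := unF_ext (b := b) hb hn (fun w => ∏ j ∈ range J, Real.exp (σ * θ * f (sh (r + j * K) w))) (by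
      intro w w' hw
      refine prod_congr rfl fun j hj => hdep _ _ fun g i hi => ?_
      unfold sh
      apply hw
      rw [mem_range] at hj
      have : (j + 1) * K ≤ J * K := Nat.mul_le_mul_right K hj
      rw [add_mul, one_mul] at this
      omega)
    have e3 := unF_blocks hb K r (fun w => Real.exp (σ * θ * f w)) hdep J
    rw [e2, e3]
    have e4 : |σ * θ| ≤ 1 := by rw [abs_mul, hσ, one_mul, abs_of_pos hθ0]; exact hθ1
    have e5 := exp_moment hb K f hmean hbd e4
    have e6 : (σ * θ) ^ 2 = θ ^ 2 := by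
      rw [mul_pow, ← sq_abs σ, hσ]; ring
    rw [e6] at e5
    refine (pow_le_pow_left₀ ((unF_prob hb K).E_nonneg fun _ => (Real.exp_pos _).le) e5 J).trans (le_of_eq ?_)
    rw [← Real.exp_nat_mul]
    congr 1
    ring
  have h1 : ∀ s : (g : G) → Fin n → Fin (b g), (if a < |∑ j ∈ range J, f (sh (r + j * K) (exF s))| then (1 : ℝ) else 0) ≤
      Real.exp (-(θ * a)) * Real.exp (1 * θ * ∑ j ∈ range J, f (sh (r + j * K) (exF s))) +
        Real.exp (-(θ * a)) * Real.exp ((-1) * θ * ∑ j ∈ range J, f (sh (r + j * K) (exF s))) := by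
    intro s
    set S := ∑ j ∈ range J, f (sh (r + j * K) (exF s)) with hS
    rw [← Real.exp_add, ← Real.exp_add]
    have p1 := Real.exp_pos (-(θ * a) + 1 * θ * S)
    have p2 := Real.exp_pos (-(θ * a) + (-1) * θ * S)
    split_ifs with h
    · rcases lt_abs.1 h with h2 | h2
      · have : 1 ≤ Real.exp (-(θ * a) + 1 * θ * S) := Real.one_le_exp (by nlinarith)
        linarith
      · have : 1 ≤ Real.exp (-(θ * a) + (-1) * θ * S) := Real.one_le_exp (by nlinarith)
        linarith
    · positivity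
  refine (hpr.mono h1).trans ?_
  rw [E_add, E_mul, E_mul]
  have k1 := key 1 (by norm_num)
  have k2 := key (-1) (by norm_num)
  have e7 : Real.exp (θ ^ 2 * J - θ * a) = Real.exp (-(θ * a)) * Real.exp (θ ^ 2 * J) := by
    rw [← Real.exp_add]; congr 1; ring
  rw [e7]
  have hp := Real.exp_pos (-(θ * a))
  nlinarith

theorem sum_range_blocks (K J : ℕ) (F : ℕ → ℝ) : ∑ p ∈ range (K * J), F p = ∑ r ∈ range K, ∑ j ∈ range J, F (r + j * K) := by
  rw [sum_comm]
  induction J with
  | zero => simp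
  | succ J ih =>
    rw [sum_range_succ, ← ih, Nat.mul_succ, sum_range_add]
    congr 1
    refine sum_congr rfl fun r _ => ?_
    congr 1
    ring

theorem ld_all (hb : ∀ g, 0 < b g) (K : ℕ) (hK : 1 ≤ K) (f : (G → ℕ → ℕ) → ℝ) (hf : Dep K f)
    (hmean : E (unF b K) (fun s => f (exF s)) = 0) (hbd : ∀ w, |f w| ≤ 1) {δ : ℝ} (hδ0 : 0 < δ) (hδ1 : δ ≤ 1) (J : ℕ) :
    E (unF b (K * (J + 1))) (fun s => if δ * (K * J) < |∑ p ∈ range (K * J), f (sh p (exF s))| then 1 else 0) ≤
      2 * K * Real.exp (-(δ ^ 2 / 4 * J)) := by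
  classical
  have hpr := unF_prob hb (K * (J + 1))
  have hK0 : (0 : ℝ) < K := by exact_mod_cast hK
  have h1 : ∀ s : (g : G) → Fin (K * (J + 1)) → Fin (b g),
      (if δ * (K * J) < |∑ p ∈ range (K * J), f (sh p (exF s))| then (1 : ℝ) else 0) ≤
        ∑ r ∈ range K, (if δ * J < |∑ j ∈ range J, f (sh (r + j * K) (exF s))| then (1 : ℝ) else 0) := by
    intro s
    split_ifs with h
    · rw [sum_range_blocks K J (fun p => f (sh p (exF s)))] at h
      have h2 : ∃ r ∈ range K, δ * J < |∑ j ∈ range J, f (sh (r + j * K) (exF s))| := by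
        by_contra hcon
        push Not at hcon
        have h3 : |∑ r ∈ range K, ∑ j ∈ range J, f (sh (r + j * K) (exF s))| ≤ ∑ _r ∈ range K, δ * J :=
          (abs_sum_le_sum_abs _ _).trans (sum_le_sum hcon)
        rw [sum_const, card_range, nsmul_eq_mul] at h3
        nlinarith
      obtain ⟨r, hr, hr'⟩ := h2
      have h3 := single_le_sum (f := fun r => (if δ * J < |∑ j ∈ range J, f (sh (r + j * K) (exF s))| then (1 : ℝ) else 0))
        (fun r _ => by positivity) hr
      rw [if_pos hr'] at h3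
      exact h3
    · exact sum_nonneg fun r _ => by positivity
  refine (hpr.mono h1).trans ?_
  rw [E_sum]
  have h2 : ∀ r ∈ range K, E (unF b (K * (J + 1))) (fun s => (if δ * J < |∑ j ∈ range J, f (sh (r + j * K) (exF s))| then (1 : ℝ) else 0)) ≤
      2 * Real.exp (-(δ ^ 2 / 4 * J)) := by
    intro r hr
    rw [mem_range] at hr
    have h3 := ld_one hb K f hf hmean hbd (θ := δ / 2) (by positivity) (by linarith) (δ * J) r J (K * (J + 1)) (by
      rw [Nat.mul_succ, mul_comm K J]; omega)
    refine h3.trans (le_of_eq ?_)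
    congr 2
    ring
  refine (sum_le_sum h2).trans (le_of_eq ?_)
  rw [sum_const, card_range, nsmul_eq_mul]
  ring

end Pool.Agent.V5helper15.MB
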