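import Pool.Agent.V5helper15.MB.Src
import Pool.Agent.V5helper15.MB.LD

/-!
# Joint normality in several bases outside exponentially small exceptional sets
-/

set_option autoImplicit false

namespace Pool.Agent.V5helper15.MB

open Finset Filter Topology Polynomial
open Pool.Agent.V5helper15.RM

section word
variable {G : Type} [Fintype G] [DecidableEq G] {b : G → ℕ}

/-- the centred indicator function of a block -/
noncomputable def wf (b : G → ℕ) (K : ℕ) (W : G → ℕ → ℕ) (w : G → ℕ → ℕ) : ℝ :=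
  (if ∀ g, ∀ q < K, w g q = W g q then 1 else 0) - ∏ g, 1 / (b g : ℝ) ^ K

omit [DecidableEq G] in
theorem wf_dep (K : ℕ) (W : G → ℕ → ℕ) : Dep K (wf b K W) := by
  intro w w' hw
  unfold wf
  congr 1
  refine if_congr ?_ rfl rfl
  refine forall_congr' fun g => forall_congr' fun q => ?_
  refine imp_congr_right fun hq => ?_
  rw [hw g q hq]

omit [DecidableEq G] in
theorem mu_le (hb : ∀ g, 0 < b g) (K : ℕ) : 0 ≤ ∏ g, 1 / (b g : ℝ) ^ K ∧ ∏ g, 1 / (b g : ℝ) ^ K ≤ 1 := by
  refine ⟨prod_nonneg fun g _ => by positivity, prod_le_one (fun g _ => by positivity) fun g _ => ?_⟩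
  have h1 : (1 : ℝ) ≤ b g := by exact_mod_cast hb g
  have h2 : (1 : ℝ) ≤ (b g : ℝ) ^ K := one_le_pow₀ h1
  rw [div_le_one (by positivity)]
  exact h2

omit [DecidableEq G] in
theorem wf_bd (hb : ∀ g, 0 < b g) (K : ℕ) (W : G → ℕ → ℕ) (w : G → ℕ → ℕ) : |wf b K W w| ≤ 1 := by
  obtain ⟨h1, h2⟩ := mu_le hb K
  unfold wf
  rw [abs_le]
  split_ifs <;> constructor <;> linarith

theorem wf_mean (hb : ∀ g, 0 < b g) (K : ℕ) (W : G → ℕ → ℕ) (hW : ∀ g q, W g q < b g) :
    E (unF b K) (fun s => wf b K W (exF s)) = 0 := by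
  classical
  unfold wf
  rw [E_sub, (unF_prob hb K).const, sub_eq_zero]
  have h6 : ∀ z : (g : G) → Fin K → Fin (b g), (if ∀ g, ∀ q < K, exF z g q = W g q then (1 : ℝ) else 0) =
      ∏ g, (fun (g : G) (x : Fin K → Fin (b g)) => if ∀ i : Fin K, (i : ℕ) ∈ range K → (x i : ℕ) = W g i then (1 : ℝ) else 0) g (z g) := by
    intro z
    have h7 : ∀ g, (∀ q < K, exF z g q = W g q) ↔ ∀ i : Fin K, (i : ℕ) ∈ range K → (z g i : ℕ) = W g i := by
      intro g
      constructor
      · intro h i _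
        have := h i i.2
        rwa [show exF z g i = ex (z g) i from rfl, ex_coe] at this
      · intro h q hq
        have := h ⟨q, hq⟩ (mem_range.2 hq)
        rw [show exF z g q = ex (z g) q from rfl, ex_of_lt _ hq]
        exact this
    by_cases h : ∀ g, ∀ q < K, exF z g q = W g q
    · rw [if_pos h]
      refine (prod_eq_one fun g _ => ?_).symm
      dsimp only
      rw [if_pos ((h7 g).1 (h g))]
    · rw [if_neg h]
      rw [not_forall] at h
      obtain ⟨g, hg⟩ := h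
      refine (prod_eq_zero (mem_univ g) ?_).symm
      dsimp only
      rw [if_neg (fun h' => hg ((h7 g).2 h'))]
  rw [show (fun z : (g : G) → Fin K → Fin (b g) => (if ∀ g, ∀ q < K, exF z g q = W g q then (1 : ℝ) else 0)) = _
    from funext h6, unF_prodR (b := b) (N := K)
      (fun (g : G) (x : Fin K → Fin (b g)) => if ∀ i : Fin K, (i : ℕ) ∈ range K → (x i : ℕ) = W g i then (1 : ℝ) else 0)]
  refine prod_congr rfl fun g _ => ?_
  rw [un_places (hb g) _ (Finset.Subset.refl _) _ (hW g), card_range]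

/-- decomposition over the strings -/
theorem string_sum {n : ℕ} (F : (G → ℕ → ℕ) → ℝ) (hF : Dep n F) (w : G → ℕ → ℕ) (hw : ∀ g i, w g i < b g) :
    F w = ∑ s : (g : G) → Fin n → Fin (b g), F (exF s) * (if ∀ g, ∀ i < n, w g i = ex (s g) i then 1 else 0) := by
  classical
  rw [sum_eq_single (fun (g : G) (i : Fin n) => (⟨w g i, hw g i⟩ : Fin (b g)))]
  · have h1 : ∀ g, ∀ i < n, w g i = ex (fun i : Fin n => (⟨w g i, hw g i⟩ : Fin (b g))) i := by
      intro g i hi
      rw [ex_of_lt _ hi]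
    rw [if_pos h1, mul_one]
    exact hF _ _ h1
  · intro s _ hs
    rw [if_neg, mul_zero]
    intro h
    apply hs
    funext g i
    apply Fin.ext
    show (s g i : ℕ) = w g i
    rw [h g i i.2, ex_coe]
  · intro h
    exact absurd (mem_univ _) h

end word

/-- tiling -/
theorem tile (F : ℕ → ℝ) (hF : ∀ p, |F p| ≤ 1) (a0 s K N : ℕ) (hs : 1 ≤ s) {δ : ℝ} (hδ : 0 ≤ δ)
    (h : ∀ a, a0 ≤ a → a + s + K ≤ N → |∑ p ∈ range s, F (a + p)| ≤ δ * s) (n : ℕ) (hn : n ≤ N) :
    |∑ p ∈ range n, F p| ≤ a0 + δ * N + s + K := by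
  have triv : ∀ (m : ℕ) (a : ℕ), |∑ p ∈ range m, F (a + p)| ≤ m := by
    intro m a
    refine (abs_sum_le_sum_abs _ _).trans ((sum_le_sum fun p _ => hF _).trans (le_of_eq ?_))
    simp
  have key : ∀ n : ℕ, n + K ≤ N → |∑ p ∈ range n, F p| ≤ a0 + δ * n + s := by
    intro n
    induction n using Nat.strong_induction_on with
    | _ n ih =>
      intro hn
      rcases Nat.lt_or_ge n (a0 + s) with h1 | h1
      · have h2 := triv n 0
        simp only [zero_add] at h2
        have h3 : (n : ℝ) ≤ a0 + s := by exact_mod_cast h1.le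
        have h4 : 0 ≤ δ * n := by positivity
        linarith
      · obtain ⟨a, rfl⟩ : ∃ a, n = a + s := ⟨n - s, by omega⟩
        have h2 := ih a (by omega) (by omega)
        have h3 := h a (by omega) hn
        rw [sum_range_add]
        have h4 := abs_add_le (∑ p ∈ range a, F p) (∑ p ∈ range s, F (a + p))
        push_cast
        have h5 : δ * ((a : ℝ) + s) = δ * a + δ * s := by ring
        linarith
  obtain ⟨m, j, rfl, hj, hm⟩ : ∃ m j, n = m + j ∧ j ≤ K ∧ (m + K ≤ N ∨ m = 0) := by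
    rcases Nat.lt_or_ge n K with h1 | h1
    · exact ⟨0, n, by omega, by omega, Or.inr rfl⟩
    · exact ⟨n - K, K, by omega, le_rfl, Or.inl (by omega)⟩
  rw [sum_range_add]
  have h2 := triv j m
  have h3 : (j : ℝ) ≤ K := by exact_mod_cast hj
  have h4 := abs_add_le (∑ p ∈ range m, F p) (∑ p ∈ range j, F (m + p))
  have h5 : |∑ p ∈ range m, F p| ≤ a0 + δ * N + s := by
    rcases hm with hm | rfl
    · refine (key m hm).trans ?_
      have h6 : (m : ℝ) ≤ N := by exact_mod_cast (by omega : m ≤ N)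
      have := mul_le_mul_of_nonneg_left h6 hδ
      linarith
    · simp only [range_zero, sum_empty, abs_zero]
      positivity
  linarith

variable {ι : Type} [Fintype ι] [DecidableEq ι] {L : Type} [Fintype L] [DecidableEq L] {S : Type} [Fintype S] [DecidableEq S]

/-- the digits of the numbers in the bases -/
noncomputable def dq (b : ι → ℕ) (y : L → ℝ) (h : L → S → ℤ[X]) (x : S → ℝ) (m : ℤ) : L × ι → ℕ → ℕ :=
  fun g i => (dg (b g.2) (zz y h x m g.1) i).toNat

omit [Fintype ι] [DecidableEq ι] [Fintype L] [DecidableEq L] [DecidableEq S] in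
theorem dq_lt (b : ι → ℕ) (hb : ∀ i, 2 ≤ b i) (y : L → ℝ) (h : L → S → ℤ[X]) (x : S → ℝ) (m : ℤ) (g : L × ι) (i : ℕ) :
    dq b y h x m g i < b g.2 := by
  have hb' := hb g.2
  have h1 : 0 ≤ dg (b g.2) (zz y h x m g.1) i := Int.emod_nonneg _ (by omega)
  have h2 : dg (b g.2) (zz y h x m g.1) i < b g.2 := Int.emod_lt_of_pos _ (by omega)
  unfold dq
  omega

omit [Fintype ι] [DecidableEq ι] [Fintype L] [DecidableEq L] [DecidableEq S] in
theorem dq_eq (b : ι → ℕ) (hb : ∀ i, 2 ≤ b i) (y : L → ℝ) (h : L → S → ℤ[X]) (x : S → ℝ) (m : ℤ) (g : L × ι) (i c : ℕ) :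
    dq b y h x m g i = c ↔ dg (b g.2) (zz y h x m g.1) i = c := by
  have hb' := hb g.2
  have h1 : 0 ≤ dg (b g.2) (zz y h x m g.1) i := Int.emod_nonneg _ (by omega)
  unfold dq
  omega

/-- the bad windows -/
noncomputable def bad (b : ι → ℕ) (K J : ℕ) (δ : ℝ) (W : L × ι → ℕ → ℕ) (w : L × ι → ℕ → ℕ) : ℝ :=
  if δ * (K * J) < |∑ p ∈ range (K * J), wf (fun g : L × ι => b g.2) K W (sh p w)| then 1 else 0

omit [DecidableEq ι] [DecidableEq L] in
theorem bad_dep (b : ι → ℕ) (K J : ℕ) (δ : ℝ) (W : L × ι → ℕ → ℕ) : Dep (K * (J + 1)) (bad b K J δ W) := by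
  intro w w' hw
  unfold bad
  have h1 : ∀ p ∈ range (K * J), wf (fun g : L × ι => b g.2) K W (sh p w) = wf (fun g : L × ι => b g.2) K W (sh p w') := by
    intro p hp
    apply wf_dep
    intro g i hi
    unfold sh
    apply hw
    rw [mem_range] at hp
    rw [Nat.mul_succ]
    omega
  rw [sum_congr rfl h1]

theorem bad_prob (b : ι → ℕ) (hb : ∀ i, 2 ≤ b i) (K J : ℕ) (hK : 1 ≤ K) {δ : ℝ} (hδ0 : 0 < δ) (hδ1 : δ ≤ 1)
    (W : L × ι → ℕ → ℕ) (hW : ∀ g q, W g q < b g.2) {A : Finset ℤ} (y : L → ℝ) (h : L → S → ℤ[X]) (x : S → ℝ)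
    (a : ℕ) (T : Finset ℕ) (hT : T = Ico a (a + K * (J + 1))) (hwin : ∀ d : L → ι → ℕ → ℕ, (∀ l i n, d l i n < b i) →
      E (uz A) (fun m => if ∀ l i, ∀ n ∈ T, dg (b i) (zz y h x m l) n = d l i n then 1 else 0) ≤
        2 * ∏ _l : L, ∏ i, 1 / (b i : ℝ) ^ (K * (J + 1))) :
    E (uz A) (fun m => bad b K J δ W (sh a (dq b y h x m))) ≤ 4 * K * Real.exp (-(δ ^ 2 / 4 * J)) := by
  classical
  have hb0 : ∀ g : L × ι, 0 < b g.2 := fun g => by have := hb g.2; omega
  have h1 : ∀ m : A, bad b K J δ W (sh a (dq b y h x m)) =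
      ∑ s : (g : L × ι) → Fin (K * (J + 1)) → Fin (b g.2), bad b K J δ W (exF s) *
        (if ∀ g, ∀ i < K * (J + 1), sh a (dq b y h x m) g i = ex (s g) i then 1 else 0) := fun m =>
    string_sum (b := fun g : L × ι => b g.2) _ (bad_dep b K J δ W) _ (fun g i => dq_lt b hb y h x m g _)
  simp only [h1]
  rw [E_sum]
  have hbad0 : ∀ w : L × ι → ℕ → ℕ, 0 ≤ bad b K J δ W w := by
    intro w; unfold bad; split_ifs <;> norm_num
  have h2 : ∀ s ∈ (univ : Finset ((g : L × ι) → Fin (K * (J + 1)) → Fin (b g.2))),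
      E (uz A) (fun m => bad b K J δ W (exF s) * (if ∀ g, ∀ i < K * (J + 1), sh a (dq b y h x m) g i = ex (s g) i then 1 else 0)) ≤
        2 * (unF (fun g : L × ι => b g.2) (K * (J + 1)) s * bad b K J δ W (exF s)) := by
    intro s _
    rw [E_mul]
    have h3 := hwin (fun l i n => ex (s (l, i)) (n - a)) (fun l i n => ex_lt (hb0 (l, i)) _ _)
    have h4 : (fun m : A => (if ∀ g, ∀ i < K * (J + 1), sh a (dq b y h x m) g i = ex (s g) i then (1 : ℝ) else 0)) =
        fun m : A => if ∀ l i, ∀ n ∈ T, dg (b i) (zz y h x m l) n = ((ex (s (l, i)) (n - a) : ℕ) : ℤ) then (1 : ℝ) else 0 := by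
      funext m
      refine if_congr ?_ rfl rfl
      constructor
      · intro h5 l i n hn
        rw [hT, mem_Ico] at hn
        have h6 := h5 (l, i) (n - a) (by omega)
        unfold sh at h6
        rw [Nat.add_sub_cancel' hn.1] at h6
        exact (dq_eq b hb y h x m (l, i) n _).1 h6
      · rintro h5 ⟨l, i⟩ n hn
        have h6 := h5 l i (a + n) (by rw [hT, mem_Ico]; omega)
        rw [Nat.add_sub_cancel_left] at h6
        exact (dq_eq b hb y h x m (l, i) (a + n) _).2 h6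
    rw [h4]
    have h5 : unF (fun g : L × ι => b g.2) (K * (J + 1)) s = ∏ _l : L, ∏ i, 1 / (b i : ℝ) ^ (K * (J + 1)) := by
      unfold unF un
      rw [Fintype.prod_prod_type]
    rw [h5]
    calc bad b K J δ W (exF s) * E (uz A) (fun m : A => if ∀ l i, ∀ n ∈ T,
          dg (b i) (zz y h x m l) n = ((ex (s (l, i)) (n - a) : ℕ) : ℤ) then (1 : ℝ) else 0)
        ≤ bad b K J δ W (exF s) * (2 * ∏ _l : L, ∏ i, 1 / (b i : ℝ) ^ (K * (J + 1))) := mul_le_mul_of_nonneg_left h3 (hbad0 _)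
      _ = _ := by ring
  refine (sum_le_sum h2).trans ?_
  rw [← mul_sum]
  have h3 := ld_all (b := fun g : L × ι => b g.2) hb0 K hK (wf (fun g : L × ι => b g.2) K W) (wf_dep K W)
    (wf_mean hb0 K W hW) (wf_bd hb0 K W) hδ0 hδ1 J
  have h4 : ∑ s, unF (fun g : L × ι => b g.2) (K * (J + 1)) s * bad b K J δ W (exF s) =
      E (unF (fun g : L × ι => b g.2) (K * (J + 1))) (fun s => if δ * (K * J) <
        |∑ p ∈ range (K * J), wf (fun g : L × ι => b g.2) K W (sh p (exF s))| then 1 else 0) := rfl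
  rw [h4]
  calc 2 * E (unF (fun g : L × ι => b g.2) (K * (J + 1))) (fun s => if δ * (K * J) <
        |∑ p ∈ range (K * J), wf (fun g : L × ι => b g.2) K W (sh p (exF s))| then 1 else 0)
      ≤ 2 * (2 * K * Real.exp (-(δ ^ 2 / 4 * J))) := mul_le_mul_of_nonneg_left h3 (by norm_num)
    _ = _ := by ring

end Pool.Agent.V5helper15.MB
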