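import Pool.Agent.V5helper15.MB.Norm

/-!
# Joint normality in several bases outside exponentially small exceptional sets: the theorem
-/

set_option autoImplicit false

namespace Pool.Agent.V5helper15.MB

open Finset Filter Topology Polynomial
open Pool.Agent.V5helper15.RM

variable {ι : Type} [Fintype ι] [DecidableEq ι] {L : Type} [Fintype L] [DecidableEq L] {S : Type} [Fintype S] [DecidableEq S]

/-- joint normality up to the place `N`, up to `δ N` -/
def JN (b : ι → ℕ) (K N : ℕ) (δ : ℝ) (z : L → ℝ) : Prop :=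
  ∀ W : L → ι → Fin K → ℕ, (∀ l i q, W l i q < b i) → ∀ n : ℕ, n ≤ N →
    |(({p : ℕ | p < n ∧ ∀ l i (q : Fin K), dg (b i) (z l) (p + q) = W l i q}.ncard : ℕ) : ℝ) -
      n * ∏ _l : L, ∏ i, ((b i : ℝ) ^ K)⁻¹| ≤ δ * N

/-- numbers without bad windows are jointly normal -/
theorem jn_of_good (b : ι → ℕ) (hb : ∀ i, 2 ≤ b i) (K J N a0 : ℕ) (hK : 1 ≤ K) (hJ : 1 ≤ J) {δ δ' : ℝ} (hδ' : 0 ≤ δ')
    (y : L → ℝ) (h : L → S → ℤ[X]) (x : S → ℝ) (m : ℤ)
    (hgood : ∀ s : (g : L × ι) → Fin K → Fin (b g.2), ∀ a, a0 ≤ a → a + K * (J + 1) ≤ N →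
      bad b K J δ' (exF s) (sh a (dq b y h x m)) = 0)
    (hbd : a0 + δ' * N + (K * J : ℕ) + K ≤ δ * N) : JN b K N δ (zz y h x m) := by
  classical
  have hb0 : ∀ g : L × ι, 0 < b g.2 := fun g => by have := hb g.2; omega
  intro W hW n hn
  obtain ⟨s, hs⟩ : ∃ s : (g : L × ι) → Fin K → Fin (b g.2), s = fun g q => ⟨W g.1 g.2 q, hW _ _ _⟩ := ⟨_, rfl⟩
  have h1 := tile (fun p => wf (fun g : L × ι => b g.2) K (exF s) (sh p (dq b y h x m)))
    (fun p => wf_bd hb0 K _ _) a0 (K * J) K N (Nat.mul_pos hK hJ) hδ' (by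
      intro a ha1 ha2
      have h2 := hgood s a ha1 (by rw [Nat.mul_succ]; omega)
      unfold bad at h2
      have h3 : ¬ (δ' * (K * J) < |∑ p ∈ range (K * J), wf (fun g : L × ι => b g.2) K (exF s) (sh p (sh a (dq b y h x m)))|) := by
        intro h4
        rw [if_pos h4] at h2
        exact one_ne_zero h2
      push Not at h3
      simp only [sh_sh] at h3
      push_cast
      exact h3) n hn
  refine le_trans (le_of_eq ?_) (h1.trans hbd)
  congr 1
  unfold wf
  rw [sum_sub_distrib, sum_const, card_range, nsmul_eq_mul]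
  congr 1
  · have e2 : {p : ℕ | p < n ∧ ∀ l i (q : Fin K), dg (b i) (zz y h x m l) (p + q) = W l i q} =
        (((range n).filter fun p => ∀ g, ∀ q < K, sh p (dq b y h x m) g q = exF s g q : Finset ℕ) : Set ℕ) := by
      ext p
      rw [mem_coe, mem_filter, mem_range]
      refine and_congr Iff.rfl ?_
      constructor
      · rintro h2 ⟨l, i⟩ q hq
        have h3 := h2 l i ⟨q, hq⟩
        have h4 := (dq_eq b hb y h x m (l, i) (p + q) (W l i ⟨q, hq⟩)).2 h3
        show dq b y h x m (l, i) (p + q) = ex (s (l, i)) q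
        rw [h4, ex_of_lt _ hq, hs]
      · intro h2 l i q
        have h3 := h2 (l, i) q q.2
        have h4 : dq b y h x m (l, i) (p + q) = ex (s (l, i)) q := h3
        rw [ex_coe, hs] at h4
        exact (dq_eq b hb y h x m (l, i) (p + q) (W l i q)).1 h4
    rw [e2, Set.ncard_coe_finset, card_filter]
    push_cast
    rfl
  · rw [Fintype.prod_prod_type]
    simp only [one_div]

/-- **Joint normality in several bases outside exponentially small exceptional sets.** -/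
theorem normal_fin (b : ι → ℕ) (hb : ∀ i, 2 ≤ b i) (hind : ∀ i i', i ≠ i' → ∀ k l : ℕ, b i ^ k = b i' ^ l → k = 0)
    (x : S → ℝ) (hx : ∀ s, IsAlgebraic ℚ (x s)) (hlin : ∀ (n : S → ℤ) (m : ℤ), ∑ s, (n s : ℝ) * x s = m → n = 0)
    (h : L → S → ℤ[X]) (hh : Free h) (ε : ℝ) (hε : 0 < ε) (B K : ℕ) (hK : 1 ≤ K) (δ : ℝ) (hδ : 0 < δ) :
    ∃ c : ℝ, 0 < c ∧ ∃ N0 : ℕ, ∀ N : ℕ, N0 ≤ N → ∀ A : Finset ℤ, Src ε B N A → ∀ y : L → ℝ,
      (({m : ℤ | m ∈ A ∧ ¬ JN b K N δ (zz y h x m)}.ncard : ℕ) : ℝ) ≤ Real.exp (-(c * N)) * A.card := by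
  classical
  -- no bases
  rcases isEmpty_or_nonempty ι with hι | hι
  · refine ⟨1, one_pos, 0, fun N _ A _ y => ?_⟩
    have h1 : ∀ m, JN b K N δ (zz y h x m) := by
      intro m W _ n _
      have h2 : {p : ℕ | p < n ∧ ∀ l (i : ι) (q : Fin K), dg (b i) (zz y h x m l) (p + q) = W l i q} = ((range n : Finset ℕ) : Set ℕ) := by
        ext p
        rw [mem_coe, mem_range]
        exact ⟨fun h => h.1, fun h => ⟨h, fun _ i => isEmptyElim i⟩⟩
      rw [h2, Set.ncard_coe_finset, card_range]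
      simp
      positivity
    have h2 : {m : ℤ | m ∈ A ∧ ¬ JN b K N δ (zz y h x m)} = ∅ := by
      ext m
      simp [h1]
    rw [h2, Set.ncard_empty]
    simp only [Nat.cast_zero]
    positivity
  have hK0 : (0 : ℝ) < K := by exact_mod_cast hK
  set ε₁ : ℝ := min ε (δ / 8) with hε₁
  have he0 : 0 < ε₁ := lt_min hε (by positivity)
  have he1 : ε₁ ≤ ε := min_le_left _ _
  have he2 : ε₁ ≤ δ / 8 := min_le_right _ _
  obtain ⟨c₁, hc₁, N₁, hwin⟩ := windows_fin b hb hind x hx hlin h hh ε₁ he0 B 1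
  set δ' : ℝ := min (δ / 4) 1 with hδ'
  have hd0 : 0 < δ' := lt_min (by positivity) one_pos
  have hd1 : δ' ≤ δ / 4 := min_le_left _ _
  have hd2 : δ' ≤ 1 := min_le_right _ _
  set c₂ : ℝ := min (c₁ / 2) (δ / 4) with hc₂
  have hc0 : 0 < c₂ := lt_min (by positivity) (by positivity)
  have hc2 : c₂ ≤ c₁ / 2 := min_le_left _ _
  have hc3 : c₂ ≤ δ / 4 := min_le_right _ _
  obtain ⟨Cw, hCw⟩ : ∃ Cw : ℝ, Cw = Fintype.card ((g : L × ι) → Fin K → Fin (b g.2)) := ⟨_, rfl⟩
  have hCw0 : 0 ≤ Cw := by rw [hCw]; positivity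
  set γ : ℝ := δ' ^ 2 / 4 * (c₂ / K) with hγ
  have hγ0 : 0 < γ := by positivity
  have hev : ∀ᶠ N : ℕ in atTop, (K : ℝ) ≤ c₁ / 2 * N ∧ (K : ℝ) ≤ c₂ * N ∧ 1 + K ≤ 3 * δ / 8 * N ∧
      Cw * (4 * K * Real.exp (δ' ^ 2 / 4)) * N ≤ Real.exp (γ / 2 * N) := by
    have t1 : ∀ r : ℝ, 0 < r → Tendsto (fun N : ℕ => r * (N : ℝ)) atTop atTop := fun r hr =>
      tendsto_natCast_atTop_atTop.const_mul_atTop hr
    have t2 : Tendsto (fun u : ℝ => Real.exp u / u ^ 1) atTop atTop := Real.tendsto_exp_div_pow_atTop 1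
    filter_upwards [(t1 (c₁ / 2) (by positivity)).eventually_ge_atTop (K : ℝ), (t1 c₂ hc0).eventually_ge_atTop (K : ℝ),
      (t1 (3 * δ / 8) (by positivity)).eventually_ge_atTop (1 + K : ℝ),
      (t2.comp (t1 (γ / 2) (by positivity))).eventually_ge_atTop (Cw * (4 * K * Real.exp (δ' ^ 2 / 4)) / (γ / 2)), eventually_gt_atTop 0]
      with N h1 h2 h3 h4 h5
    refine ⟨h1, h2, h3, ?_⟩
    have hN0 : (0 : ℝ) < N := by exact_mod_cast h5
    simp only [Function.comp, pow_one] at h4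
    rw [div_le_div_iff₀ (by positivity) (by positivity)] at h4
    have h6 : (Cw * (4 * K * Real.exp (δ' ^ 2 / 4)) * N) * (γ / 2) ≤ Real.exp (γ / 2 * N) * (γ / 2) := by
      calc (Cw * (4 * K * Real.exp (δ' ^ 2 / 4)) * N) * (γ / 2) = Cw * (4 * K * Real.exp (δ' ^ 2 / 4)) * (γ / 2 * N) := by ring
        _ ≤ _ := h4
    exact le_of_mul_le_mul_right h6 (by positivity)
  obtain ⟨N₂, hN₂⟩ := eventually_atTop.1 hev
  refine ⟨γ / 2, by positivity, max N₁ N₂, fun N hN A hA y => ?_⟩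
  obtain ⟨g1, g2, g3, g4⟩ := hN₂ N ((le_max_right _ _).trans hN)
  obtain ⟨hAne, hwin⟩ := hwin N ((le_max_left _ _).trans hN) A (hA.mono he1)
  have hNN : (0 : ℝ) ≤ N := Nat.cast_nonneg N
  have hpr := uz_prob hAne
  -- the length of the windows
  set J : ℕ := ⌊c₂ * N / K⌋₊ with hJ
  have hJ1 : (J : ℝ) ≤ c₂ * N / K := Nat.floor_le (by positivity)
  have hJ2 : c₂ * N / K < J + 1 := Nat.lt_floor_add_one _
  have hJ3 : 1 ≤ J := by
    rw [hJ, Nat.one_le_floor_iff, le_div_iff₀ hK0, one_mul]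
    exact g2
  have hKJ : (K : ℝ) * J ≤ c₂ * N := by
    rw [le_div_iff₀ hK0] at hJ1
    linarith
  set a0 : ℕ := ⌈ε₁ * N⌉₊ with ha0
  have ha1 : ε₁ * N ≤ a0 := Nat.le_ceil _
  have ha2 : (a0 : ℝ) < ε₁ * N + 1 := Nat.ceil_lt_add_one (by positivity)
  -- the exceptional set
  have hbad0 : ∀ W w, 0 ≤ bad b K J δ' W (L := L) w := by
    intro W w; unfold bad; split_ifs <;> norm_num
  have hpt : ∀ m : A, (if JN b K N δ (zz y h x m) then (0 : ℝ) else 1) ≤
      ∑ s : (g : L × ι) → Fin K → Fin (b g.2), ∑ a ∈ (range N).filter (fun a => a0 ≤ a ∧ a + K * (J + 1) ≤ N),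
        bad b K J δ' (exF s) (sh a (dq b y h x m)) := by
    intro m
    split_ifs with hm
    · exact sum_nonneg fun s _ => sum_nonneg fun a _ => hbad0 _ _
    · have hex : ∃ s : (g : L × ι) → Fin K → Fin (b g.2), ∃ a, a0 ≤ a ∧ a + K * (J + 1) ≤ N ∧
          bad b K J δ' (exF s) (sh a (dq b y h x m)) ≠ 0 := by
        by_contra hcon
        push Not at hcon
        apply hm
        refine jn_of_good b hb K J N a0 hK hJ3 hd0.le y h x m hcon ?_
        push_cast
        have e1 : δ' * N ≤ δ / 4 * N := mul_le_mul_of_nonneg_right hd1 hNN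
        have e2 : c₂ * N ≤ δ / 4 * N := mul_le_mul_of_nonneg_right hc3 hNN
        have e3 : ε₁ * N ≤ δ / 8 * N := mul_le_mul_of_nonneg_right he2 hNN
        linarith
      obtain ⟨s, a, h1, h2, h3⟩ := hex
      have h4 : bad b K J δ' (exF s) (sh a (dq b y h x m)) = 1 := by
        unfold bad at h3 ⊢
        split_ifs with h5
        · rfl
        · rw [if_neg h5] at h3; exact absurd rfl h3
      have h5 : 1 ≤ K * (J + 1) := Nat.mul_pos hK (Nat.succ_pos J)
      have h6 : a ∈ (range N).filter (fun a => a0 ≤ a ∧ a + K * (J + 1) ≤ N) := by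
        rw [mem_filter, mem_range]
        exact ⟨by omega, h1, h2⟩
      rw [← h4]
      exact (single_le_sum (f := fun a => bad b K J δ' (exF s) (sh a (dq b y h x m))) (fun a _ => hbad0 _ _) h6).trans
        (single_le_sum (f := fun s : (g : L × ι) → Fin K → Fin (b g.2) =>
          ∑ a ∈ (range N).filter (fun a => a0 ≤ a ∧ a + K * (J + 1) ≤ N), bad b K J δ' (exF s) (sh a (dq b y h x m)))
          (fun s _ => sum_nonneg fun a _ => hbad0 _ _) (mem_univ s))
  have hE := hpr.mono hpt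
  rw [E_sum] at hE
  have hs : ∀ s ∈ (univ : Finset ((g : L × ι) → Fin K → Fin (b g.2))),
      E (uz A) (fun m => ∑ a ∈ (range N).filter (fun a => a0 ≤ a ∧ a + K * (J + 1) ≤ N), bad b K J δ' (exF s) (sh a (dq b y h x m))) ≤
        N * (4 * K * Real.exp (-(δ' ^ 2 / 4 * J))) := by
    intro s _
    rw [E_sum]
    have ha : ∀ a ∈ (range N).filter (fun a => a0 ≤ a ∧ a + K * (J + 1) ≤ N),
        E (uz A) (fun m => bad b K J δ' (exF s) (sh a (dq b y h x m))) ≤ 4 * K * Real.exp (-(δ' ^ 2 / 4 * J)) := by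
      intro a ha
      rw [mem_filter] at ha
      refine bad_prob b hb K J hK hd0 hd2 (exF s) (fun g q => ex_lt (show 0 < b g.2 by have := hb g.2; omega) _ _) y h x a
        (Ico a (a + K * (J + 1))) rfl fun d hd => ?_
      have h1 := hwin y (fun _ => Classical.arbitrary ι) (fun _ _ => Ico a (a + K * (J + 1)))
        (fun _ _ => ⟨fun _ => a, fun _ => a + K * (J + 1), fun _ => ha.2.2, by
          ext n
          rw [mem_TU, mem_Ico]
          simp⟩) (fun _ _ => by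
          rw [Nat.card_Ico, Nat.add_sub_cancel_left]
          push_cast
          nlinarith) (fun _ _ _ n hn => by
          rw [mem_Ico] at hn
          refine ha1.trans ?_
          exact_mod_cast ha.2.1.trans hn.1) d hd
      simp only [Nat.card_Ico, Nat.add_sub_cancel_left] at h1
      have h2 := (abs_le.1 h1).2
      have h3 : Real.exp (-(c₁ * N)) ≤ 1 := Real.exp_le_one_iff.2 (by
        have : 0 ≤ c₁ * N := by positivity
        linarith)
      have h4 : 0 ≤ ∏ _l : L, ∏ i, 1 / (b i : ℝ) ^ (K * (J + 1)) := prod_nonneg fun _ _ => prod_nonneg fun _ _ => by positivity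
      have h5 := mul_le_mul_of_nonneg_right h3 h4
      have h6 : ∀ q : ℝ, q - ∏ _l : L, ∏ i, 1 / (b i : ℝ) ^ (K * (J + 1)) ≤
          Real.exp (-(c₁ * N)) * ∏ _l : L, ∏ i, 1 / (b i : ℝ) ^ (K * (J + 1)) →
          q ≤ 2 * ∏ _l : L, ∏ i, 1 / (b i : ℝ) ^ (K * (J + 1)) := by
        intro q hq
        linarith
      exact h6 _ h2
    refine (sum_le_sum ha).trans ?_
    rw [sum_const, nsmul_eq_mul]
    refine mul_le_mul_of_nonneg_right ?_ (by positivity)
    have := card_filter_le (range N) (fun a => a0 ≤ a ∧ a + K * (J + 1) ≤ N)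
    rw [card_range] at this
    exact_mod_cast this
  have hE2 := hE.trans (sum_le_sum hs)
  rw [sum_const, card_univ, nsmul_eq_mul, ← hCw] at hE2
  have hexp : Real.exp (-(δ' ^ 2 / 4 * J)) ≤ Real.exp (δ' ^ 2 / 4) * Real.exp (-(γ * N)) := by
    rw [← Real.exp_add]
    apply Real.exp_le_exp.2
    have e1 : γ * N = δ' ^ 2 / 4 * (c₂ * N / K) := by rw [hγ]; ring
    have e2 : 0 < δ' ^ 2 / 4 := by positivity
    nlinarith
  have hfin : Cw * (N * (4 * K * Real.exp (-(δ' ^ 2 / 4 * J)))) ≤ Real.exp (-(γ / 2 * N)) := by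
    calc Cw * (N * (4 * K * Real.exp (-(δ' ^ 2 / 4 * J)))) ≤ Cw * (N * (4 * K * (Real.exp (δ' ^ 2 / 4) * Real.exp (-(γ * N))))) := by
          gcongr
      _ = (Cw * (4 * K * Real.exp (δ' ^ 2 / 4)) * N) * Real.exp (-(γ * N)) := by ring
      _ ≤ Real.exp (γ / 2 * N) * Real.exp (-(γ * N)) := by gcongr
      _ = Real.exp (-(γ / 2 * N)) := by rw [← Real.exp_add]; congr 1; ring
  have hE3 := hE2.trans hfin
  rw [E_uz A (fun m : ℤ => if JN b K N δ (zz y h x m) then (0 : ℝ) else 1)] at hE3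
  have hA0 : (0 : ℝ) < A.card := by exact_mod_cast hAne.card_pos
  rw [div_le_iff₀ hA0] at hE3
  refine le_trans (le_of_eq ?_) hE3
  have e2 : {m : ℤ | m ∈ A ∧ ¬ JN b K N δ (zz y h x m)} = ((A.filter fun m => ¬ JN b K N δ (zz y h x m) : Finset ℤ) : Set ℤ) := by
    ext m
    simp
  rw [e2, Set.ncard_coe_finset, card_filter]
  push_cast
  refine sum_congr rfl fun m _ => ?_
  by_cases hm : JN b K N δ (zz y h x m)
  · rw [if_pos hm, if_neg (not_not.2 hm)]
  · rw [if_neg hm, if_pos hm]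

end Pool.Agent.V5helper15.MB
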