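import Pool.Agent.V5helper15.MB.AppP

/-!
# The sets of the arguments: intervals and primes; windows
-/

set_option autoImplicit false

namespace Pool.Agent.V5helper15.MB

open Finset Filter Topology Polynomial
open Pool.Agent.V5helper15.RM

/-- intervals of at least `exp (ε N)` integers, and the primes up to `M`, `exp (ε N) ≤ M ≤ exp (N ^ B)` -/
def Src (ε : ℝ) (B N : ℕ) (A : Finset ℤ) : Prop :=
  (∃ (J : ℤ) (M : ℕ), Real.exp (ε * N) ≤ M ∧ A = Ico J (J + M)) ∨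
    (∃ M : ℕ, Real.exp (ε * N) ≤ M ∧ (M : ℝ) ≤ Real.exp ((N : ℝ) ^ B) ∧ A = primesZ M)

theorem primesZ_eq (M : ℕ) : (Icc (1 : ℤ) M).filter (fun n : ℤ => Prime n) = primesZ M := by
  classical
  ext n
  unfold primesZ
  rw [mem_filter, mem_Icc, Finset.mem_map]
  constructor
  · rintro ⟨⟨h1, h2⟩, h3⟩
    refine ⟨n.toNat, ?_, ?_⟩
    · rw [mem_filter, mem_Icc]
      refine ⟨by omega, ?_⟩
      have h4 := Int.prime_iff_natAbs_prime.1 h3
      have h5 : n.natAbs = n.toNat := by omega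
      rwa [h5] at h4
    · rw [Nat.castEmbedding_apply]; omega
  · rintro ⟨p, h1, rfl⟩
    rw [mem_filter, mem_Icc] at h1
    rw [Nat.castEmbedding_apply]
    exact ⟨by omega, Nat.prime_iff_prime_int.1 h1.2⟩

theorem exists_min_pos (d : ℕ) (c : ℕ → ℝ) (hc : ∀ D, 0 < c D) : ∃ c0 : ℝ, 0 < c0 ∧ ∀ D ≤ d, c0 ≤ c D := by
  obtain ⟨k0, -, hk0⟩ := exists_min_image (range (d + 1)) c ⟨0, by simp⟩
  exact ⟨c k0, hc k0, fun k hk => hk0 k (by rw [mem_range]; omega)⟩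

theorem src_good (d : ℕ) (ε : ℝ) (hε : 0 < ε) (B : ℕ) (κ : ℝ) (hκ : 0 < κ) :
    ∃ c : ℝ, 0 < c ∧ ∃ N0 : ℕ, ∀ N : ℕ, N0 ≤ N → ∀ A : Finset ℤ, Src ε B N A →
      A.Nonempty ∧ ∀ D : ℕ, 1 ≤ D → D ≤ d → SpreadD A D (Real.exp (κ * N)) (Real.exp (-(ε / 2 * N))) (Real.exp (-(c * N))) := by
  classical
  choose c1 hc1 N1 h1 using fun D : ℕ => poly_spreadD (D + 1) (by omega) ε hε κ hκ
  choose c2 hc2 N2 h2 using fun D : ℕ => prime_spreadD (D + 1) (by omega) ε hε κ hκ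
  obtain ⟨c3, hc3, hc3'⟩ := exists_min_pos d (fun D => min (c1 D) (c2 D)) (fun D => lt_min (hc1 D) (hc2 D))
  have hev : ∀ᶠ N : ℕ in atTop, (N : ℝ) ^ B ≤ Real.exp (c3 * N) := by
    have h1 : Tendsto (fun u : ℝ => Real.exp u / u ^ B) atTop atTop := Real.tendsto_exp_div_pow_atTop B
    have h2 : Tendsto (fun N : ℕ => c3 * (N : ℝ)) atTop atTop := tendsto_natCast_atTop_atTop.const_mul_atTop hc3
    filter_upwards [(h1.comp h2).eventually_ge_atTop ((1 / c3) ^ B), eventually_gt_atTop 0] with N hN hN0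
    have hN0' : (0 : ℝ) < N := by exact_mod_cast hN0
    simp only [Function.comp] at hN
    rw [le_div_iff₀ (by positivity), ← mul_pow] at hN
    have h3 : 1 / c3 * (c3 * N) = N := by field_simp
    rwa [h3] at hN
  obtain ⟨N3, hN3⟩ := eventually_atTop.1 hev
  refine ⟨c3, hc3, N3 + ∑ D ∈ range (d + 1), (N1 D + N2 D), fun N hN A hA => ?_⟩
  have hNN : (0 : ℝ) ≤ N := Nat.cast_nonneg N
  have hND : ∀ D ≤ d, N1 D + N2 D ≤ N := fun D hD =>
    (single_le_sum (f := fun D => N1 D + N2 D) (fun _ _ => Nat.zero_le _) (mem_range.2 (by omega : D < d + 1))).trans (by omega)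
  rcases hA with ⟨J, M, hM, rfl⟩ | ⟨M, hM, hM', rfl⟩
  · have hM0 : (0 : ℝ) < M := (Real.exp_pos _).trans_le hM
    have hM1 : 0 < M := by exact_mod_cast hM0
    refine ⟨⟨J, by rw [mem_Ico]; omega⟩, fun D hD1 hD2 => ?_⟩
    obtain ⟨D, rfl⟩ : ∃ D', D = D' + 1 := ⟨D - 1, by omega⟩
    have h3 := hND D (by omega)
    refine (h1 D N (by omega) J M hM).mono (Real.exp_le_exp.2 ?_)
    have h4 := (hc3' D (by omega)).trans (min_le_left _ _)
    nlinarith
  · have hM0 : (0 : ℝ) < M := (Real.exp_pos _).trans_le hM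
    have hlog : Real.log M ≤ Real.exp (c3 * N) := by
      have := Real.log_le_log hM0 hM'
      rw [Real.log_exp] at this
      exact this.trans (hN3 N (by omega))
    have hlogD : ∀ D ≤ d, Real.log M ≤ Real.exp (c2 D * N) := by
      intro D hD
      refine hlog.trans (Real.exp_le_exp.2 ?_)
      have h4 := (hc3' D hD).trans (min_le_right _ _)
      nlinarith
    have h0 := hND 0 (Nat.zero_le _)
    refine ⟨(h2 0 N (by omega) M hM (hlogD 0 (Nat.zero_le _))).1, fun D hD1 hD2 => ?_⟩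
    obtain ⟨D, rfl⟩ : ∃ D', D = D' + 1 := ⟨D - 1, by omega⟩
    have h3 := hND D (by omega)
    refine (h2 D N (by omega) M hM (hlogD D (by omega))).2.mono (Real.exp_le_exp.2 ?_)
    have h4 := (hc3' D (by omega)).trans (min_le_right _ _)
    nlinarith

theorem Src.mono {ε ε' : ℝ} (h : ε' ≤ ε) {B N : ℕ} {A : Finset ℤ} (hA : Src ε B N A) : Src ε' B N A := by
  have h1 : Real.exp (ε' * N) ≤ Real.exp (ε * N) := Real.exp_le_exp.2 (mul_le_mul_of_nonneg_right h (Nat.cast_nonneg N))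
  rcases hA with ⟨J, M, hM, rfl⟩ | ⟨M, hM, hM', rfl⟩
  · exact Or.inl ⟨J, M, h1.trans hM, rfl⟩
  · exact Or.inr ⟨M, h1.trans hM, hM', rfl⟩

/-- `T` is a union of at most `k` intervals in `[0, N)` -/
def IU (k N : ℕ) (T : Finset ℕ) : Prop := ∃ u v : Fin k → ℕ, (∀ j, v j ≤ N) ∧ T = TU u v

/-- a union of intervals with good ends -/
theorem IU.exists {k N : ℕ} {T : Finset ℕ} (h : IU k N T) {a : ℝ} (ha : a ≤ N) (hT : ∀ n ∈ T, a ≤ (n : ℝ)) :
    ∃ u v : Fin k → ℕ, (∀ j, u j ≤ N) ∧ (∀ j, v j ≤ N) ∧ (∀ j, a ≤ (u j : ℝ)) ∧ T = TU u v := by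
  obtain ⟨u, v, hv, rfl⟩ := h
  refine ⟨fun j => if u j < v j then u j else N, fun j => if u j < v j then v j else N, fun j => ?_, fun j => ?_, fun j => ?_, ?_⟩
  · dsimp only
    have := hv j
    split_ifs <;> omega
  · dsimp only
    have := hv j
    split_ifs <;> omega
  · dsimp only
    split_ifs with hj
    · exact hT _ (mem_TU.2 ⟨j, le_rfl, hj⟩)
    · exact ha
  · ext n
    rw [mem_TU, mem_TU]
    constructor
    · rintro ⟨j, h1, h2⟩
      have : u j < v j := by omega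
      exact ⟨j, by simp only [this, if_true]; exact ⟨h1, h2⟩⟩
    · rintro ⟨j, h1, h2⟩
      by_cases hj : u j < v j
      · simp only [hj, if_true] at h1 h2
        exact ⟨j, h1, h2⟩
      · simp only [hj, if_false] at h1 h2
        omega

/-- **Windows**, final form -/
theorem windows_fin {ι : Type} [Fintype ι] [DecidableEq ι] {L : Type} [Fintype L] [DecidableEq L] {S : Type} [Fintype S] [DecidableEq S]
    (b : ι → ℕ) (hb : ∀ i, 2 ≤ b i) (hind : ∀ i i', i ≠ i' → ∀ k l : ℕ, b i ^ k = b i' ^ l → k = 0)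
    (x : S → ℝ) (hx : ∀ s, IsAlgebraic ℚ (x s)) (hlin : ∀ (n : S → ℤ) (m : ℤ), ∑ s, (n s : ℝ) * x s = m → n = 0)
    (h : L → S → ℤ[X]) (hh : Free h) (ε : ℝ) (hε : 0 < ε) (B k : ℕ) :
    ∃ c : ℝ, 0 < c ∧ ∃ N0 : ℕ, ∀ N : ℕ, N0 ≤ N → ∀ A : Finset ℤ, Src ε B N A → A.Nonempty ∧ ∀ y : L → ℝ,
      ∀ (i0 : L → ι) (T : L → ι → Finset ℕ), (∀ l i, IU k N (T l i)) → (∀ l i, ((T l i).card : ℝ) ≤ c * N) →
      (∀ l i, i ≠ i0 l → ∀ n ∈ T l i, ε * N ≤ (n : ℝ)) → ∀ d : L → ι → ℕ → ℕ, (∀ l i n, d l i n < b i) →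
      |E (uz A) (fun m => if ∀ l i, ∀ n ∈ T l i, dg (b i) (zz y h x m l) n = d l i n then 1 else 0) -
        ∏ l, ∏ i, 1 / (b i : ℝ) ^ (T l i).card| ≤ Real.exp (-(c * N)) * ∏ l, ∏ i, 1 / (b i : ℝ) ^ (T l i).card := by
  classical
  set ε' : ℝ := min ε 1 with hε'
  have he0 : 0 < ε' := lt_min hε one_pos
  have he1 : ε' ≤ ε := min_le_left _ _
  have he2 : ε' ≤ 1 := min_le_right _ _
  obtain ⟨κ, hκ, hmain⟩ := windows_appP b hb hind x hx hlin h hh k (ε' / 2) (by positivity)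
  obtain ⟨c1, hc1, N1, hsrc⟩ := src_good (dmax h) ε' he0 B κ hκ
  obtain ⟨τ, hτ, N2, hmain⟩ := hmain c1 hc1
  refine ⟨τ, hτ, max N1 N2, fun N hN A hA => ?_⟩
  obtain ⟨hAne, hAS⟩ := hsrc N ((le_max_left _ _).trans hN) A (hA.mono he1)
  refine ⟨hAne, fun y i0 T hT hTc hTε d hd => ?_⟩
  have hNN : (0 : ℝ) ≤ N := Nat.cast_nonneg N
  -- the ends of the intervals
  have hex : ∀ g : L × ι, ∃ u v : Fin k → ℕ, (∀ j, u j ≤ N) ∧ (∀ j, v j ≤ N) ∧ (g.2 ≠ i0 g.1 → ∀ j, ε' / 2 * N ≤ (u j : ℝ)) ∧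
      T g.1 g.2 = TU u v := by
    rintro ⟨l, i⟩
    by_cases hi : i = i0 l
    · obtain ⟨u, v, h1, h2, h3, h4⟩ := (hT l i).exists (a := 0) hNN (fun n _ => Nat.cast_nonneg n)
      exact ⟨u, v, h1, h2, fun h' => absurd hi h', h4⟩
    · obtain ⟨u, v, h1, h2, h3, h4⟩ := (hT l i).exists (a := ε' / 2 * N) (by nlinarith) (fun n hn => by
        have := hTε l i hi n hn
        nlinarith)
      exact ⟨u, v, h1, h2, fun _ => h3, h4⟩
  choose u v hu hv hu0 hTU using hex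
  have h1 := hmain N ((le_max_right _ _).trans hN) A y hAne hAS i0 u v hu hv (fun l i hi m => hu0 (l, i) hi m)
    (fun g => by rw [← hTU g]; exact hTc _ _) (fun g n => d g.1 g.2 n) (fun g n => hd _ _ _)
  have e1 : ∏ g : L × ι, 1 / (b g.2 : ℝ) ^ (TU (u g) (v g)).card = ∏ l, ∏ i, 1 / (b i : ℝ) ^ (T l i).card := by
    rw [Fintype.prod_prod_type]
    refine prod_congr rfl fun l _ => prod_congr rfl fun i _ => ?_
    rw [← hTU (l, i)]
  have e2 : ∀ m : A, (if ∀ g : L × ι, ∀ i ∈ TU (u g) (v g), dg (b g.2) (zz y h x m g.1) i = d g.1 g.2 i then (1 : ℝ) else 0) =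
      if ∀ l i, ∀ n ∈ T l i, dg (b i) (zz y h x m l) n = d l i n then 1 else 0 := by
    intro m
    refine if_congr ?_ rfl rfl
    constructor
    · intro h2 l i n hn
      exact h2 (l, i) n (by rw [← hTU]; exact hn)
    · rintro h2 ⟨l, i⟩ n hn
      exact h2 l i n (by rw [← hTU] at hn; exact hn)
  rw [e1] at h1
  simp only [e2] at h1
  exact h1

end Pool.Agent.V5helper15.MB
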