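import Pool.Agent.V5helper15.MB.Van2
import Pool.Agent.V5helper55.TB.Ind

/-!
# Sums of powers of multiplicatively independent bases: uniform statements
-/

set_option autoImplicit false

namespace Pool.Agent.V5helper15.MB

open Filter Finset Topology
open Pool.Agent.V5helper55.TB (Sz exact_zero)

/-- an ultrafilter adapted to a sequence of properties -/
theorem exists_ultra (A : ℕ → ℕ → Prop) (h : ∀ q, ∃ᶠ N in atTop, A q N) :
    ∃ (U : Ultrafilter ℕ) (w : ℕ → ℕ), (U : Filter ℕ) ≤ atTop ∧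
      (∀ q, ∀ᶠ N : ℕ in U, q ≤ w N) ∧ ∀ᶠ N : ℕ in U, A (w N) N := by
  obtain ⟨φ, hφ, hA⟩ := Filter.extraction_forall_of_frequently h
  refine ⟨(hyperfilter ℕ).map φ, Function.invFun φ, ?_, fun q => ?_, ?_⟩
  · have h1 : ((hyperfilter ℕ : Ultrafilter ℕ) : Filter ℕ) ≤ atTop := Nat.hyperfilter_le_atTop
    have h2 : Tendsto φ (hyperfilter ℕ : Ultrafilter ℕ) atTop := hφ.tendsto_atTop.mono_left h1
    exact h2
  · have h1 : ((hyperfilter ℕ : Ultrafilter ℕ) : Filter ℕ) ≤ atTop := Nat.hyperfilter_le_atTop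
    have h2 : ∀ᶠ k : ℕ in (hyperfilter ℕ : Ultrafilter ℕ), q ≤ Function.invFun φ (φ k) := by
      filter_upwards [h1 (eventually_ge_atTop q)] with k hk
      rw [Function.leftInverse_invFun hφ.injective k]
      exact hk
    exact h2
  · have h2 : ∀ᶠ k : ℕ in (hyperfilter ℕ : Ultrafilter ℕ), A (Function.invFun φ (φ k)) (φ k) := by
      filter_upwards with k
      rw [Function.leftInverse_invFun hφ.injective k]
      exact hA k
    exact h2

/-- a sequence with finitely many values is constant along an ultrafilter -/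
theorem ultra_const {F : Type} [Finite F] (U : Ultrafilter ℕ) (f : ℕ → F) : ∃ a, ∀ᶠ N : ℕ in U, f N = a := by
  by_contra hcon
  push Not at hcon
  have h1 : ∀ a, ∀ᶠ N : ℕ in U, f N ≠ a := hcon
  obtain ⟨N, hN⟩ := (eventually_all.2 h1).exists
  exact hN (f N) rfl

variable {ι : Type} [Fintype ι] [DecidableEq ι]

/-- **Vanishing sums**, uniform version -/
theorem vanish (B : ι → ℕ) (hB : ∀ i, 2 ≤ B i) (hind : ∀ i i', i ≠ i' → ∀ k l : ℕ, B i ^ k = B i' ^ l → k = 0)
    (T : Type) [Fintype T] [DecidableEq T] (ε : ℝ) (hε : 0 < ε) :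
    ∃ κ : ℝ, 0 < κ ∧ ∃ N0 : ℕ, ∀ N : ℕ, N0 ≤ N → ∀ (i0 : ι) (β : T → ι) (u : T → ℕ) (h : T → ℤ),
      (∀ t, β t ≠ i0 → ε * N ≤ u t) → (∀ t, |(h t : ℝ)| ≤ Real.exp (κ * N)) →
      ∑ t, h t * (B (β t) : ℤ) ^ u t = 0 → ∀ i, ∑ t with β t = i, h t * (B (β t) : ℤ) ^ u t = 0 := by
  by_contra hcon
  push Not at hcon
  let D : ℕ → ℕ → (ι × (T → ι) × (T → ℕ) × (T → ℤ)) → Prop := fun q N z =>
    (∀ t, z.2.1 t ≠ z.1 → ε * N ≤ z.2.2.1 t) ∧ (∀ t, |(z.2.2.2 t : ℝ)| ≤ Real.exp (1 / ((q : ℝ) + 1) * N)) ∧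
      ∑ t, z.2.2.2 t * (B (z.2.1 t) : ℤ) ^ z.2.2.1 t = 0 ∧
      ∃ i, ∑ t with z.2.1 t = i, z.2.2.2 t * (B (z.2.1 t) : ℤ) ^ z.2.2.1 t ≠ 0
  obtain ⟨U, w, hU, hw, hUA⟩ := exists_ultra (fun q N => ∃ z, D q N z) (by
    intro q
    rw [frequently_atTop]
    intro a
    obtain ⟨N, hN, i0, β, u, h, h1, h2, h3, h4⟩ := hcon (1 / ((q : ℝ) + 1)) (by positivity) a
    exact ⟨N, hN, (i0, β, u, h), h1, h2, h3, h4⟩)
  have : Nonempty (ι × (T → ι) × (T → ℕ) × (T → ℤ)) := by
    obtain ⟨N, z, _⟩ := hUA.exists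
    exact ⟨z⟩
  choose! z hz using fun (N : ℕ) (h : ∃ z, D (w N) N z) => h
  have hz' : ∀ᶠ N : ℕ in U, D (w N) N (z N) := hUA.mono fun N h => hz N h
  obtain ⟨i0, hi0⟩ := ultra_const U (fun N => (z N).1)
  obtain ⟨β, hβ⟩ := ultra_const U (fun N => (z N).2.1)
  have h1 := van_core hU B hB hind i0 β (fun t N => (z N).2.2.1 t) hε (by
    intro t ht
    filter_upwards [hz', hi0, hβ] with N h1 h2 h3
    have := h1.1 t
    rw [h2, h3] at this
    exact this ht) univ (fun t N => (z N).2.2.2 t) (by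
    intro t δ hδ
    filter_upwards [hz', hw ⌈1 / δ⌉₊] with N h1 h2
    refine (h1.2.1 t).trans (Real.exp_le_exp.2 (mul_le_mul_of_nonneg_right ?_ (Nat.cast_nonneg _)))
    have h3 : 1 / δ ≤ (w N : ℝ) := (Nat.le_ceil _).trans (by exact_mod_cast h2)
    rw [div_le_iff₀ hδ] at h3
    rw [div_le_iff₀ (by positivity)]
    linarith) (by
    filter_upwards [hz', hβ] with N h1 h3
    have := h1.2.2.1
    rw [h3] at this
    exact this)
  obtain ⟨N, h2, h3, h4⟩ := ((eventually_all.2 h1).and (hz'.and hβ)).exists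
  obtain ⟨i, hi⟩ := h3.2.2.2
  rw [h4] at hi
  exact hi (h2 i)

/-- the exponential growth rate of a power, along an ultrafilter -/
theorem exists_rate {U : Ultrafilter ℕ} (hU : (U : Filter ℕ) ≤ atTop) {b : ℕ} (hb : 2 ≤ b) {n : ℕ → ℕ} (h : ∀ᶠ N : ℕ in U, n N ≤ N) :
    ∃ τ : ℝ, 0 ≤ τ ∧ Pool.Agent.V5helper55.TB.Eq U (fun N => b ^ n N) τ := by
  have hb0 : (0 : ℝ) < b := by exact_mod_cast (by omega : 0 < b)
  have hL : 0 < Real.log b := Real.log_pos (by exact_mod_cast (by omega : 1 < b))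
  let t : ℕ → ℝ := fun N => n N * Real.log b / N
  have hbd : ∀ᶠ N : ℕ in U, t N ∈ Set.Icc (0 : ℝ) (Real.log b) := by
    filter_upwards [h, ev_large hU 1] with N h1 h2
    have h2' : (0 : ℝ) < N := by linarith
    refine ⟨by positivity, ?_⟩
    simp only [t]
    rw [div_le_iff₀ h2']
    have h3 : (n N : ℝ) ≤ N := by exact_mod_cast h1
    nlinarith
  obtain ⟨τ, hτ, hlim⟩ := (isCompact_Icc (a := (0 : ℝ)) (b := Real.log b)).ultrafilter_le_nhds
    (U.map t) (by
      rw [le_principal_iff]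
      exact hbd)
  have hlim' : Tendsto t U (𝓝 τ) := hlim
  refine ⟨τ, hτ.1, fun ε hε => ?_⟩
  have h1 := (tendsto_order.1 hlim').1 (τ - ε) (by linarith)
  have h2 := (tendsto_order.1 hlim').2 (τ + ε) (by linarith)
  filter_upwards [h1, h2, ev_large hU 1] with N a1 a2 a3
  have a3' : (0 : ℝ) < N := by linarith
  simp only [t] at a1 a2
  rw [lt_div_iff₀ a3'] at a1
  rw [div_lt_iff₀ a3'] at a2
  push_cast
  have h3 : (b : ℝ) ^ n N = Real.exp (n N * Real.log b) := by
    rw [← Real.rpow_natCast, Real.rpow_def_of_pos hb0]; congr 1; ring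
  rw [h3]
  exact ⟨Real.exp_le_exp.2 a1.le, Real.exp_le_exp.2 a2.le⟩

/-- **Approximation of the sums by integers**, uniform version -/
theorem dioph_multi (B : ι → ℕ) (hB : ∀ i, 2 ≤ B i) {L : Type} [Fintype L] [DecidableEq L] (x : L → ℝ)
    (hx : ∀ l, IsAlgebraic ℚ (x l)) (hlin : ∀ (n : L → ℤ) (m : ℤ), ∑ l, (n l : ℝ) * x l = m → n = 0)
    (T : Type) [Fintype T] [DecidableEq T] (ε : ℝ) (hε : 0 < ε) :
    ∃ κ : ℝ, 0 < κ ∧ ∃ N0 : ℕ, ∀ N : ℕ, N0 ≤ N → ∀ (a : T → L) (β : T → ι) (u : T → ℕ) (h : T → ℤ),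
      (∀ t, u t ≤ N) → (∀ t, |(h t : ℝ)| ≤ Real.exp (κ * N)) →
      (∃ l, ∑ t with a t = l, h t * (B (β t) : ℤ) ^ u t ≠ 0) →
      ∀ P : ℤ, Real.exp (-(ε * N)) < |∑ t, (h t : ℝ) * (B (β t) : ℝ) ^ u t * x (a t) - P| := by
  by_contra hcon
  push Not at hcon
  let D : ℕ → ℕ → ((T → L) × (T → ι) × (T → ℕ) × (T → ℤ) × ℤ) → Prop := fun q N z =>
    (∀ t, z.2.2.1 t ≤ N) ∧ (∀ t, |(z.2.2.2.1 t : ℝ)| ≤ Real.exp (1 / ((q : ℝ) + 1) * N)) ∧
      (∃ l, ∑ t with z.1 t = l, z.2.2.2.1 t * (B (z.2.1 t) : ℤ) ^ z.2.2.1 t ≠ 0) ∧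
      |∑ t, (z.2.2.2.1 t : ℝ) * (B (z.2.1 t) : ℝ) ^ z.2.2.1 t * x (z.1 t) - z.2.2.2.2| ≤ Real.exp (-(ε * N))
  obtain ⟨U, w, hU, hw, hUA⟩ := exists_ultra (fun q N => ∃ z, D q N z) (by
    intro q
    rw [frequently_atTop]
    intro a
    obtain ⟨N, hN, a, β, u, h, h1, h2, h3, P, h4⟩ := hcon (1 / ((q : ℝ) + 1)) (by positivity) a
    exact ⟨N, hN, (a, β, u, h, P), h1, h2, h3, h4⟩)
  have : Nonempty ((T → L) × (T → ι) × (T → ℕ) × (T → ℤ) × ℤ) := by
    obtain ⟨N, z, _⟩ := hUA.exists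
    exact ⟨z⟩
  choose! z hz using fun (N : ℕ) (h : ∃ z, D (w N) N z) => h
  have hz' : ∀ᶠ N : ℕ in U, D (w N) N (z N) := hUA.mono fun N h => hz N h
  obtain ⟨a, ha⟩ := ultra_const U (fun N => (z N).1)
  obtain ⟨β, hβ⟩ := ultra_const U (fun N => (z N).2.1)
  obtain ⟨u, hu⟩ : ∃ u : T → ℕ → ℕ, u = fun t N => (z N).2.2.1 t := ⟨_, rfl⟩
  obtain ⟨h, hh⟩ : ∃ h : T → ℕ → ℤ, h = fun t N => (z N).2.2.2.1 t := ⟨_, rfl⟩
  obtain ⟨P, hP⟩ : ∃ P : ℕ → ℤ, P = fun N => (z N).2.2.2.2 := ⟨_, rfl⟩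
  have hD : ∀ᶠ N : ℕ in U, (∀ t, u t N ≤ N) ∧ (∀ t, |(h t N : ℝ)| ≤ Real.exp (1 / ((w N : ℝ) + 1) * N)) ∧
      (∃ l, ∑ t with a t = l, h t N * (B (β t) : ℤ) ^ u t N ≠ 0) ∧
      |∑ t, (h t N : ℝ) * (B (β t) : ℝ) ^ u t N * x (a t) - P N| ≤ Real.exp (-(ε * N)) := by
    filter_upwards [hz', ha, hβ] with N h1 h2 h3
    rw [← h2, ← h3, hu, hh, hP]
    exact h1
  have hsm : ∀ t, ∀ δ : ℝ, 0 < δ → ∀ᶠ N : ℕ in U, |(h t N : ℝ)| ≤ Real.exp (δ * N) := by
    intro t δ hδ
    filter_upwards [hD, hw ⌈1 / δ⌉₊] with N h1 h2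
    refine (h1.2.1 t).trans (Real.exp_le_exp.2 (mul_le_mul_of_nonneg_right ?_ (Nat.cast_nonneg _)))
    have h3 : 1 / δ ≤ (w N : ℝ) := (Nat.le_ceil _).trans (by exact_mod_cast h2)
    rw [div_le_iff₀ hδ] at h3
    rw [div_le_iff₀ (by positivity)]
    linarith
  have hrate : ∀ t, ∃ τ : ℝ, 0 ≤ τ ∧ Pool.Agent.V5helper55.TB.Eq U (fun N => B (β t) ^ u t N) τ := fun t =>
    exists_rate hU (hB _) (hD.mono fun N h => h.1 t)
  choose d hd0 hd using hrate
  -- the product of the bases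
  set Q : ℕ := 2 * ∏ i, B i with hQ
  have hBpos : ∀ i, 0 < B i := fun i => by have := hB i; omega
  have hQ2 : 2 ≤ Q := by
    have : 0 < ∏ i, B i := prod_pos fun i _ => hBpos i
    omega
  -- a bound for `P`
  obtain ⟨C, hC⟩ : ∃ C : ℝ, C = 1 + Real.log (Fintype.card T + 1) + ∑ i, Real.log (B i) + ∑ l, |x l| + Real.log 2 := ⟨_, rfl⟩
  have hPb : ∀ᶠ N : ℕ in U, |(P N : ℝ)| ≤ Real.exp (C * N) := by
    filter_upwards [hD, ev_large hU 1, eventually_all.2 fun t => hsm t 1 one_pos] with N h1 h2 h3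
    have h4 : ∀ t, |(h t N : ℝ) * (B (β t) : ℝ) ^ u t N * x (a t)| ≤
        Real.exp ((1 + ∑ i, Real.log (B i) + ∑ l, |x l|) * N) := by
      intro t
      rw [abs_mul, abs_mul]
      have hb0 : (0 : ℝ) < B (β t) := by exact_mod_cast hBpos _
      have e1 : |(B (β t) : ℝ) ^ u t N| ≤ Real.exp ((∑ i, Real.log (B i)) * N) := by
        rw [abs_of_pos (by positivity), ← Real.exp_log hb0, ← Real.exp_nat_mul]
        apply Real.exp_le_exp.2
        rw [mul_comm]
        have e2 : Real.log (B (β t)) ≤ ∑ i, Real.log (B i) :=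
          single_le_sum (f := fun i => Real.log (B i : ℝ)) (fun i _ => Real.log_natCast_nonneg _) (mem_univ _)
        have e3 : (u t N : ℝ) ≤ N := by exact_mod_cast h1.1 t
        exact mul_le_mul e2 e3 (Nat.cast_nonneg _) (sum_nonneg fun i _ => Real.log_natCast_nonneg _)
      have e4 : |x (a t)| ≤ Real.exp ((∑ l, |x l|) * N) := by
        have e5 : |x (a t)| ≤ ∑ l, |x l| := single_le_sum (f := fun l => |x l|) (fun l _ => abs_nonneg _) (mem_univ _)
        have e6 : ∑ l, |x l| ≤ (∑ l, |x l|) * N := le_mul_of_one_le_right (sum_nonneg fun l _ => abs_nonneg _) h2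
        have e7 := Real.add_one_le_exp ((∑ l, |x l|) * N)
        linarith
      calc |(h t N : ℝ)| * |(B (β t) : ℝ) ^ u t N| * |x (a t)|
          ≤ Real.exp (1 * N) * Real.exp ((∑ i, Real.log (B i)) * N) * Real.exp ((∑ l, |x l|) * N) := by
            have := h3 t
            gcongr
        _ = _ := by rw [← Real.exp_add, ← Real.exp_add]; congr 1; ring
    have h5 : |∑ t, (h t N : ℝ) * (B (β t) : ℝ) ^ u t N * x (a t)| ≤
        Fintype.card T * Real.exp ((1 + ∑ i, Real.log (B i) + ∑ l, |x l|) * N) := by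
      refine (abs_sum_le_sum_abs _ _).trans ((sum_le_sum fun t _ => h4 t).trans (le_of_eq ?_))
      rw [sum_const, card_univ, nsmul_eq_mul]
    have h6 := h1.2.2.2
    have h7 : Real.exp (-(ε * N)) ≤ 1 := Real.exp_le_one_iff.2 (by
      have : 0 ≤ ε * (N : ℝ) := by positivity
      linarith)
    have h8 : |(P N : ℝ)| ≤ |∑ t, (h t N : ℝ) * (B (β t) : ℝ) ^ u t N * x (a t)| + 1 := by
      have := abs_sub_abs_le_abs_sub (P N : ℝ) (∑ t, (h t N : ℝ) * (B (β t) : ℝ) ^ u t N * x (a t))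
      rw [abs_sub_comm] at this
      linarith
    have h9 : 0 ≤ (1 + ∑ i, Real.log (B i) + ∑ l, |x l|) * N := by
      have : 0 ≤ ∑ i, Real.log (B i) := sum_nonneg fun i _ => Real.log_natCast_nonneg _
      positivity
    have h10 : 1 ≤ Real.exp ((1 + ∑ i, Real.log (B i) + ∑ l, |x l|) * N) := Real.one_le_exp h9
    have h11 : (Fintype.card T : ℝ) + 1 ≤ Real.exp (Real.log (Fintype.card T + 1) * N) := by
      have e1 : (0 : ℝ) < Fintype.card T + 1 := by positivity
      calc (Fintype.card T : ℝ) + 1 = Real.exp (Real.log (Fintype.card T + 1)) := (Real.exp_log e1).symm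
        _ ≤ _ := Real.exp_le_exp.2 (le_mul_of_one_le_right (Real.log_nonneg (by
            have : (0 : ℝ) ≤ Fintype.card T := Nat.cast_nonneg _
            linarith)) h2)
    calc |(P N : ℝ)| ≤ (Fintype.card T + 1) * Real.exp ((1 + ∑ i, Real.log (B i) + ∑ l, |x l|) * N) := by linarith
      _ ≤ Real.exp (Real.log (Fintype.card T + 1) * N) * Real.exp ((1 + ∑ i, Real.log (B i) + ∑ l, |x l|) * N) := by gcongr
      _ ≤ Real.exp (C * N) := by
          rw [← Real.exp_add]
          apply Real.exp_le_exp.2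
          rw [← add_mul]
          refine mul_le_mul_of_nonneg_right ?_ (Nat.cast_nonneg _)
          rw [hC]
          have : 0 < Real.log 2 := Real.log_pos (by norm_num)
          linarith
  -- the subspace theorem
  have key := exact_zero U hU hQ2 1 (fun N (o : Option T) => o.elim (P N) (fun t => h t N * (B (β t) : ℤ) ^ u t N))
    (fun N (o : Option T) => o.elim 1 (fun t => B (β t) ^ u t N)) (by
      intro o
      cases o with
      | none => exact Eventually.of_forall fun N => one_dvd _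
      | some t =>
        filter_upwards [hD] with N h1
        simp only [Option.elim_some, one_mul]
        refine (pow_dvd_pow_of_dvd ?_ _).trans (pow_dvd_pow Q (h1.1 t))
        exact (dvd_prod_of_mem B (mem_univ (β t))).trans (Dvd.intro_left 2 rfl)) (by
      intro o
      cases o with
      | none => exact Eventually.of_forall fun N => by simp
      | some t =>
        refine Eventually.of_forall fun N => ?_
        simp only [Option.elim_some]
        push_cast
        exact Dvd.intro_left _ rfl)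
    (fun o => o.elim C (fun _ => 0)) (fun o => o.elim 0 d) (by
      intro o δ hδ
      cases o with
      | none =>
        filter_upwards [hPb] with N h1
        simp only [Option.elim_none, Nat.cast_one, one_mul]
        exact h1.trans (Real.exp_le_exp.2 (mul_le_mul_of_nonneg_right (by linarith) (Nat.cast_nonneg _)))
      | some t =>
        filter_upwards [hsm t δ hδ] with N h1
        simp only [Option.elim_some, zero_add]
        push_cast
        rw [abs_mul, abs_of_nonneg (by positivity : (0 : ℝ) ≤ (B (β t) : ℝ) ^ u t N), mul_comm]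
        exact mul_le_mul_of_nonneg_left h1 (by positivity)) (by
      intro o
      cases o with
      | none =>
        intro δ hδ
        refine Eventually.of_forall fun N => ?_
        simp only [Option.elim_none, zero_sub, zero_add, Nat.cast_one]
        have : 0 ≤ δ * (N : ℝ) := by positivity
        exact ⟨Real.exp_le_one_iff.2 (by linarith), Real.one_le_exp this⟩
      | some t => exact hd t) (-ε) univ (by
      intro I _ hI
      by_cases hn : (none : Option T) ∈ I
      · refine ⟨none, hn, ?_⟩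
        have h1 : ∑ i ∈ I.erase none, (i.elim C (fun _ => 0) : ℝ) = 0 := by
          refine sum_eq_zero fun i hi => ?_
          cases i with
          | none => exact absurd rfl (ne_of_mem_erase hi)
          | some t => rfl
        rw [h1]
        simp only [Option.elim_none]
        linarith
      · obtain ⟨j, hj⟩ := hI
        refine ⟨j, hj, ?_⟩
        have h1 : ∑ i ∈ I.erase j, (i.elim C (fun _ => 0) : ℝ) = 0 := by
          refine sum_eq_zero fun i hi => ?_
          cases i with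
          | none => exact absurd (mem_of_mem_erase hi) hn
          | some t => rfl
        rw [h1]
        cases j with
        | none => exact absurd hj hn
        | some t =>
          simp only [Option.elim_some]
          have := hd0 t
          linarith)
    (fun o => o.elim (-1) (fun t => x (a t))) (by
      intro o
      cases o with
      | none => exact isAlgebraic_one.neg
      | some t => exact hx _) (by
      intro δ hδ
      filter_upwards [hD] with N h1
      have h2 : ∑ o : Option T, (o.elim (-1) (fun t => x (a t)) : ℝ) *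
          ((o.elim (P N) (fun t => h t N * (B (β t) : ℤ) ^ u t N) : ℤ) : ℝ) =
          ∑ t, (h t N : ℝ) * (B (β t) : ℝ) ^ u t N * x (a t) - P N := by
        rw [Fintype.sum_option]
        simp only [Option.elim_none, Option.elim_some]
        push_cast
        have : ∀ t, x (a t) * ((h t N : ℝ) * (B (β t) : ℝ) ^ u t N) = (h t N : ℝ) * (B (β t) : ℝ) ^ u t N * x (a t) := fun t => by ring
        simp only [this]
        ring
      rw [h2]
      refine h1.2.2.2.trans (Real.exp_le_exp.2 ?_)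
      have : 0 ≤ δ * (N : ℝ) := by positivity
      linarith)
  obtain ⟨N, h1, h2⟩ := (key.and hD).exists
  rw [Fintype.sum_option] at h1
  simp only [Option.elim_none, Option.elim_some] at h1
  push_cast at h1
  have h3 : ∑ l, ((∑ t with a t = l, h t N * (B (β t) : ℤ) ^ u t N : ℤ) : ℝ) * x l = ((P N : ℤ) : ℝ) := by
    have h4 : ∀ l, ((∑ t with a t = l, h t N * (B (β t) : ℤ) ^ u t N : ℤ) : ℝ) * x l =
        ∑ t with a t = l, x (a t) * ((h t N : ℝ) * (B (β t) : ℝ) ^ u t N) := by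
      intro l
      push_cast
      rw [sum_mul]
      refine sum_congr rfl fun t ht => ?_
      rw [mem_filter] at ht
      rw [ht.2]
      ring
    simp only [h4]
    rw [sum_fiberwise]
    linarith
  have h5 := hlin (fun l => ∑ t with a t = l, h t N * (B (β t) : ℤ) ^ u t N) (P N) h3
  obtain ⟨l, hl⟩ := h2.2.2.1
  exact hl (congrFun h5 l)

end Pool.Agent.V5helper15.MB
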