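import Pool.Agent.NH29.GN.Mue
import Pool.Agent.NH29.GN.Mov
import Pool.Agent.NH29.GN.MovS
import Pool.Agent.NH29.GN.MovD
import Pool.Agent.NH29.GN.Gal
import Pool.Agent.NH29.GN.Hn

/-!
# Vanishing sums of powers of multiplicatively independent bases
-/

set_option autoImplicit false

namespace Pool.Agent.V5helper15.MB

open Filter Finset Height
open Pool.Agent.NH29.GN

/-- `z s` is `exp (o(s))` along `U` -/
def Sm (U : Ultrafilter ℕ) (z : ℕ → ℤ) : Prop := ∀ δ : ℝ, 0 < δ → ∀ᶠ s : ℕ in U, |(z s : ℝ)| ≤ Real.exp (δ * s)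

variable {U : Ultrafilter ℕ}

theorem ev_large (hU : (U : Filter ℕ) ≤ atTop) (A : ℝ) : ∀ᶠ s : ℕ in U, A ≤ (s : ℝ) := by
  filter_upwards [hU (eventually_ge_atTop ⌈A⌉₊)] with s hs
  exact (Nat.le_ceil A).trans (by exact_mod_cast hs)

theorem Sm.add (hU : (U : Filter ℕ) ≤ atTop) {y z : ℕ → ℤ} (hy : Sm U y) (hz : Sm U z) : Sm U fun s => y s + z s := by
  intro δ hδ
  filter_upwards [hy (δ / 2) (by linarith), hz (δ / 2) (by linarith), ev_large hU (2 / δ)] with s h1 h2 h3
  push_cast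
  have h4 : 2 ≤ Real.exp (δ / 2 * s) := by
    have h5 : 1 ≤ δ / 2 * s := by
      rw [div_le_iff₀ hδ] at h3
      linarith
    have := Real.add_one_le_exp (δ / 2 * s)
    linarith
  calc |(y s : ℝ) + z s| ≤ |(y s : ℝ)| + |(z s : ℝ)| := abs_add_le _ _
    _ ≤ 2 * Real.exp (δ / 2 * s) := by linarith
    _ ≤ Real.exp (δ / 2 * s) * Real.exp (δ / 2 * s) := mul_le_mul_of_nonneg_right h4 (Real.exp_pos _).le
    _ = Real.exp (δ * s) := by rw [← Real.exp_add]; congr 1; ring

theorem Sm.mul {y z : ℕ → ℤ} (hy : Sm U y) (hz : Sm U z) : Sm U fun s => y s * z s := by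
  intro δ hδ
  filter_upwards [hy (δ / 2) (by linarith), hz (δ / 2) (by linarith)] with s h1 h2
  push_cast
  rw [abs_mul]
  calc |(y s : ℝ)| * |(z s : ℝ)| ≤ Real.exp (δ / 2 * s) * Real.exp (δ / 2 * s) := mul_le_mul h1 h2 (abs_nonneg _) (Real.exp_pos _).le
    _ = Real.exp (δ * s) := by rw [← Real.exp_add]; congr 1; ring

/-- the height of an integer -/
theorem height_int (z : ℤ) : logHeight₁ ((z : ℤ) : ℚ) = Real.log (max |(z : ℝ)| 1) := by
  rw [Rat.logHeight₁_eq_log_max]
  congr 1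
  rw [Rat.num_intCast, Rat.den_intCast]
  push_cast
  rw [Nat.cast_natAbs]
  push_cast
  rfl

theorem Sm.smN {z : ℕ → ℤ} (hz : Sm U z) : SmN U (fun s => (s : ℝ)) (fun s => ((z s : ℤ) : ℚ)) := by
  intro N
  filter_upwards [hz (1 / (N + 1)) (by positivity)] with s h1
  rw [height_int]
  have h2 : max |(z s : ℝ)| 1 ≤ Real.exp (1 / (N + 1) * s) := max_le h1 (Real.one_le_exp (by positivity))
  have h3 : Real.log (max |(z s : ℝ)| 1) ≤ 1 / (N + 1) * s := by
    rw [Real.log_le_iff_le_exp (by positivity)]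
    exact h2
  calc (N : ℝ) * Real.log (max |(z s : ℝ)| 1) ≤ N * (1 / (N + 1) * s) := mul_le_mul_of_nonneg_left h3 (Nat.cast_nonneg _)
    _ = N / (N + 1) * s := by ring
    _ ≤ 1 * s := by
        refine mul_le_mul_of_nonneg_right ?_ (Nat.cast_nonneg _)
        rw [div_le_one (by positivity)]
        linarith
    _ = s := one_mul _

/-- valuations are bounded by the height -/
theorem val_le_height (p : ℕ) [Fact p.Prime] (ρ : ℚ) (hρ : ρ ≠ 0) : |(padicValRat p ρ : ℝ)| * Real.log 2 ≤ logHeight₁ ρ := by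
  have hp : 2 ≤ p := (Fact.out : p.Prime).two_le
  have hl2 : 0 < Real.log 2 := Real.log_pos (by norm_num)
  have h0 : 0 < (max ρ.num.natAbs ρ.den : ℕ) := lt_max_of_lt_right ρ.den_pos
  have key : ∀ m : ℕ, m ≠ 0 → m ≤ max ρ.num.natAbs ρ.den → (padicValNat p m : ℝ) * Real.log 2 ≤ logHeight₁ ρ := by
    intro m hm hmle
    rw [Rat.logHeight₁_eq_log_max, ← Real.log_pow]
    refine Real.log_le_log (by positivity) ?_
    have h1 : p ^ padicValNat p m ≤ m := Nat.le_of_dvd (by omega) pow_padicValNat_dvd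
    have h2 : 2 ^ padicValNat p m ≤ max ρ.num.natAbs ρ.den := (Nat.pow_le_pow_left hp _).trans (h1.trans hmle)
    exact_mod_cast h2
  have h1 := key ρ.num.natAbs (by rw [Int.natAbs_ne_zero]; exact Rat.num_ne_zero.2 hρ) (le_max_left _ _)
  have h2 := key ρ.den ρ.den_nz (le_max_right _ _)
  have h3 : (padicValRat p ρ : ℝ) = (padicValNat p ρ.num.natAbs : ℝ) - padicValNat p ρ.den := by
    unfold padicValRat padicValInt
    rw [Int.cast_sub, Int.cast_natCast, Int.cast_natCast]
  rw [h3]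
  have h4 : (0 : ℝ) ≤ padicValNat p ρ.num.natAbs := Nat.cast_nonneg _
  have h5 : (0 : ℝ) ≤ padicValNat p ρ.den := Nat.cast_nonneg _
  rcases abs_cases ((padicValNat p ρ.num.natAbs : ℝ) - padicValNat p ρ.den) with h | h
  · rw [h.1]; nlinarith
  · rw [h.1]; nlinarith

theorem indep_val {a b : ℕ} (ha : 2 ≤ a) (hb : 2 ≤ b) (hab : ∀ k l : ℕ, a ^ k = b ^ l → k = 0) :
    ∃ p q : ℕ, p.Prime ∧ q.Prime ∧ a.factorization p * b.factorization q ≠ a.factorization q * b.factorization p := by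
  by_contra hcon
  push Not at hcon
  obtain ⟨q, hq, hqb⟩ := Nat.exists_prime_and_dvd (by omega : b ≠ 1)
  have hbq : 1 ≤ b.factorization q := (hq.dvd_iff_one_le_factorization (by omega)).1 hqb
  have h1 : a ^ b.factorization q = b ^ a.factorization q := by
    apply Nat.eq_of_factorization_eq (pow_ne_zero _ (by omega)) (pow_ne_zero _ (by omega))
    intro p
    by_cases hp : p.Prime
    · rw [Nat.factorization_pow, Nat.factorization_pow]
      simp only [Finsupp.smul_apply, smul_eq_mul]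
      rw [mul_comm (b.factorization q)]
      exact hcon p q hp hq
    · rw [Nat.factorization_eq_zero_of_not_prime _ hp, Nat.factorization_eq_zero_of_not_prime _ hp]
  have := hab _ _ h1
  omega

theorem val_ratio {a b : ℕ} (ha : 2 ≤ a) (hb : 2 ≤ b) (p : ℕ) (hp : p.Prime) (m n : ℕ) :
    padicValRat p ((a : ℚ) ^ m / (b : ℚ) ^ n) = (m : ℤ) * a.factorization p - n * b.factorization p := by
  have := Fact.mk hp
  have ha0 : (a : ℚ) ≠ 0 := by exact_mod_cast (by omega : a ≠ 0)
  have hb0 : (b : ℚ) ≠ 0 := by exact_mod_cast (by omega : b ≠ 0)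
  rw [padicValRat.div (pow_ne_zero _ ha0) (pow_ne_zero _ hb0), padicValRat.pow, padicValRat.pow,
    padicValRat.of_nat, padicValRat.of_nat, Nat.factorization_def _ hp, Nat.factorization_def _ hp]

/-- the height of a ratio of powers of multiplicatively independent integers -/
theorem height_ratio {a b : ℕ} (ha : 2 ≤ a) (hb : 2 ≤ b) (hab : ∀ k l : ℕ, a ^ k = b ^ l → k = 0) :
    ∃ C : ℝ, 0 < C ∧ ∀ m n : ℕ, (m : ℝ) ≤ C * logHeight₁ ((a : ℚ) ^ m / (b : ℚ) ^ n) ∧
      (n : ℝ) ≤ C * logHeight₁ ((a : ℚ) ^ m / (b : ℚ) ^ n) := by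
  obtain ⟨p, q, hp, hq, hne⟩ := indep_val ha hb hab
  have hl2 : 0 < Real.log 2 := Real.log_pos (by norm_num)
  have ha0 : (a : ℚ) ≠ 0 := by exact_mod_cast (by omega : a ≠ 0)
  have hb0 : (b : ℚ) ≠ 0 := by exact_mod_cast (by omega : b ≠ 0)
  obtain ⟨A, hA⟩ : ∃ A : ℝ, A = a.factorization p + a.factorization q + b.factorization p + b.factorization q + 1 := ⟨_, rfl⟩
  have g1 : (0 : ℝ) ≤ a.factorization p := Nat.cast_nonneg _
  have g2 : (0 : ℝ) ≤ a.factorization q := Nat.cast_nonneg _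
  have g3 : (0 : ℝ) ≤ b.factorization p := Nat.cast_nonneg _
  have g4 : (0 : ℝ) ≤ b.factorization q := Nat.cast_nonneg _
  have hA0 : 0 < A := by rw [hA]; positivity
  refine ⟨2 * A / Real.log 2, by positivity, fun m n => ?_⟩
  have := Fact.mk hp
  have := Fact.mk hq
  have hρ : (a : ℚ) ^ m / (b : ℚ) ^ n ≠ 0 := div_ne_zero (pow_ne_zero _ ha0) (pow_ne_zero _ hb0)
  have h1 := val_le_height p _ hρ
  have h2 := val_le_height q _ hρ
  rw [val_ratio ha hb p hp] at h1
  rw [val_ratio ha hb q hq] at h2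
  push_cast at h1 h2
  set X : ℝ := logHeight₁ ((a : ℚ) ^ m / (b : ℚ) ^ n) with hX
  set vp : ℝ := (m : ℝ) * a.factorization p - n * b.factorization p with hvp
  set vq : ℝ := (m : ℝ) * a.factorization q - n * b.factorization q with hvq
  set Δ : ℝ := (a.factorization p : ℝ) * b.factorization q - a.factorization q * b.factorization p with hΔ
  have hΔ1 : 1 ≤ |Δ| := by
    have h3 : ((a.factorization p : ℤ) * b.factorization q - a.factorization q * b.factorization p) ≠ 0 := by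
      rw [sub_ne_zero]
      exact_mod_cast hne
    have h4 := Int.one_le_abs h3
    have h5 : |Δ| = ((|((a.factorization p : ℤ) * b.factorization q - a.factorization q * b.factorization p)| : ℤ) : ℝ) := by
      rw [hΔ]; push_cast; rfl
    rw [h5]
    exact_mod_cast h4
  have hX' : |vp| + |vq| ≤ 2 * X / Real.log 2 := by
    rw [le_div_iff₀ hl2]
    linarith
  have e1 : (m : ℝ) * Δ = vp * b.factorization q - vq * b.factorization p := by rw [hΔ, hvp, hvq]; ring
  have e2 : (n : ℝ) * Δ = vp * a.factorization q - vq * a.factorization p := by rw [hΔ, hvp, hvq]; ring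
  have hbd : ∀ w r t : ℝ, 0 ≤ w → 0 ≤ r → 0 ≤ t → r ≤ A → t ≤ A → w * Δ = vp * r - vq * t → w ≤ 2 * A / Real.log 2 * X := by
    intro w r t hw hr ht hrA htA hwr
    have h3 : w ≤ |w * Δ| := by
      rw [abs_mul, abs_of_nonneg hw]
      nlinarith
    have h4 : |vp * r - vq * t| ≤ |vp| * A + |vq| * A := by
      refine (abs_sub _ _).trans ?_
      rw [abs_mul, abs_mul, abs_of_nonneg hr, abs_of_nonneg ht]
      have := abs_nonneg vp
      have := abs_nonneg vq
      gcongr
    rw [hwr] at h3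
    calc w ≤ (|vp| + |vq|) * A := by linarith
      _ ≤ 2 * X / Real.log 2 * A := mul_le_mul_of_nonneg_right hX' hA0.le
      _ = 2 * A / Real.log 2 * X := by ring
  exact ⟨hbd _ _ _ (Nat.cast_nonneg _) g4 g3 (by rw [hA]; linarith) (by rw [hA]; linarith) e1,
    hbd _ _ _ (Nat.cast_nonneg _) g2 g1 (by rw [hA]; linarith) (by rw [hA]; linarith) e2⟩

end Pool.Agent.V5helper15.MB
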