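import Pool.Agent.V5helper15.MB.Van

/-!
# Vanishing sums of powers of multiplicatively independent bases, along an ultrafilter
-/

set_option autoImplicit false

namespace Pool.Agent.V5helper15.MB

open Filter Finset Height
open Pool.Agent.NH29.GN

variable {U : Ultrafilter ℕ}

theorem mue_all : MueStm := mue (mov (movs gal) movd) hn

/-- the power as a unit -/
noncomputable def bu (b : ℕ) (hb : 2 ≤ b) : ℚˣ := Units.mk0 (b : ℚ) (by exact_mod_cast (by omega : b ≠ 0))

/-- if the height of the power `b ^ (v - u)` is small then the power is small -/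
theorem sm_of_height {b : ℕ} (hb : 2 ≤ b) {w : ℕ → ℕ} (h : SmN U (fun s => (s : ℝ)) (fun s => (b : ℚ) ^ w s)) :
    Sm U fun s => (b : ℤ) ^ w s := by
  intro δ hδ
  have hb0 : (0 : ℝ) < b := by exact_mod_cast (by omega : 0 < b)
  obtain ⟨N, hN⟩ := exists_nat_gt (1 / δ)
  have hN0 : 0 < (N : ℝ) := (by positivity : (0 : ℝ) < 1 / δ).trans hN
  filter_upwards [h N] with s hs
  have h1 : logHeight₁ ((b : ℚ) ^ w s) = w s * Real.log b := by
    rw [logHeight₁_pow]
    congr 1
    have := height_int (b : ℤ)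
    push_cast at this
    rw [this, max_eq_left]
    · rw [abs_of_pos hb0]
    · rw [abs_of_pos hb0]
      exact_mod_cast (by omega : 1 ≤ b)
  rw [h1] at hs
  push_cast
  rw [abs_of_pos (by positivity), ← Real.exp_log hb0, ← Real.exp_nat_mul]
  apply Real.exp_le_exp.2
  have h2 : 1 ≤ N * δ := by
    rw [div_lt_iff₀ hδ] at hN
    exact hN.le
  have h3 : 0 ≤ (w s : ℝ) * Real.log b := mul_nonneg (Nat.cast_nonneg _) (Real.log_natCast_nonneg _)
  nlinarith

theorem van_core (hU : (U : Filter ℕ) ≤ atTop) {ι : Type} [DecidableEq ι] (B : ι → ℕ) (hB : ∀ i, 2 ≤ B i)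
    (hind : ∀ i i', i ≠ i' → ∀ k l : ℕ, B i ^ k = B i' ^ l → k = 0) (i0 : ι) {T : Type} [DecidableEq T] (β : T → ι)
    (u : T → ℕ → ℕ) {ε : ℝ} (hε : 0 < ε) (hu : ∀ t, β t ≠ i0 → ∀ᶠ s : ℕ in U, ε * s ≤ u t s) (J : Finset T) :
    ∀ c : T → ℕ → ℤ, (∀ t, Sm U (c t)) →
      (∀ᶠ s : ℕ in U, ∑ t ∈ J, c t s * (B (β t) : ℤ) ^ u t s = 0) →
      ∀ i, ∀ᶠ s : ℕ in U, ∑ t ∈ J with β t = i, c t s * (B (β t) : ℤ) ^ u t s = 0 := by
  classical
  induction J using Finset.strongInduction with
  | H J ih =>
    intro c hc hrel i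
    -- a term which vanishes
    by_cases hz : ∃ j ∈ J, ∀ᶠ s : ℕ in U, c j s = 0
    · obtain ⟨j, hj, hzj⟩ := hz
      have h1 := ih (J.erase j) (erase_ssubset hj) c hc (by
        filter_upwards [hrel, hzj] with s h1 h2
        rw [← add_sum_erase _ _ hj, h2, zero_mul, zero_add] at h1
        exact h1) i
      filter_upwards [h1, hzj] with s h1 h2
      rw [← h1]
      symm
      refine sum_subset (filter_subset_filter _ (erase_subset _ _)) fun t ht ht' => ?_
      rw [mem_filter] at ht
      have : t = j := by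
        by_contra hne
        exact ht' (by rw [mem_filter, mem_erase]; exact ⟨⟨hne, ht.1⟩, ht.2⟩)
      rw [this, h2, zero_mul]
    push Not at hz
    rcases J.eq_empty_or_nonempty with rfl | hne
    · simp
    have hnz : ∀ j : J, ∀ᶠ s : ℕ in U, ((c j s : ℤ) : ℚ) ≠ 0 := by
      intro j
      filter_upwards [hz j j.2] with s hs
      exact_mod_cast hs
    have : Nonempty J := hne.to_subtype
    -- two terms whose ratio is small
    obtain ⟨j1, j2, hj12, hsm⟩ := mue_all ℚ (Subgroup.closure (Set.range fun t : J => bu (B (β t)) (hB _)))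
      ((Subgroup.fg_iff _).2 ⟨Set.range fun t : J => bu (B (β t)) (hB _), rfl, Set.finite_range _⟩) U (fun s => (s : ℝ)) (ev_large hU) J
      (fun t s => bu (B (β t)) (hB _) ^ u t s) (fun t s => ((c t s : ℤ) : ℚ))
      (fun t s => Subgroup.pow_mem _ (Subgroup.subset_closure (Set.mem_range_self t)) _) hnz (fun t => (hc t).smN) (by
        filter_upwards [hrel] with s hs
        have h1 : ∑ t : J, ((c t s : ℤ) : ℚ) * ((bu (B (β t)) (hB _) ^ u t s : ℚˣ) : ℚ) =
            ((∑ t : J, c t s * (B (β t) : ℤ) ^ u t s : ℤ) : ℚ) := by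
          push_cast
          rfl
        rw [h1, sum_coe_sort J (fun t => c t s * (B (β t) : ℤ) ^ u t s), hs]
        rfl)
    have hj12' : (j1 : T) ≠ j2 := fun h => hj12 (Subtype.ext h)
    have hsm' : SmN U (fun s => (s : ℝ)) (fun s => (B (β j1) : ℚ) ^ u j1 s / (B (β j2) : ℚ) ^ u j2 s) := by
      have h1 : (fun s => ((bu (B (β j1)) (hB _) ^ u j1 s : ℚˣ) : ℚ) / ((bu (B (β j2)) (hB _) ^ u j2 s : ℚˣ) : ℚ)) =
          fun s => (B (β j1) : ℚ) ^ u j1 s / (B (β j2) : ℚ) ^ u j2 s := by
        funext s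
        push_cast
        rfl
      rw [← h1]
      exact hsm
    -- merging two terms
    have merge : ∀ j ∈ J, ∀ j' ∈ J, j ≠ j' → β j = β j' → (∀ᶠ s : ℕ in U, u j s ≤ u j' s) →
        (Sm U fun s => (B (β j') : ℤ) ^ (u j' s - u j s)) →
        ∀ᶠ s : ℕ in U, ∑ t ∈ J with β t = i, c t s * (B (β t) : ℤ) ^ u t s = 0 := by
      intro j hj j' hj' hne hβ hle hs
      set c' : T → ℕ → ℤ := Function.update c j (fun s => c j s + c j' s * (B (β j') : ℤ) ^ (u j' s - u j s)) with hc'
      have hc'j : c' j = fun s => c j s + c j' s * (B (β j') : ℤ) ^ (u j' s - u j s) := by rw [hc', Function.update_self]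
      have hc't : ∀ t, t ≠ j → c' t = c t := fun t ht => by rw [hc', Function.update_of_ne ht]
      have key : ∀ s, u j s ≤ u j' s → ∀ (p : T → Prop) [DecidablePred p], (p j ↔ p j') →
          ∑ t ∈ (J.erase j') with p t, c' t s * (B (β t) : ℤ) ^ u t s = ∑ t ∈ J with p t, c t s * (B (β t) : ℤ) ^ u t s := by
        intro s hle p _ hp
        by_cases hpj : p j
        · have h1 : j ∈ (J.erase j').filter p := by rw [mem_filter, mem_erase]; exact ⟨⟨hne, hj⟩, hpj⟩
          have h2 : j' ∈ J.filter p := by rw [mem_filter]; exact ⟨hj', hp.1 hpj⟩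
          rw [← add_sum_erase _ _ h1, ← add_sum_erase _ _ h2]
          have h3 : (J.filter p).erase j' = (J.erase j').filter p := by
            ext t; simp only [mem_erase, mem_filter]; tauto
          rw [h3, ← add_sum_erase _ _ h1, hc'j]
          dsimp only
          have h4 : ∑ t ∈ ((J.erase j').filter p).erase j, c' t s * (B (β t) : ℤ) ^ u t s =
              ∑ t ∈ ((J.erase j').filter p).erase j, c t s * (B (β t) : ℤ) ^ u t s := by
            refine sum_congr rfl fun t ht => ?_
            rw [hc't t (ne_of_mem_erase ht)]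
          rw [h4]
          have h5 : (B (β j') : ℤ) ^ (u j' s - u j s) * (B (β j) : ℤ) ^ u j s = (B (β j') : ℤ) ^ u j' s := by
            rw [hβ, ← pow_add, Nat.sub_add_cancel hle]
          rw [add_mul, mul_assoc, h5]
          ring
        · have h1 : (J.erase j').filter p = J.filter p := by
            ext t
            simp only [mem_filter, mem_erase]
            constructor
            · rintro ⟨⟨_, h⟩, h'⟩; exact ⟨h, h'⟩
            · rintro ⟨h, h'⟩
              exact ⟨⟨fun h2 => hpj (hp.2 (h2 ▸ h')), h⟩, h'⟩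
          rw [h1]
          refine sum_congr rfl fun t ht => ?_
          rw [mem_filter] at ht
          rw [hc't t (fun h2 => hpj (h2 ▸ ht.2))]
      have h1 := ih (J.erase j') (erase_ssubset hj') c' (fun t => by
        by_cases ht : t = j
        · rw [ht, hc'j]
          exact (hc j).add hU ((hc j').mul hs)
        · rw [hc't t ht]
          exact hc t) (by
        filter_upwards [hrel, hle] with s h1 h2
        have h3 := key s h2 (fun _ => True) Iff.rfl
        rw [filter_true_of_mem (fun _ _ => trivial), filter_true_of_mem (fun _ _ => trivial)] at h3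
        rw [h3, h1]) i
      filter_upwards [h1, hle] with s h1 h2
      rw [← key s h2 (fun t => β t = i) (by rw [hβ]), h1]
    by_cases hβ : β j1 = β j2
    · have hb0 : (B (β j2) : ℚ) ≠ 0 := by
        have := hB (β j2)
        exact_mod_cast (by omega : B (β j2) ≠ 0)
      rcases Ultrafilter.eventually_or.1 (Eventually.of_forall fun s => le_total (u j1 s) (u j2 s)) with h | h
      · refine merge j1 j1.2 j2 j2.2 hj12' hβ h (sm_of_height (hB _) ?_)
        intro N
        filter_upwards [hsm' N, h] with s hs1 hs2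
        have h1 : (B (β j1) : ℚ) ^ u j1 s / (B (β j2) : ℚ) ^ u j2 s = ((B (β j2) : ℚ) ^ (u j2 s - u j1 s))⁻¹ := by
          rw [hβ, div_eq_iff (pow_ne_zero _ hb0), eq_inv_mul_iff_mul_eq₀ (pow_ne_zero _ hb0), ← pow_add, Nat.sub_add_cancel hs2]
        rw [h1, logHeight₁_inv] at hs1
        exact hs1
      · refine merge j2 j2.2 j1 j1.2 hj12'.symm hβ.symm h (sm_of_height (hB _) ?_)
        intro N
        filter_upwards [hsm' N, h] with s hs1 hs2
        have h1 : (B (β j1) : ℚ) ^ u j1 s / (B (β j2) : ℚ) ^ u j2 s = (B (β j1) : ℚ) ^ (u j1 s - u j2 s) := by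
          rw [hβ, div_eq_iff (pow_ne_zero _ hb0), ← pow_add, Nat.sub_add_cancel hs2]
        rw [h1] at hs1
        exact hs1
    · -- different bases
      exfalso
      obtain ⟨C, hC, hCmn⟩ := height_ratio (hB (β j1)) (hB (β j2)) (hind _ _ hβ)
      obtain ⟨N, hN⟩ := exists_nat_gt (2 * C / ε)
      have hN0 : (0 : ℝ) < N := (by positivity : 0 < 2 * C / ε).trans hN
      have hbig : ∀ᶠ s : ℕ in U, ε * s ≤ u j1 s ∨ ε * s ≤ u j2 s := by
        by_cases h : β j1 = i0
        · filter_upwards [hu j2 (fun h' => hβ (h.trans h'.symm))] with s hs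
          exact Or.inr hs
        · filter_upwards [hu j1 h] with s hs
          exact Or.inl hs
      obtain ⟨s, h1, h2, h3⟩ := ((hsm' N).and (hbig.and (ev_large hU 1))).exists
      obtain ⟨h4, h5⟩ := hCmn (u j1 s) (u j2 s)
      set X := logHeight₁ ((B (β j1) : ℚ) ^ u j1 s / (B (β j2) : ℚ) ^ u j2 s) with hX
      have h6 : ε * s ≤ C * X := by
        rcases h2 with h2 | h2 <;> linarith
      have h7 : 2 * C < ε * N := by
        rw [div_lt_iff₀ hε] at hN
        linarith
      have h8 : 0 ≤ X := zero_le_logHeight₁ _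
      have h9 : ε * (N * X) ≤ ε * s := mul_le_mul_of_nonneg_left h1 hε.le
      have hs0 : 0 < ε * s := by positivity
      nlinarith

end Pool.Agent.V5helper15.MB
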